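import Pool.Agent.Q7.LM.Rcp

/-!
# The diagonal of the reciprocity form
-/

set_option autoImplicit false

namespace Pool.Agent.Q7.LM

open NumberField IsDedekindDomain Filter Topology Finset
open Pool.Agent.Q283.LQ Pool.Agent.Q151.LQ
open Pool.Agent.Q129.LQ (sb_zero_iff sb_one_iff sb_mul nod_one lsq_one sb_mon sm_of_dy above_unique
  exists_above fin_above fin_sm inf_symb ap_symm nod_of_one od_of_neg_one val_mon card_sb rec_dep)

variable {F : Type} [Field F] [NumberField F]

theorem od_neg {v : HeightOneSpectrum (𝓞 F)} {a : F} : Od v (-a) ↔ Od v a := by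
  unfold Od
  rw [Valuation.map_neg]

theorem val_four {v : HeightOneSpectrum (𝓞 F)} (hv : ¬ Dy v) : v.valuation F (4 : F) = 1 := by
  have h1 : (4 : F) = ((4 : ℕ) : F) := by norm_num
  rw [h1]
  refine val_nat fun h => hv ?_
  have h2 : ((4 : ℕ) : 𝓞 F) = 2 * 2 := by norm_num
  rw [h2] at h
  rcases v.isPrime.mem_or_mem h with h3 | h3 <;> exact h3

theorem four_ne : (4 : F) ≠ 0 := by norm_num

theorem val_c {v : HeightOneSpectrum (𝓞 F)} {s m : ℕ} {p : F} (hs : (s : 𝓞 F) ∉ v.asIdeal)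
    (hm : (m : 𝓞 F) ∈ v.asIdeal) (hp : v.valuation F p ≤ 1) :
    v.valuation F ((s : F) ^ 2 - p * (m : F) ^ 2) = 1 := by
  have h1 : v.valuation F ((s : F) ^ 2) = 1 := by rw [map_pow, val_nat hs, one_pow]
  have h2 : v.valuation F (p * (m : F) ^ 2) < 1 := by
    rw [map_mul, map_pow]
    exact lt_of_le_of_lt (mul_le_of_le_one_left' hp) (pow_lt_one₀ zero_le (val_nat_lt hm) two_ne_zero)
  rw [← h1] at h2
  rw [sub_eq_add_neg, Valuation.map_add_eq_of_lt_left _ (by rw [Valuation.map_neg]; exact h2), h1]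

/-- an auxiliary element `c = s² - p m²` -/
theorem exists_aux (hB : S_BAS) {y : ℕ} {p : F} (hp : p ≠ 0) (lq lq' : ℕ)
    (hlq : lq.Prime) (hlq' : lq'.Prime) (hy : y < lq) (hy' : y < lq')
    (hp1 : ∀ v : HeightOneSpectrum (𝓞 F), ¬ Sm y v → v.valuation F p ≤ 1)
    {q : HeightOneSpectrum (𝓞 F)} (hq : ¬ Sm y q) (hlqq : (lq : 𝓞 F) ∈ q.asIdeal) :
    ∃ s m : ℕ, (∀ v : HeightOneSpectrum (𝓞 F), ¬ Sm y v → (s : 𝓞 F) ∉ v.asIdeal) ∧
      lq ∣ m ∧ lq' ∣ m ∧ Nn y (-(p * ((s : F) ^ 2 - p * (m : F) ^ 2))) := by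
  classical
  have hS := fin_sm (F := F) y
  -- the exponent of the factorial
  have h1 : ∀ᶠ A : ℕ in atTop, ∀ v ∈ {v : HeightOneSpectrum (𝓞 F) | Sm y v},
      v.valuation F ((((y.factorial : ℕ) : F) ^ 2) ^ A) < v.valuation F (4 * p) := by
    rw [Set.Finite.eventually_all hS]
    intro v hv
    refine ev_small v ?_ (mul_ne_zero four_ne hp)
    rw [map_pow]
    exact pow_lt_one₀ zero_le (val_nat_lt (fact_mem hv)) two_ne_zero
  obtain ⟨A, hA⟩ := h1.exists
  set s : ℕ := y.factorial ^ A with hs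
  -- the exponent of `lq`
  have h2 : ∀ᶠ B : ℕ in atTop, ∀ φ : F →+* ℝ, φ p * (s : ℝ) ^ 2 < (φ p) ^ 2 * (((lq ^ B * lq' : ℕ) : ℝ)) ^ 2 := by
    rw [Filter.eventually_all]
    intro φ
    have hφ : φ p ≠ 0 := (map_ne_zero φ).2 hp
    have hφ2 : 0 < (φ p) ^ 2 := by positivity
    have h3 : Tendsto (fun B : ℕ => ((lq : ℝ)) ^ B) atTop atTop :=
      tendsto_pow_atTop_atTop_of_one_lt (by exact_mod_cast hlq.one_lt)
    filter_upwards [h3.eventually_gt_atTop (φ p * (s : ℝ) ^ 2 / (φ p) ^ 2),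
      h3.eventually_ge_atTop 1] with B hB1 hB2
    rw [div_lt_iff₀ hφ2] at hB1
    have h4 : ((lq : ℝ)) ^ B ≤ (((lq ^ B * lq' : ℕ) : ℝ)) ^ 2 := by
      push_cast
      have h5 : (1 : ℝ) ≤ lq' := by exact_mod_cast hlq'.one_lt.le
      have h6 : (lq : ℝ) ^ B ≤ (lq : ℝ) ^ B * lq' := le_mul_of_one_le_right (by positivity) h5
      have h7 : (1 : ℝ) ≤ (lq : ℝ) ^ B * lq' := hB2.trans h6
      nlinarith
    nlinarith
  obtain ⟨B, hB1, hB2⟩ := (h2.and (eventually_ge_atTop 1)).exists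
  set m : ℕ := lq ^ B * lq' with hm
  have hm0 : (m : F) ≠ 0 := by
    rw [hm]
    exact_mod_cast (Nat.mul_pos (pow_pos hlq.pos B) hlq'.pos).ne'
  have hs1 : ∀ v : HeightOneSpectrum (𝓞 F), ¬ Sm y v → (s : 𝓞 F) ∉ v.asIdeal := by
    intro v hv h
    rw [hs, Nat.cast_pow] at h
    exact fact_not_mem hv (v.isPrime.mem_of_pow_mem _ h)
  have hd : lq ∣ m := (dvd_pow_self lq (by omega)).mul_right _
  refine ⟨s, m, hs1, hd, Dvd.intro_left _ rfl, ?_, ?_, ?_⟩
  · -- nonzero
    have h3 : q.valuation F ((s : F) ^ 2 - p * (m : F) ^ 2) = 1 := by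
      refine val_c (hs1 q hq) ?_ (hp1 q hq)
      obtain ⟨n, hn⟩ := hd
      rw [hn, Nat.cast_mul]
      exact q.asIdeal.mul_mem_right _ hlqq
    have h4 : ((s : F) ^ 2 - p * (m : F) ^ 2) ≠ 0 := by
      intro h0
      rw [h0, map_zero] at h3
      exact zero_ne_one h3
    exact neg_ne_zero.2 (mul_ne_zero hp h4)
  · intro v hv
    have hvm : v.valuation F (m : F) = 1 := by
      refine val_nat fun h => ?_
      obtain ⟨l, hl, hly, hlv⟩ := hv
      rw [hm, Nat.cast_mul, Nat.cast_pow] at h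
      rcases v.isPrime.mem_or_mem h with h7 | h7
      · have := above_unique hl hlq hlv (v.isPrime.mem_of_pow_mem _ h7)
        omega
      · have := above_unique hl hlq' hlv h7
        omega
    have h4 := hA v hv
    have h5 : (((y.factorial : ℕ) : F) ^ 2) ^ A = (s : F) ^ 2 := by
      rw [hs]
      push_cast
      ring
    rw [h5, map_mul] at h4
    have hvp : v.valuation F p ≠ 0 := (Valuation.ne_zero_iff _).2 hp
    refine (hB F v).2.2.2.2.1 _ (p * (m : F))⁻¹ ?_
    have h6 : -(p * ((s : F) ^ 2 - p * (m : F) ^ 2)) * (p * (m : F))⁻¹ ^ 2 - 1 =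
        -((s : F) ^ 2 / (p * (m : F) ^ 2)) := by
      field_simp
      ring
    rw [h6, Valuation.map_neg, map_div₀, map_mul, map_pow _ (m : F), hvm, one_pow, mul_one,
      div_lt_iff₀ (zero_lt_iff.2 hvp)]
    exact h4
  · intro φ
    have h3 := hB1 φ
    rw [map_neg, map_mul, map_sub, map_mul, map_pow, map_pow, map_natCast, map_natCast]
    nlinarith

theorem ode_even {v : HeightOneSpectrum (𝓞 F)} {a : F} (h : Od v a) (h1 : v.valuation F a ≤ 1) :
    v.valuation F a < 1 := by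
  refine lt_of_le_of_ne h1 fun h2 => nod_of_one h2 h

/-- where `c` has odd valuation, `p` is a local square -/
theorem lsq_of_od (hB : S_BAS) {v : HeightOneSpectrum (𝓞 F)} {s m : ℕ} {p : F} (hdy : ¬ Dy v)
    (hs : (s : 𝓞 F) ∉ v.asIdeal) (hp : v.valuation F p = 1)
    (ho : Od v ((s : F) ^ 2 - p * (m : F) ^ 2)) : Lsq v p := by
  have hvs : v.valuation F (s : F) = 1 := val_nat hs
  have hs0 : (s : F) ≠ 0 := by
    intro h
    rw [h, map_zero] at hvs
    exact zero_ne_one hvs
  by_cases hm : (m : 𝓞 F) ∈ v.asIdeal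
  · exact absurd ho (nod_of_one (val_c hs hm hp.le))
  · have h1 : v.valuation F ((s : F) ^ 2 - p * (m : F) ^ 2) ≤ 1 := by
      refine (Valuation.map_sub _ _ _).trans (max_le ?_ ?_)
      · rw [map_pow, hvs, one_pow]
      · rw [map_mul, map_pow, hp, val_nat hm, one_pow, one_mul]
    have h2 := ode_even ho h1
    refine (hB F v).2.2.2.2.1 p ((m : F) / s) ?_
    have h3 : p * ((m : F) / s) ^ 2 - 1 = -(((s : F) ^ 2 - p * (m : F) ^ 2) / (s : F) ^ 2) := by
      field_simp
      ring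
    rw [h3, Valuation.map_neg, map_div₀, map_pow _ (s : F), hvs, one_pow, div_one, val_four hdy]
    exact h2

theorem g_diag (hB : S_BAS) (hC : S_CHEB) {y f : ℕ} {u r : Fin f → F} {π : HeightOneSpectrum (𝓞 F) → F}
    {g : (Fin f → ZMod 2) → (Fin f → ZMod 2) → ZMod 2} (B : Base y f u r π g) (X : Exv y π)
    (hR : RecY F y) (n : Fin f → ZMod 2) (hn : IsSquare (-1 * mon u n)) (φ : Fin f → ZMod 2) :
    g φ φ = dot φ n := by
  classical
  obtain ⟨q, hq, hs, -⟩ := ex_symb_fin hC y B.ue B.ind φ ∅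
  obtain ⟨q', hq', hs', ha⟩ := ex_symb_fin hC y B.ue B.ind φ {q}
  have ha1 : Ap q' q := ha q (Finset.mem_singleton_self q)
  have hne : q' ≠ q := ne_of_ap ha1
  obtain ⟨lq, hlq, hlqq⟩ := exists_above q
  obtain ⟨lq', hlq', hlqq'⟩ := exists_above q'
  have hy := lt_of_not_sm hlq hlqq hq
  have hy' := lt_of_not_sm hlq' hlqq' hq'
  have z := (B.po q hq).1
  have z' := (B.po q' hq').1
  have hp1 : ∀ v : HeightOneSpectrum (𝓞 F), ¬ Sm y v → v.valuation F (π q) ≤ 1 := by
    intro v hv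
    by_cases h : v = q
    · rw [h, X.one q hq, ← WithZero.exp_zero, WithZero.exp_le_exp]
      norm_num
    · exact (X.two q hq v hv h).le
  obtain ⟨s, m, hs1, hd, hd', hN⟩ := exists_aux hB z lq lq' hlq hlq' hy hy' hp1 hq hlqq
  set c : F := (s : F) ^ 2 - π q * (m : F) ^ 2 with hc
  have hc0 : c ≠ 0 := by
    intro h
    exact hN.1 (by rw [h, mul_zero, neg_zero])
  have hdvd : ∀ (l : ℕ) (v : HeightOneSpectrum (𝓞 F)), l ∣ m → (l : 𝓞 F) ∈ v.asIdeal → (m : 𝓞 F) ∈ v.asIdeal := by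
    rintro l v ⟨a, ha⟩ hl
    rw [ha, Nat.cast_mul]
    exact v.asIdeal.mul_mem_right _ hl
  have hcq : q.valuation F c = 1 := val_c (hs1 q hq) (hdvd lq q hd hlqq) (hp1 q hq)
  have hcq' : q'.valuation F c = 1 := val_c (hs1 q' hq') (hdvd lq' q' hd' hlqq') (hp1 q' hq')
  have hdyS : ∀ v : HeightOneSpectrum (𝓞 F), ¬ Sm y v → ¬ Dy v := fun v hv h => hv (sm_of_dy B.two h)
  -- `c` is a square at `q` and `q'`
  have hsqc : ∀ v : HeightOneSpectrum (𝓞 F), ¬ Sm y v → (m : 𝓞 F) ∈ v.asIdeal → Lsq v c := by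
    intro v hv hm
    have hvs : v.valuation F (s : F) = 1 := val_nat (hs1 v hv)
    have hs0 : (s : F) ≠ 0 := by
      intro h
      rw [h, map_zero] at hvs
      exact zero_ne_one hvs
    refine (hB F v).2.2.2.2.1 c ((s : F))⁻¹ ?_
    have h3 : c * ((s : F))⁻¹ ^ 2 - 1 = -(π q * (m : F) ^ 2 / (s : F) ^ 2) := by
      rw [hc]
      field_simp
      ring
    rw [h3, Valuation.map_neg, map_div₀, map_pow _ (s : F), hvs, one_pow, div_one, val_four (hdyS v hv),
      map_mul, map_pow]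
    exact lt_of_le_of_lt (mul_le_of_le_one_left' (hp1 v hv)) (pow_lt_one₀ zero_le (val_nat_lt hm) two_ne_zero)
  -- the places where `c` has odd valuation
  have hT : {v : HeightOneSpectrum (𝓞 F) | ¬ Sm y v ∧ Od v c}.Finite :=
    (Pool.Agent.Q150.LQ.B1.Od_fin hc0).subset fun v hv => hv.2
  set T := hT.toFinset with hTdef
  have hTm : ∀ v, v ∈ T ↔ ¬ Sm y v ∧ Od v c := fun v => by rw [hTdef, Set.Finite.mem_toFinset]; rfl
  have hTq : q ∉ T := fun h => nod_of_one hcq ((hTm q).1 h).2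
  -- first application
  have hb1 : Nn y (π q * π q') := by
    have h1 := B.pc q hq
    have h2 := B.pc q' hq'
    rw [hs] at h1
    rw [hs'] at h2
    have h3 := nn_mul hB h1 h2
    have h5 : π q * mon r φ * (π q' * mon r φ) = π q * π q' * (mon r φ) ^ 2 := by ring
    rw [h5] at h3
    exact nn_of_mul_sq hB (mon_ne B.re _) h3
  have k1 := recZ hR (mul_ne_zero z z') hc0 (by
    intro l hl hyl
    by_cases h1 : l = lq
    · right
      intro v hv
      have hvS := sm_of_le hl hyl hv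
      rw [h1] at hv
      exact val_c (hs1 v hvS) (hdvd lq v hd hv) (hp1 v hvS)
    · by_cases h2 : l = lq'
      · right
        intro v hv
        have hvS := sm_of_le hl hyl hv
        rw [h2] at hv
        exact val_c (hs1 v hvS) (hdvd lq' v hd' hv) (hp1 v hvS)
      · left
        intro v hv
        have hvS := sm_of_le hl hyl hv
        have e1 : v ≠ q := by
          rintro rfl
          exact h1 (above_unique hl hlq hv hlqq)
        have e2 : v ≠ q' := by
          rintro rfl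
          exact h2 (above_unique hl hlq' hv hlqq')
        rw [map_mul, X.two q hq v hvS e1, X.two q' hq' v hvS e2, one_mul]) hb1 {q, q'} T (by
    intro v
    rw [Finset.mem_insert, Finset.mem_singleton]
    constructor
    · intro h
      have hv : ¬ Sm y v := by
        rcases h with rfl | rfl
        · exact hq
        · exact hq'
      refine ⟨hv, ?_⟩
      rw [od_mul hB v z z', (B.po q hq).2 v hv, (B.po q' hq').2 v hv]
      rcases h with rfl | rfl
      · have := hne.symm; tauto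
      · tauto
    · rintro ⟨hv, ho⟩
      rw [od_mul hB v z z', (B.po q hq).2 v hv, (B.po q' hq').2 v hv] at ho
      tauto) hTm
  rw [Finset.sum_pair hne.symm, sb_zero_iff.2 (hsqc q hq (hdvd lq q hd hlqq)),
    sb_zero_iff.2 (hsqc q' hq' (hdvd lq' q' hd' hlqq')), add_zero, zero_add] at k1
  have k2 : ∑ v ∈ T, sb v (π q') = 0 := by
    rw [← k1]
    refine Finset.sum_congr rfl fun v hv => ?_
    obtain ⟨hvS, ho⟩ := (hTm v).1 hv
    have e1 : v ≠ q := by
      rintro rfl
      exact hTq hv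
    have e2 : v ≠ q' := by
      rintro rfl
      exact nod_of_one hcq' ho
    have v1 := X.two q hq v hvS e1
    have v2 := X.two q' hq' v hvS e2
    have h1 : Lsq v (π q) := lsq_of_od hB (hdyS v hvS) (hs1 v hvS) v1 ho
    rw [sb_mul hB (hdyS v hvS) z z' (nod_of_one v1) (nod_of_one v2), sb_zero_iff.2 h1, zero_add]
  -- second application
  have k3 := recZ hR (neg_ne_zero.2 (mul_ne_zero z hc0)) z' (by
    intro l hl hyl
    by_cases h2 : l = lq'
    · left
      intro v hv
      have hvS := sm_of_le hl hyl hv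
      rw [h2] at hv
      have e1 : v ≠ q := by
        rintro rfl
        exact ha1 lq' hlq' hlqq' hv
      rw [Valuation.map_neg, map_mul, X.two q hq v hvS e1, one_mul]
      exact val_c (hs1 v hvS) (hdvd lq' v hd' hv) (hp1 v hvS)
    · right
      intro v hv
      have hvS := sm_of_le hl hyl hv
      have e2 : v ≠ q' := by
        rintro rfl
        exact h2 (above_unique hl hlq' hv hlqq')
      exact X.two q' hq' v hvS e2) hN (insert q T) {q'} (by
    intro v
    rw [Finset.mem_insert, hTm, od_neg]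
    constructor
    · intro h
      have hv : ¬ Sm y v := by
        rcases h with rfl | h
        · exact hq
        · exact h.1
      refine ⟨hv, ?_⟩
      rw [od_mul hB v z hc0, (B.po q hq).2 v hv]
      rcases h with rfl | h
      · have := nod_of_one hcq; tauto
      · have : v ≠ q := by
          rintro rfl
          exact nod_of_one hcq h.2
        tauto
    · rintro ⟨hv, ho⟩
      rw [od_mul hB v z hc0, (B.po q hq).2 v hv] at ho
      tauto) (by
    intro v
    rw [Finset.mem_singleton]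
    constructor
    · rintro rfl
      exact ⟨hq', ((B.po v hq').2 v hq').2 rfl⟩
    · rintro ⟨hv, ho⟩
      exact ((B.po q' hq').2 v hv).1 ho)
  rw [Finset.sum_insert hTq, k2, add_zero, Finset.sum_singleton] at k3
  have o1 : ¬ Od q' (π q) := fun h => hne (((B.po q hq).2 q' hq').1 h)
  have o2 : ¬ Od q' c := nod_of_one hcq'
  have o3 : ¬ Od q' (-1 : F) := by
    rw [od_neg]
    exact nod_one hB q'
  have o4 : ¬ Od q' (π q * c) := by
    rw [od_mul hB q' z hc0]
    tauto
  have e1 : -(π q * c) = (-1) * (π q * c) := by ring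
  rw [e1, sb_mul hB (hdyS q' hq') (neg_ne_zero.2 one_ne_zero) (mul_ne_zero z hc0) o3 o4,
    sb_mul hB (hdyS q' hq') z hc0 o1 o2, sb_zero_iff.2 (hsqc q' hq' (hdvd lq' q' hd' hlqq')), add_zero] at k3
  -- the symbol of `-1`
  have hmon0 : mon u n ≠ 0 := mon_ne B.ue n
  have k4 : sb q' (-1 : F) = dot φ n := by
    have h1 : sb q' (-1 * mon u n) = 0 := by
      obtain ⟨x, hx⟩ := hn
      have hx0 : x ≠ 0 := by
        rintro rfl
        rw [mul_zero] at hx
        exact (mul_ne_zero (neg_ne_zero.2 one_ne_zero) hmon0) hx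
      rw [sb_zero_iff, hx, ← pow_two]
      exact lsq_sq hB q' hx0
    rw [sb_mul hB (hdyS q' hq') (neg_ne_zero.2 one_ne_zero) hmon0 o3
      (nod_mon hB B.ue (fun l => B.uo l q' hq') n), sb_mon hB (hdyS q' hq') B.ue (fun l => B.uo l q' hq') n,
      hs'] at h1
    exact CharTwo.add_eq_zero.1 h1
  have r1 := B.rcp q q' hq hq' (ap_symm ha1)
  rw [hs, hs'] at r1
  rw [← r1, ← k4]
  linear_combination k3 - add_self (sb q' (-1 : F))

/-- the reciprocity form -/
theorem exists_frm (hB : S_BAS) (hC : S_CHEB) {y f : ℕ} {u r : Fin f → F} {π : HeightOneSpectrum (𝓞 F) → F}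
    {g : (Fin f → ZMod 2) → (Fin f → ZMod 2) → ZMod 2} (B : Base y f u r π g) (X : Exv y π)
    (hR : RecY F y) : ∃ Q : Frm f, Q.g = g := by
  obtain ⟨n, hn⟩ := B.full (-1) (neg_ne_zero.2 one_ne_zero) (fun v _ => by
    rw [od_neg]
    exact nod_one hB v)
  exact ⟨⟨g, g_add hB hC B X hR, g_symm hC B, n, g_diag hB hC B X hR n hn⟩, rfl⟩

end Pool.Agent.Q7.LM
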