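import Pool.Agent.Q7.LM.Cnt

/-!
# Three moments for tables of residue symbols: the share of the tables with solutions
-/

set_option autoImplicit false

namespace Pool.Agent.Q7.LM

open Finset Pool.Agent.Q283.LQ Filter Topology

variable {f k t : ℕ}

open Classical in
/-- the sum for one family -/
noncomputable def TT (Q : Frm f) (w : Vv f) (E : Finset (Vv f × Vv f)) (T : Finset (Fin k → Vv f))
    (Y : Fin t → Fin k → ZMod 2) : ℝ :=
  ∑ φ ∈ T, ∑ C : Fin t → Vv f, if ∀ s, (phy φ (Y s), C s) ∈ E then cntm Q w φ C Y else 0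

theorem TT_nonneg (Q : Frm f) (w : Vv f) (E : Finset (Vv f × Vv f)) (T : Finset (Fin k → Vv f))
    (Y : Fin t → Fin k → ZMod 2) : 0 ≤ TT Q w E T Y := by
  unfold TT
  refine sum_nonneg fun φ _ => sum_nonneg fun C _ => ?_
  split_ifs
  · exact cntm_nonneg Q w φ C Y
  · exact le_rfl

open Classical in
theorem sum_T (Q : Frm f) (w : Vv f) (E : Finset (Vv f × Vv f)) (P : (Fin t → Fin k → ZMod 2) → Prop)
    (T : Finset (Fin k → Vv f)) :
    ∑ φ ∈ T, ∑ m : Pr k → ZMod 2, Nt Q w E P (φ, m) = ∑ Y ∈ univ.filter P, TT Q w E T Y := by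
  rw [sum_congr rfl fun φ _ => sum_m Q w E P φ, sum_comm]
  rfl

theorem Th_nonneg (Q : Frm f) (E : Finset (Vv f × Vv f)) (t : ℕ) : 0 ≤ Th Q E t := by
  classical
  by_cases hn : Q.n = 0
  · rw [Th_of_zero Q E t hn]
    refine sum_nonneg fun e _ => prod_nonneg fun p _ => ?_
    have := neg_le_chi (Q.B (e p.1.1) (e p.1.2))
    linarith
  · rw [Th_of_ne Q E t hn]
    positivity

/-- the share of the families which are not surjective -/
noncomputable def rho (t k : ℕ) : ℝ := 2 ^ t * (2 ^ t - 1) ^ k / 2 ^ (t * k)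

theorem rho_tendsto (t : ℕ) : Tendsto (fun k => rho t k) atTop (𝓝 0) := by
  have h1 : (fun k => rho t k) = fun k => (2 : ℝ) ^ t * (((2 : ℝ) ^ t - 1) / 2 ^ t) ^ k := by
    funext k
    unfold rho
    rw [div_pow, ← pow_mul, mul_div_assoc]
  rw [h1, ← mul_zero ((2 : ℝ) ^ t)]
  refine Tendsto.const_mul _ (tendsto_pow_atTop_nhds_zero_of_lt_one ?_ ?_)
  · have : (1 : ℝ) ≤ 2 ^ t := one_le_pow₀ (by norm_num)
    exact div_nonneg (by linarith) (by positivity)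
  · rw [div_lt_one (by positivity)]
    linarith

theorem TT_Sj (hk : 0 < k) (Q : Frm f) (w ψ : Vv f) (E : Finset (Vv f × Vv f)) (Y : Fin t → Fin k → ZMod 2)
    (hY : Sj Y) :
    TT Q w E (Fs k ψ) Y = (Om k ψ).card * (2 ^ t * Th Q (Ep Q ψ w E) t / 2 ^ (f * t)) / 2 ^ (t * k) := by
  classical
  have h1 := moment Q w ψ E Y hY
  have h2 : TT Q w E (Fs k ψ) Y * 2 ^ (t * k) * 2 ^ (f * (t + 1)) =
      2 ^ Fintype.card (Pr k) * 2 ^ t * 2 ^ (f * k) * Th Q (Ep Q ψ w E) t := by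
    rw [← h1]
    unfold TT Fs
    congr!
  have h3 := card_Fs hk ψ
  rw [← h3, mul_add, mul_one, pow_add] at h2
  rw [card_Om]
  have e1 : (0 : ℝ) < 2 ^ (t * k) := by positivity
  have e2 : (0 : ℝ) < 2 ^ (f * t) := by positivity
  have e3 : (0 : ℝ) < 2 ^ f := by positivity
  have h4 : TT Q w E (Fs k ψ) Y * 2 ^ (t * k) * 2 ^ (f * t) =
      2 ^ Fintype.card (Pr k) * 2 ^ t * (Fs k ψ).card * Th Q (Ep Q ψ w E) t := by
    refine mul_right_cancel₀ e3.ne' ?_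
    linear_combination h2
  rw [eq_div_iff e1.ne', ← mul_div_assoc, eq_div_iff e2.ne']
  linear_combination h4

theorem TT_Nd (Q : Frm f) (w ψ : Vv f) (E : Finset (Vv f × Vv f)) (Y : Fin t → Fin k → ZMod 2)
    (hY : Nd Y) :
    TT Q w E (Fs k ψ) Y ≤ (Om k ψ).card * (2 ^ (f * t) * 2 ^ (t * 2 ^ t)) / 2 ^ (t * k) := by
  classical
  have h := TY_le Q w E Y hY (Fs k ψ)
  rw [le_div_iff₀ (by positivity), card_Om]
  refine le_trans (le_of_eq ?_) (h.trans (le_of_eq (by ring)))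
  rfl

open Classical in
theorem m_up (hk : 0 < k) (t : ℕ) (Q : Frm f) (w ψ : Vv f) (E : Finset (Vv f × Vv f)) :
    ∑ τ ∈ Om k ψ, Nt Q w E (t := t) Nd τ ≤
      (2 ^ t * Th Q (Ep Q ψ w E) t / 2 ^ (f * t) + rho t k * (2 ^ (f * t) * 2 ^ (t * 2 ^ t))) *
        (Om k ψ).card := by
  rw [sum_Om, sum_T, ← sum_filter_add_sum_filter_not _ (fun Y => Sj Y)]
  set M : ℝ := ((Om k ψ).card : ℝ) with hM
  have hM0 : 0 ≤ M := Nat.cast_nonneg _
  set x : ℝ := 2 ^ t * Th Q (Ep Q ψ w E) t / 2 ^ (f * t) with hx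
  have hx0 : 0 ≤ x := div_nonneg (mul_nonneg (by positivity) (Th_nonneg _ _ _)) (by positivity)
  set z : ℝ := 2 ^ (f * t) * 2 ^ (t * 2 ^ t) with hz
  have hz0 : 0 ≤ z := by positivity
  have hp : (0 : ℝ) < 2 ^ (t * k) := by positivity
  have h1 : ∑ Y ∈ (univ.filter (fun Y : Fin t → Fin k → ZMod 2 => Nd Y)).filter (fun Y => Sj Y),
      TT Q w E (Fs k ψ) Y ≤ x * M := by
    calc _ = ∑ Y ∈ (univ.filter (fun Y : Fin t → Fin k → ZMod 2 => Nd Y)).filter (fun Y => Sj Y),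
          M * x / 2 ^ (t * k) := by
          refine sum_congr rfl fun Y hY => ?_
          rw [mem_filter] at hY
          exact TT_Sj hk Q w ψ E Y hY.2
      _ ≤ ∑ Y : Fin t → Fin k → ZMod 2, M * x / 2 ^ (t * k) :=
          sum_le_sum_of_subset_of_nonneg (subset_univ _) fun _ _ _ => by positivity
      _ = x * M := by
          rw [sum_const, card_univ, Fintype.card_fun, Fintype.card_fun, ZMod.card, Fintype.card_fin,
            Fintype.card_fin, nsmul_eq_mul, ← pow_mul, mul_comm k t]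
          push_cast
          field_simp
  have h2 : ∑ Y ∈ (univ.filter (fun Y : Fin t → Fin k → ZMod 2 => Nd Y)).filter (fun Y => ¬ Sj Y),
      TT Q w E (Fs k ψ) Y ≤ rho t k * z * M := by
    calc _ ≤ ∑ Y ∈ (univ.filter (fun Y : Fin t → Fin k → ZMod 2 => Nd Y)).filter (fun Y => ¬ Sj Y),
          M * z / 2 ^ (t * k) := by
          refine sum_le_sum fun Y hY => ?_
          rw [mem_filter, mem_filter] at hY
          exact TT_Nd Q w ψ E Y hY.1.2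
      _ ≤ ∑ Y ∈ univ.filter (fun Y : Fin t → Fin k → ZMod 2 => ¬ Sj Y), M * z / 2 ^ (t * k) := by
          refine sum_le_sum_of_subset_of_nonneg ?_ fun _ _ _ => by positivity
          intro Y hY
          rw [mem_filter] at hY
          exact mem_filter.2 ⟨mem_univ _, hY.2⟩
      _ = ((univ.filter (fun Y : Fin t → Fin k → ZMod 2 => ¬ Sj Y)).card : ℝ) * (M * z / 2 ^ (t * k)) := by
          rw [sum_const, nsmul_eq_mul]
      _ ≤ (2 ^ t * (2 ^ t - 1) ^ k) * (M * z / 2 ^ (t * k)) :=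
          mul_le_mul_of_nonneg_right card_not_Sj (by positivity)
      _ = rho t k * z * M := by
          unfold rho
          ring
  calc _ ≤ x * M + rho t k * z * M := add_le_add h1 h2
    _ = _ := by ring

open Classical in
theorem m_lo (hk : 0 < k) (t : ℕ) (Q : Frm f) (w ψ : Vv f) (E : Finset (Vv f × Vv f)) :
    (1 - rho t k) * (2 ^ t * Th Q (Ep Q ψ w E) t / 2 ^ (f * t)) * (Om k ψ).card ≤
      ∑ τ ∈ Om k ψ, Nt Q w E (t := t) Sj τ := by
  rw [sum_Om, sum_T]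
  set M : ℝ := ((Om k ψ).card : ℝ) with hM
  have hM0 : 0 ≤ M := Nat.cast_nonneg _
  set x : ℝ := 2 ^ t * Th Q (Ep Q ψ w E) t / 2 ^ (f * t) with hx
  have hx0 : 0 ≤ x := div_nonneg (mul_nonneg (by positivity) (Th_nonneg _ _ _)) (by positivity)
  have hp : (0 : ℝ) < 2 ^ (t * k) := by positivity
  have h1 : ∑ Y ∈ univ.filter (fun Y : Fin t → Fin k → ZMod 2 => Sj Y), TT Q w E (Fs k ψ) Y =
      ((univ.filter (fun Y : Fin t → Fin k → ZMod 2 => Sj Y)).card : ℝ) * (M * x / 2 ^ (t * k)) := by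
    rw [sum_congr rfl fun Y hY => TT_Sj hk Q w ψ E Y (mem_filter.1 hY).2, sum_const, nsmul_eq_mul]
  have h2 : ((univ.filter (fun Y : Fin t → Fin k → ZMod 2 => Sj Y)).card : ℝ) +
      ((univ.filter (fun Y : Fin t → Fin k → ZMod 2 => ¬ Sj Y)).card : ℝ) = 2 ^ (t * k) := by
    have h3 := Finset.card_filter_add_card_filter_not (s := (univ : Finset (Fin t → Fin k → ZMod 2)))
      (fun Y => Sj Y)
    rw [card_univ, Fintype.card_fun, Fintype.card_fun, ZMod.card, Fintype.card_fin,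
      Fintype.card_fin, ← pow_mul, mul_comm k t] at h3
    exact_mod_cast h3
  have h3 := card_not_Sj (t := t) (k := k)
  have h4 : 2 ^ (t * k) - 2 ^ t * (2 ^ t - 1) ^ k ≤
      ((univ.filter (fun Y : Fin t → Fin k → ZMod 2 => Sj Y)).card : ℝ) := by linarith
  have h5 : (0 : ℝ) ≤ M * x / 2 ^ (t * k) := by positivity
  have h6 := mul_le_mul_of_nonneg_right h4 h5
  rw [h1]
  refine le_trans (le_of_eq ?_) h6
  unfold rho
  field_simp

open Classical in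
/-- the exceptional tables -/
theorem exc_le (hk : 0 < k) (Q : Frm f) (w ψ : Vv f) (E : Finset (Vv f × Vv f)) :
    ∑ τ ∈ Om k ψ, (if Exc τ.1 then 1 + Nt Q w E (t := 2) Sj τ / 12 else 0) ≤
      2 ^ f * 2 ^ f / 2 ^ k * (1 + 2 ^ (f * 2) * 2 ^ (2 * 2 ^ 2) / 12) * (Om k ψ).card := by
  rw [sum_Om (k := k) ψ (fun τ => if Exc τ.1 then 1 + Nt Q w E (t := 2) Sj τ / 12 else 0)]
  have h1 : ∀ φ : Fin k → Vv f, ∑ m : Pr k → ZMod 2, (1 + Nt Q w E (t := 2) Sj (φ, m) / 12) ≤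
      2 ^ Fintype.card (Pr k) * (1 + 2 ^ (f * 2) * 2 ^ (2 * 2 ^ 2) / 12) := by
    intro φ
    have h2 := sum_T Q w E (t := 2) (fun Y => Sj Y) {φ}
    rw [sum_singleton] at h2
    have h3 : ∀ Y ∈ univ.filter (fun Y : Fin 2 → Fin k → ZMod 2 => Sj Y), TT Q w E {φ} Y ≤
        2 ^ (f * 2) * (2 ^ Fintype.card (Pr k) * 2 ^ (2 * 2 ^ 2)) / 2 ^ (2 * k) := by
      intro Y hY
      rw [le_div_iff₀ (by positivity)]
      have h4 := TY_le Q w E Y (mem_filter.1 hY).2.nd {φ}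
      rw [card_singleton, Nat.cast_one, one_mul] at h4
      exact h4
    have h5 : ∑ m : Pr k → ZMod 2, Nt Q w E (t := 2) Sj (φ, m) ≤
        2 ^ (f * 2) * (2 ^ Fintype.card (Pr k) * 2 ^ (2 * 2 ^ 2)) := by
      calc _ = _ := h2
        _ ≤ ∑ Y ∈ univ.filter (fun Y : Fin 2 → Fin k → ZMod 2 => Sj Y),
            2 ^ (f * 2) * (2 ^ Fintype.card (Pr k) * 2 ^ (2 * 2 ^ 2)) / 2 ^ (2 * k) := sum_le_sum h3
        _ ≤ ∑ Y : Fin 2 → Fin k → ZMod 2,
            (2 : ℝ) ^ (f * 2) * (2 ^ Fintype.card (Pr k) * 2 ^ (2 * 2 ^ 2)) / 2 ^ (2 * k) :=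
            sum_le_sum_of_subset_of_nonneg (subset_univ _) fun _ _ _ => by positivity
        _ = _ := by
            rw [sum_const, card_univ, Fintype.card_fun, Fintype.card_fun, ZMod.card, Fintype.card_fin,
              Fintype.card_fin, nsmul_eq_mul, ← pow_mul, mul_comm k 2]
            push_cast
            field_simp
    rw [sum_add_distrib, ← sum_div, sum_const, card_univ, Fintype.card_fun, ZMod.card, nsmul_eq_mul, mul_one]
    push_cast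
    have h6 := div_le_div_of_nonneg_right h5 (by norm_num : (0 : ℝ) ≤ 12)
    refine (add_le_add_right h6 _).trans (le_of_eq ?_)
    ring
  have h2 : ∀ φ ∈ Fs k ψ, ∑ m : Pr k → ZMod 2,
      (if Exc ((φ, m) : Tab f k).1 then 1 + Nt Q w E (t := 2) Sj (φ, m) / 12 else 0) ≤
      if Exc φ then 2 ^ Fintype.card (Pr k) * (1 + 2 ^ (f * 2) * 2 ^ (2 * 2 ^ 2) / 12) else 0 := by
    intro φ _
    by_cases hx : Exc φ
    · simp only [if_pos hx]
      exact h1 φ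
    · simp only [if_neg hx, sum_const_zero]
      exact le_rfl
  refine (sum_le_sum h2).trans ?_
  rw [← sum_filter, sum_const, nsmul_eq_mul, card_Om]
  have h3 : (((Fs k ψ).filter (fun φ => Exc φ)).card : ℝ) * 2 ^ k ≤ 2 ^ f * (2 ^ f * (Fs k ψ).card) := by
    have h4 := card_Exc (f := f) (k := k)
    rw [← card_Fs hk ψ] at h4
    have h5 : (((Fs k ψ).filter (fun φ => Exc φ)).card : ℝ) ≤
        (univ.filter (fun φ : Fin k → Vv f => Exc φ)).card := by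
      exact_mod_cast card_le_card (filter_subset_filter _ (subset_univ _))
    calc _ ≤ ((univ.filter (fun φ : Fin k → Vv f => Exc φ)).card : ℝ) * 2 ^ k :=
          mul_le_mul_of_nonneg_right h5 (by positivity)
      _ ≤ _ := h4
      _ = _ := by ring
  have h6 : (((Fs k ψ).filter (fun φ => Exc φ)).card : ℝ) ≤ 2 ^ f * 2 ^ f / 2 ^ k * (Fs k ψ).card := by
    rw [div_mul_eq_mul_div, le_div_iff₀ (by positivity)]
    calc _ ≤ _ := h3
      _ = _ := by ring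
  have h7 := mul_le_mul_of_nonneg_right h6
    (by positivity : (0 : ℝ) ≤ 2 ^ Fintype.card (Pr k) * (1 + 2 ^ (f * 2) * 2 ^ (2 * 2 ^ 2) / 12))
  refine h7.trans (le_of_eq ?_)
  ring

/-- the errors -/
noncomputable def err (f k : ℕ) : ℝ :=
  rho 1 k * (2 ^ (f * 1) * 2 ^ (1 * 2 ^ 1)) / 2 + rho 2 k * 8 / 12 +
    rho 3 k * (2 ^ (f * 3) * 2 ^ (3 * 2 ^ 3)) / 168 +
    2 ^ f * 2 ^ f / 2 ^ k * (1 + 2 ^ (f * 2) * 2 ^ (2 * 2 ^ 2) / 12)

theorem err_tendsto (f : ℕ) : Tendsto (fun k => err f k) atTop (𝓝 0) := by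
  unfold err
  have h1 : Tendsto (fun k : ℕ => (2 : ℝ) ^ f * 2 ^ f / 2 ^ k) atTop (𝓝 0) := by
    have h2 : Tendsto (fun k : ℕ => ((1 : ℝ) / 2) ^ k) atTop (𝓝 0) :=
      tendsto_pow_atTop_nhds_zero_of_lt_one (by norm_num) (by norm_num)
    have h3 := h2.const_mul ((2 : ℝ) ^ f * 2 ^ f)
    rw [mul_zero] at h3
    refine h3.congr fun k => ?_
    rw [div_pow, one_pow]
    ring
  have h4 := (((rho_tendsto 1).mul_const ((2 : ℝ) ^ (f * 1) * 2 ^ (1 * 2 ^ 1))).div_const 2).add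
    (((rho_tendsto 2).mul_const (8 : ℝ)).div_const 12)
  have h5 := (h4.add (((rho_tendsto 3).mul_const ((2 : ℝ) ^ (f * 3) * 2 ^ (3 * 2 ^ 3))).div_const 168)).add
    (h1.mul_const ((1 : ℝ) + 2 ^ (f * 2) * 2 ^ (2 * 2 ^ 2) / 12))
  simpa using h5

theorem cub {x m : ℝ} (hx : 0 ≤ x) (h : x ≤ m) (hm : m ≤ 1) :
    x - x ^ 2 / 3 + x ^ 3 / 21 ≤ m - m ^ 2 / 3 + m ^ 3 / 21 := by
  have h1 : (m - m ^ 2 / 3 + m ^ 3 / 21) - (x - x ^ 2 / 3 + x ^ 3 / 21) =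
      (m - x) * ((1 - (m + x) / 3) + (m ^ 2 + m * x + x ^ 2) / 21) := by ring
  have h2 : 0 ≤ (m - x) * ((1 - (m + x) / 3) + (m ^ 2 + m * x + x ^ 2) / 21) := by
    refine mul_nonneg (by linarith) (add_nonneg (by linarith) ?_)
    have := mul_nonneg (hx.trans h) hx
    positivity
  linarith

open Classical in
/-- **the share of the tables with a nontrivial solution** -/
theorem share (f : ℕ) (ε : ℝ) (hε : 0 < ε) : ∃ k0 : ℕ, 0 < k0 ∧ ∀ k, k0 ≤ k → ∀ (Q : Frm f) (w ψ : Vv f)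
    (E : Finset (Vv f × Vv f)), IsGrp E ψ w → ∀ μ : ℝ, (E.card : ℝ) / 2 ^ f ≤ μ → μ ≤ 1 →
    (((Om k ψ).filter (fun τ => (SolS Q w E τ).card ≠ 2)).card : ℝ) ≤
      (μ - μ ^ 2 / 3 + μ ^ 3 / 21 + ε) * (Om k ψ).card := by
  obtain ⟨k1, hk1⟩ := (eventually_atTop.1 ((err_tendsto f).eventually_lt_const hε))
  refine ⟨k1 + 1, Nat.succ_pos _, fun k hk Q w ψ E hE μ hμ hμ1 => ?_⟩
  have hk0 : 0 < k := by omega
  have herr : err f k < ε := hk1 k (by omega)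
  set M : ℝ := ((Om k ψ).card : ℝ) with hM
  have hM0 : 0 ≤ M := Nat.cast_nonneg _
  -- the pointwise inequality
  have h1 : ∀ τ ∈ Om k ψ, (if (SolS Q w E τ).card ≠ 2 then (1 : ℝ) else 0) ≤
      Nt Q w E (t := 1) Nd τ / 2 - Nt Q w E (t := 2) Sj τ / 12 + Nt Q w E (t := 3) Nd τ / 168 +
        (if Exc τ.1 then 1 + Nt Q w E (t := 2) Sj τ / 12 else 0) := by
    intro τ hτ
    have hτ1 : ∑ j, τ.1 j = ψ := (mem_filter.1 hτ).2
    have p1 := Nt_nonneg Q w E (t := 1) Nd τ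
    have p3 := Nt_nonneg Q w E (t := 3) Nd τ
    by_cases hx : Exc τ.1
    · rw [if_pos hx]
      have : (if (SolS Q w E τ).card ≠ 2 then (1 : ℝ) else 0) ≤ 1 := by split_ifs <;> norm_num
      linarith
    · rw [if_neg hx]
      by_cases hc : (SolS Q w E τ).card = 2
      · rw [if_neg (not_not.2 hc)]
        have h2 := Nt_two_le (Q := Q) (E := E) hk0 hE hτ1
        rw [hc] at h2
        norm_num at h2
        linarith
      · rw [if_pos hc]
        have h2 := pointwise (Q := Q) (E := E) hk0 hE hτ1 hx hc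
        linarith
  have h2 := sum_le_sum h1
  rw [← sum_filter, sum_const, nsmul_eq_mul, mul_one, sum_add_distrib, sum_add_distrib, sum_sub_distrib,
    ← sum_div, ← sum_div, ← sum_div] at h2
  have u1 := m_up hk0 1 Q w ψ E
  have u3 := m_up hk0 3 Q w ψ E
  have l2 := m_lo hk0 2 Q w ψ E
  have x1 := exc_le hk0 Q w ψ E
  rw [← hM] at u1 u3 l2 x1
  -- the group of the classes orthogonal to `d`
  have hadd : ∀ p ∈ Ep Q ψ w E, ∀ q ∈ Ep Q ψ w E, p + q ∈ Ep Q ψ w E := by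
    intro p hp q hq
    rw [mem_Ep] at hp hq ⊢
    exact ⟨hE.add _ hp.1 _ hq.1, by rw [Q.B_add_left, hp.2, hq.2, add_zero]⟩
  have hc1 : ((Ep Q ψ w E).card : ℝ) ≤ E.card := by
    exact_mod_cast card_le_card (filter_subset _ _)
  have hf : (0 : ℝ) < 2 ^ f := by positivity
  have hc2 : (E.card : ℝ) ≤ μ * 2 ^ f := by rwa [div_le_iff₀ hf] at hμ
  have hc3 : ((Ep Q ψ w E).card : ℝ) ≤ 2 ^ f := by
    have : μ * 2 ^ f ≤ 1 * 2 ^ f := mul_le_mul_of_nonneg_right hμ1 hf.le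
    linarith
  have hT := Th_ineq Q (Ep Q ψ w E) hadd hc3
  have hcub := cub (x := ((Ep Q ψ w E).card : ℝ) / 2 ^ f) (m := μ) (by positivity) (by
    rw [div_le_iff₀ hf]; linarith) hμ1
  have hT2 : Th Q (Ep Q ψ w E) 2 / (2 ^ f) ^ 2 ≤ 2 := by
    have h3 := Th_nonneg_le Q (Ep Q ψ w E) 2
    have h4 : Fintype.card (Pr 2) = 1 := by decide
    rw [h4, pow_one] at h3
    rw [div_le_iff₀ (by positivity)]
    have h5 : ((Ep Q ψ w E).card : ℝ) ^ 2 ≤ (2 ^ f) ^ 2 := pow_le_pow_left₀ (Nat.cast_nonneg _) hc3 2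
    linarith
  have r2 : 0 ≤ rho 2 k := by
    unfold rho
    norm_num
    positivity
  -- conclusion
  have e1 : (2 : ℝ) ^ (f * 1) = 2 ^ f := by rw [mul_one]
  have e2 : (2 : ℝ) ^ (f * 2) = (2 ^ f) ^ 2 := by rw [pow_mul]
  have e3 : (2 : ℝ) ^ (f * 3) = (2 ^ f) ^ 3 := by rw [pow_mul]
  set T1 := Th Q (Ep Q ψ w E) 1
  set T2 := Th Q (Ep Q ψ w E) 2
  set T3 := Th Q (Ep Q ψ w E) 3
  have key : M * (2 ^ 1 * T1 / 2 ^ (f * 1) + rho 1 k * (2 ^ (f * 1) * 2 ^ (1 * 2 ^ 1))) / 2 -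
      (1 - rho 2 k) * (2 ^ 2 * T2 / 2 ^ (f * 2)) * M / 12 +
      (2 ^ 3 * T3 / 2 ^ (f * 3) + rho 3 k * (2 ^ (f * 3) * 2 ^ (3 * 2 ^ 3))) * M / 168 +
      2 ^ f * 2 ^ f / 2 ^ k * (1 + 2 ^ (f * 2) * 2 ^ (2 * 2 ^ 2) / 12) * M ≤
      (T1 / 2 ^ f - T2 / (2 ^ f) ^ 2 / 3 + T3 / (2 ^ f) ^ 3 / 21 + err f k) * M := by
    have h3 : rho 2 k * (2 ^ 2 * T2 / 2 ^ (f * 2)) ≤ rho 2 k * 8 := by
      refine mul_le_mul_of_nonneg_left ?_ r2
      rw [e2]
      calc 2 ^ 2 * T2 / (2 ^ f) ^ 2 = 4 * (T2 / (2 ^ f) ^ 2) := by ring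
        _ ≤ 4 * 2 := by linarith
        _ = 8 := by norm_num
    have h4 := mul_le_mul_of_nonneg_right h3 hM0
    unfold err
    have h5 : 2 ^ 1 * T1 / 2 ^ (f * 1) = 2 * (T1 / 2 ^ f) := by rw [e1]; ring
    have h6 : 2 ^ 2 * T2 / 2 ^ (f * 2) = 4 * (T2 / (2 ^ f) ^ 2) := by rw [e2]; ring
    have h7 : 2 ^ 3 * T3 / 2 ^ (f * 3) = 8 * (T3 / (2 ^ f) ^ 3) := by rw [e3]; ring
    rw [h6] at h4
    rw [h5, h6, h7]
    linarith
  calc _ ≤ _ := h2
    _ ≤ M * (2 ^ 1 * T1 / 2 ^ (f * 1) + rho 1 k * (2 ^ (f * 1) * 2 ^ (1 * 2 ^ 1))) / 2 -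
      (1 - rho 2 k) * (2 ^ 2 * T2 / 2 ^ (f * 2)) * M / 12 +
      (2 ^ 3 * T3 / 2 ^ (f * 3) + rho 3 k * (2 ^ (f * 3) * 2 ^ (3 * 2 ^ 3))) * M / 168 +
      2 ^ f * 2 ^ f / 2 ^ k * (1 + 2 ^ (f * 2) * 2 ^ (2 * 2 ^ 2) / 12) * M := by
        linarith
    _ ≤ _ := key
    _ ≤ (μ - μ ^ 2 / 3 + μ ^ 3 / 21 + ε) * M := mul_le_mul_of_nonneg_right (by linarith) hM0

end Pool.Agent.Q7.LM
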