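import Pool.Agent.Q129.LQ.BASE
import Pool.Agent.Q150.LQ.BAS1
import Pool.Agent.Q7.LM.Fin

/-!
# The reciprocity function is a symmetric bilinear form with `g a a = a · n`
-/

set_option autoImplicit false

namespace Pool.Agent.Q7.LM

open NumberField IsDedekindDomain Filter Topology Finset
open Pool.Agent.Q283.LQ Pool.Agent.Q151.LQ
open Pool.Agent.Q129.LQ (sb_zero_iff sb_one_iff sb_mul nod_one lsq_one sb_mon sm_of_dy above_unique
  exists_above fin_above fin_sm inf_symb ap_symm nod_of_one od_of_neg_one val_mon card_sb rec_dep)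

variable {F : Type} [Field F] [NumberField F]

/-- the generators have the exact valuations -/
structure Exv (y : ℕ) (π : HeightOneSpectrum (𝓞 F) → F) : Prop where
  one : ∀ q, ¬ Sm y q → q.valuation F (π q) = WithZero.exp (-1 : ℤ)
  two : ∀ q, ¬ Sm y q → ∀ v : HeightOneSpectrum (𝓞 F), ¬ Sm y v → v ≠ q → v.valuation F (π q) = 1

/-- quadratic reciprocity for one `y` -/
def RecY (F : Type) [Field F] [NumberField F] (y : ℕ) : Prop := ∀ b c : F, b ≠ 0 → c ≠ 0 →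
  (∀ l : ℕ, l.Prime → y < l →
    (∀ v : HeightOneSpectrum (𝓞 F), (l : 𝓞 F) ∈ v.asIdeal → v.valuation F b = 1) ∨
    (∀ v : HeightOneSpectrum (𝓞 F), (l : 𝓞 F) ∈ v.asIdeal → v.valuation F c = 1)) →
  Nn y b →
  Even (Nat.card {v : HeightOneSpectrum (𝓞 F) // ¬ Sm y v ∧ Od v b ∧ ¬ Lsq v c} +
    Nat.card {v : HeightOneSpectrum (𝓞 F) // ¬ Sm y v ∧ Od v c ∧ ¬ Lsq v b})

open Classical in
/-- JOB BASE with exact valuations -/
theorem base2 (hBAS : S_BAS) (hBAS1 : S_BAS1) (hREC : S_REC) (hCHEB : S_CHEB) :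
    ∀ (F : Type) [Field F] [NumberField F], ∃ y0 : ℕ, ∀ y, y0 ≤ y →
      ∃ (f : ℕ) (u r : Fin f → F) (π : HeightOneSpectrum (𝓞 F) → F)
        (g : (Fin f → ZMod 2) → (Fin f → ZMod 2) → ZMod 2), Base y f u r π g ∧
        InfinitePlace.nrRealPlaces F + InfinitePlace.nrComplexPlaces F + nS F y ≤ f ∧
        Exv y π ∧ RecY F y := by
  intro F _ _
  obtain ⟨y1, hy1⟩ := hBAS1 F
  obtain ⟨y2, hy2⟩ := hREC F
  refine ⟨max y1 y2, fun y hy => ?_⟩
  obtain ⟨f, u, r, p, B, hf⟩ := hy1 y (le_trans (le_max_left _ _) hy)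
  have hy2' : y2 ≤ y := le_trans (le_max_right _ _) hy
  choose c hc using B.pcl
  obtain ⟨π, hπ⟩ : ∃ π : HeightOneSpectrum (𝓞 F) → F, ∀ q (hq : ¬ Sm y q), π q = p q * mon u (c q hq) :=
    ⟨fun q => if hq : Sm y q then 1 else p q * mon u (c q hq), fun q hq => dif_neg hq⟩
  have hp0 : ∀ q, ¬ Sm y q → p q ≠ 0 := by
    intro q hq h
    have h1 := (B.pv q hq).1
    rw [h, map_zero] at h1
    exact WithZero.exp_ne_zero h1.symm
  have hπ0 : ∀ q, ¬ Sm y q → π q ≠ 0 := by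
    intro q hq
    rw [hπ q hq]
    exact mul_ne_zero (hp0 q hq) (mon_ne B.ue _)
  have hπ1 : ∀ q, ¬ Sm y q → q.valuation F (π q) = WithZero.exp (-1 : ℤ) := by
    intro q hq
    rw [hπ q hq, map_mul, (B.pv q hq).1, val_mon (fun l => B.uv l q hq), mul_one]
  have hπ2 : ∀ q, ¬ Sm y q → ∀ v : HeightOneSpectrum (𝓞 F), ¬ Sm y v → v ≠ q → v.valuation F (π q) = 1 := by
    intro q hq v hv hvq
    rw [hπ q hq, map_mul, (B.pv q hq).2 v hv hvq, val_mon (fun l => B.uv l v hv), mul_one]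
  have hpc : ∀ q, ¬ Sm y q → Nn y (π q * mon r (fun l => sb q (u l))) := by
    intro q hq
    have h1 := hc q hq
    rw [hπ q hq]
    have h2 : p q * mon u (c q hq) * mon r (fun l => sb q (u l)) =
        p q * mon r (fun l => sb q (u l)) * mon u (c q hq) := by ring
    rw [h2]
    exact h1
  have hdep : ∀ {q1 q2 q' : HeightOneSpectrum (𝓞 F)}, ¬ Sm y q1 → ¬ Sm y q2 → ¬ Sm y q' →
      (fun l => sb q1 (u l)) = (fun l => sb q2 (u l)) → Ap q1 q' → Ap q2 q' →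
      sb q' (π q1) + sb q1 (π q') = sb q' (π q2) + sb q2 (π q') := fun h1 h2 h' hs ha1 ha2 =>
    rec_dep hBAS hy2 hy2' B.two B.re hπ0 hπ1 hπ2 hpc h1 h2 h' hs ha1 ha2
  let Pr : (Fin f → ZMod 2) → (Fin f → ZMod 2) → HeightOneSpectrum (𝓞 F) × HeightOneSpectrum (𝓞 F) → Prop :=
    fun φ φ' z => ¬ Sm y z.1 ∧ ¬ Sm y z.2 ∧ Ap z.1 z.2 ∧ (fun l => sb z.1 (u l)) = φ ∧ (fun l => sb z.2 (u l)) = φ'
  obtain ⟨g, hg⟩ : ∃ g : (Fin f → ZMod 2) → (Fin f → ZMod 2) → ZMod 2, ∀ φ φ', (∃ z, Pr φ φ' z) →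
      ∃ z, Pr φ φ' z ∧ g φ φ' = sb z.2 (π z.1) + sb z.1 (π z.2) := by
    refine ⟨fun φ φ' => if h : ∃ z, Pr φ φ' z then sb h.choose.2 (π h.choose.1) + sb h.choose.1 (π h.choose.2)
      else 0, fun φ φ' h => ⟨h.choose, h.choose_spec, dif_pos h⟩⟩
  refine ⟨f, u, r, π, g, ⟨B.two, B.ue, B.re, ?_, B.ind, B.full, ?_, B.cls, hpc, ?_⟩, hf, ⟨hπ1, hπ2⟩,
    hy2 y hy2'⟩
  · exact fun l v hv => nod_of_one (B.uv l v hv)
  · intro q hq
    refine ⟨hπ0 q hq, fun v hv => ⟨fun h => ?_, ?_⟩⟩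
    · by_contra hvq
      exact nod_of_one (hπ2 q hq v hv hvq) h
    · rintro rfl
      exact od_of_neg_one (hπ1 v hv)
  · intro q q' hq hq' hap
    obtain ⟨⟨q1, q1'⟩, ⟨h1, h1', hap1, hs1, hs1'⟩, hgz⟩ :=
      hg (fun l => sb q (u l)) (fun l => sb q' (u l)) ⟨(q, q'), hq, hq', hap, rfl, rfl⟩
    simp only at h1 h1' hap1 hs1 hs1' hgz
    rw [hgz]
    obtain ⟨q2, hq2, hs2, ha2, ha2'⟩ := Pool.Agent.Q129.LQ.ex_symb hCHEB y B.ue B.ind
      (fun l => sb q (u l)) q' q1'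
    have e1 := hdep hq hq2 hq' hs2.symm hap ha2
    have e2 := hdep h1 hq2 h1' (hs1.trans hs2.symm) hap1 ha2'
    have e3 := hdep h1' hq' hq2 hs1' (ap_symm ha2') (ap_symm ha2)
    rw [e1, e2, add_comm (sb q1' (π q2)), e3, add_comm]

/-- a prime with given symbols, apart from finitely many given primes -/
theorem ex_symb_fin (hC : S_CHEB) (y : ℕ) {f : ℕ} {u : Fin f → F} (hu : ∀ l, u l ≠ 0)
    (hi : ∀ c : Fin f → ZMod 2, IsSquare (mon u c) → c = 0) (φ : Fin f → ZMod 2)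
    (T : Finset (HeightOneSpectrum (𝓞 F))) :
    ∃ v : HeightOneSpectrum (𝓞 F), ¬ Sm y v ∧ (fun i => sb v (u i)) = φ ∧ ∀ q ∈ T, Ap v q := by
  choose l hl hlq using fun q : HeightOneSpectrum (𝓞 F) => exists_above q
  have hfin : ({v : HeightOneSpectrum (𝓞 F) | Sm y v} ∪
      ⋃ q ∈ T, {v | ((l q : ℕ) : 𝓞 F) ∈ v.asIdeal}).Finite := by
    refine (fin_sm y).union ?_
    refine Set.Finite.biUnion (Finset.finite_toSet T) fun q _ => ?_
    exact fin_above (hl q).ne_zero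
  obtain ⟨v, hv, hv'⟩ := ((inf_symb hC hu hi φ).sdiff hfin).nonempty
  simp only [Set.mem_union, Set.mem_iUnion, not_or, not_exists] at hv'
  refine ⟨v, hv'.1, funext hv, fun q hq m hm hmv hmq => ?_⟩
  rw [above_unique hm (hl q) hmq (hlq q)] at hmv
  exact hv'.2 q hq hmv

theorem ne_of_ap {q q' : HeightOneSpectrum (𝓞 F)} (h : Ap q q') : q ≠ q' := by
  rintro rfl
  obtain ⟨l, hl, hlq⟩ := exists_above q
  exact h l hl hlq hlq

/-- reciprocity as an equation -/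
theorem recZ {y : ℕ} (hR : RecY F y) {b c : F} (hb0 : b ≠ 0) (hc0 : c ≠ 0)
    (hcond : ∀ l : ℕ, l.Prime → y < l →
      (∀ v : HeightOneSpectrum (𝓞 F), (l : 𝓞 F) ∈ v.asIdeal → v.valuation F b = 1) ∨
      (∀ v : HeightOneSpectrum (𝓞 F), (l : 𝓞 F) ∈ v.asIdeal → v.valuation F c = 1))
    (hb : Nn y b) (s t : Finset (HeightOneSpectrum (𝓞 F))) (hs : ∀ v, v ∈ s ↔ ¬ Sm y v ∧ Od v b)
    (ht : ∀ v, v ∈ t ↔ ¬ Sm y v ∧ Od v c) : ∑ v ∈ s, sb v c + ∑ v ∈ t, sb v b = 0 := by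
  have h := hR b c hb0 hc0 hcond hb
  have c1 := card_sb s c (fun v => ¬ Sm y v ∧ Od v b ∧ ¬ Lsq v c) (fun v => by rw [hs v, and_assoc])
  have c2 := card_sb t b (fun v => ¬ Sm y v ∧ Od v c ∧ ¬ Lsq v b) (fun v => by rw [ht v, and_assoc])
  rw [← c1, ← c2, ← Nat.cast_add]
  obtain ⟨n, hn⟩ := h
  rw [hn, Nat.cast_add]
  exact add_self _

theorem sm_of_le {y l : ℕ} (hl : l.Prime) (hyl : y < l) {v : HeightOneSpectrum (𝓞 F)}
    (hlv : (l : 𝓞 F) ∈ v.asIdeal) : ¬ Sm y v := by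
  rintro ⟨m, hm, hmy, hmv⟩
  have := above_unique hl hm hlv hmv
  omega

omit [NumberField F] in
theorem lt_of_not_sm {y l : ℕ} (hl : l.Prime) {v : HeightOneSpectrum (𝓞 F)}
    (hlv : (l : 𝓞 F) ∈ v.asIdeal) (hv : ¬ Sm y v) : y < l := by
  by_contra h
  exact hv ⟨l, hl, not_lt.1 h, hlv⟩

/-- integers outside `S` -/
theorem val_nat {v : HeightOneSpectrum (𝓞 F)} {n : ℕ} (h : (n : 𝓞 F) ∉ v.asIdeal) :
    v.valuation F (n : F) = 1 := by
  have h1 : (n : F) = algebraMap (𝓞 F) F (n : 𝓞 F) := by rw [map_natCast]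
  rw [h1]
  refine le_antisymm (v.valuation_le_one _) ?_
  by_contra h2
  exact h ((v.valuation_lt_one_iff_mem _).1 (not_le.1 h2))

theorem val_nat_lt {v : HeightOneSpectrum (𝓞 F)} {n : ℕ} (h : (n : 𝓞 F) ∈ v.asIdeal) :
    v.valuation F (n : F) < 1 := by
  have h1 : (n : F) = algebraMap (𝓞 F) F (n : 𝓞 F) := by rw [map_natCast]
  rw [h1]
  exact (v.valuation_lt_one_iff_mem _).2 h

theorem fact_not_mem {y : ℕ} {v : HeightOneSpectrum (𝓞 F)} (hv : ¬ Sm y v) :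
    ((y.factorial : ℕ) : 𝓞 F) ∉ v.asIdeal := by
  intro h
  obtain ⟨l, hl, hlv⟩ := exists_above v
  have hyl := lt_of_not_sm hl hlv hv
  have hc : Nat.Coprime l y.factorial := by
    rw [hl.coprime_iff_not_dvd]
    intro hd
    exact absurd ((hl.dvd_factorial).1 hd) (not_le.2 hyl)
  obtain ⟨a, b, hab⟩ := Nat.isCoprime_iff_coprime.2 hc
  have h2 : (1 : 𝓞 F) ∈ v.asIdeal := by
    have h3 : ((a * l + b * (y.factorial : ℕ) : ℤ) : 𝓞 F) = 1 := by rw [hab]; simp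
    rw [← h3]
    push_cast
    exact v.asIdeal.add_mem (v.asIdeal.mul_mem_left _ hlv) (v.asIdeal.mul_mem_left _ h)
  exact v.isPrime.ne_top ((Ideal.eq_top_iff_one _).2 h2)

omit [NumberField F] in
theorem fact_mem {y : ℕ} {v : HeightOneSpectrum (𝓞 F)} (hv : Sm y v) :
    ((y.factorial : ℕ) : 𝓞 F) ∈ v.asIdeal := by
  obtain ⟨l, hl, hly, hlv⟩ := hv
  obtain ⟨m, hm⟩ := (hl.dvd_factorial).2 hly
  rw [hm, Nat.cast_mul]
  exact v.asIdeal.mul_mem_right _ hlv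

/-- high powers are small -/
theorem ev_small (v : HeightOneSpectrum (𝓞 F)) {a b : F} (ha : v.valuation F a < 1) (hb : b ≠ 0) :
    ∀ᶠ A : ℕ in atTop, v.valuation F (a ^ A) < v.valuation F b := by
  by_cases ha0 : a = 0
  · filter_upwards [eventually_ge_atTop 1] with A hA
    rw [ha0, zero_pow (by omega), map_zero]
    exact zero_lt_iff.2 ((Valuation.ne_zero_iff _).2 hb)
  · have hv : v.valuation F a ≠ 0 := (Valuation.ne_zero_iff _).2 ha0
    have hw : v.valuation F b ≠ 0 := (Valuation.ne_zero_iff _).2 hb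
    obtain ⟨i, hi⟩ : ∃ i : ℤ, v.valuation F a = WithZero.exp i := ⟨_, (WithZero.exp_log hv).symm⟩
    obtain ⟨j, hj⟩ : ∃ j : ℤ, v.valuation F b = WithZero.exp j := ⟨_, (WithZero.exp_log hw).symm⟩
    have hi0 : i < 0 := by
      rw [hi, ← WithZero.exp_zero, WithZero.exp_lt_exp] at ha
      exact ha
    filter_upwards [eventually_ge_atTop (j.natAbs + 1)] with A hA
    rw [map_pow, hi, hj, ← WithZero.exp_nsmul, WithZero.exp_lt_exp]
    have h1 : (A : ℤ) ≥ j.natAbs + 1 := by exact_mod_cast hA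
    have h2 : (A : ℤ) • i ≤ -(A : ℤ) := by
      rw [smul_eq_mul]
      nlinarith
    have h3 : (A • i : ℤ) = (A : ℤ) • i := by simp
    rw [h3]
    omega

section Form

variable {y f : ℕ} {u r : Fin f → F} {π : HeightOneSpectrum (𝓞 F) → F}
  {g : (Fin f → ZMod 2) → (Fin f → ZMod 2) → ZMod 2}

theorem g_symm (hC : S_CHEB) (B : Base y f u r π g) (φ φ' : Fin f → ZMod 2) : g φ φ' = g φ' φ := by
  obtain ⟨q, hq, hs, -⟩ := ex_symb_fin hC y B.ue B.ind φ ∅
  obtain ⟨q', hq', hs', ha⟩ := ex_symb_fin hC y B.ue B.ind φ' {q}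
  have ha1 := ha q (Finset.mem_singleton_self q)
  have h1 := B.rcp q q' hq hq' (ap_symm ha1)
  have h2 := B.rcp q' q hq' hq ha1
  rw [hs, hs'] at h1 h2
  rw [← h1, ← h2, add_comm]

theorem g_add (hB : S_BAS) (hC : S_CHEB) (B : Base y f u r π g) (X : Exv y π) (hR : RecY F y)
    (φ1 φ2 φ' : Fin f → ZMod 2) : g (φ1 + φ2) φ' = g φ1 φ' + g φ2 φ' := by
  classical
  obtain ⟨q', hq', hs', -⟩ := ex_symb_fin hC y B.ue B.ind φ' ∅
  obtain ⟨q1, hq1, hs1, ha1⟩ := ex_symb_fin hC y B.ue B.ind φ1 {q'}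
  obtain ⟨q2, hq2, hs2, ha2⟩ := ex_symb_fin hC y B.ue B.ind φ2 {q', q1}
  obtain ⟨q3, hq3, hs3, ha3⟩ := ex_symb_fin hC y B.ue B.ind (φ1 + φ2) {q', q1, q2}
  have a1 := ha1 q' (by simp)
  have a2 := ha2 q' (by simp)
  have a3 := ha3 q' (by simp)
  have n21 := ne_of_ap (ha2 q1 (by simp))
  have n31 := ne_of_ap (ha3 q1 (by simp))
  have n32 := ne_of_ap (ha3 q2 (by simp))
  have n1 := ne_of_ap a1
  have n2 := ne_of_ap a2
  have n3 := ne_of_ap a3
  have z1 := (B.po q1 hq1).1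
  have z2 := (B.po q2 hq2).1
  have z3 := (B.po q3 hq3).1
  have z' := (B.po q' hq').1
  have hdy : ¬ Dy q' := fun h => hq' (sm_of_dy B.two h)
  have hb : Nn y (π q1 * π q2 * π q3) := by
    have h1 := B.pc q1 hq1
    have h2 := B.pc q2 hq2
    have h3 := B.pc q3 hq3
    rw [hs1] at h1
    rw [hs2] at h2
    rw [hs3] at h3
    obtain ⟨x, hx, hmx⟩ := mon_mul B.re φ1 φ2
    have h4 := nn_mul hB (nn_mul hB h1 h2) h3
    have h5 : π q1 * mon r φ1 * (π q2 * mon r φ2) * (π q3 * mon r (φ1 + φ2)) =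
        π q1 * π q2 * π q3 * (mon r (φ1 + φ2) * x) ^ 2 := by
      linear_combination (π q1 * π q2 * π q3 * mon r (φ1 + φ2)) * hmx
    rw [h5] at h4
    exact nn_of_mul_sq hB (mul_ne_zero (mon_ne B.re _) hx) h4
  have hb0 : π q1 * π q2 * π q3 ≠ 0 := mul_ne_zero (mul_ne_zero z1 z2) z3
  have hcond : ∀ l : ℕ, l.Prime → y < l →
      (∀ v : HeightOneSpectrum (𝓞 F), (l : 𝓞 F) ∈ v.asIdeal → v.valuation F (π q1 * π q2 * π q3) = 1) ∨
      (∀ v : HeightOneSpectrum (𝓞 F), (l : 𝓞 F) ∈ v.asIdeal → v.valuation F (π q') = 1) := by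
    intro l hl hyl
    by_cases hlq : (l : 𝓞 F) ∈ q'.asIdeal
    · left
      intro v hv
      have hvS := sm_of_le hl hyl hv
      have e1 : v ≠ q1 := by
        rintro rfl
        exact a1 l hl hv hlq
      have e2 : v ≠ q2 := by
        rintro rfl
        exact a2 l hl hv hlq
      have e3 : v ≠ q3 := by
        rintro rfl
        exact a3 l hl hv hlq
      rw [map_mul, map_mul, X.two q1 hq1 v hvS e1, X.two q2 hq2 v hvS e2, X.two q3 hq3 v hvS e3,
        one_mul, one_mul]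
    · right
      intro v hv
      have e1 : v ≠ q' := by
        rintro rfl
        exact hlq hv
      exact X.two q' hq' v (sm_of_le hl hyl hv) e1
  have key := recZ hR hb0 z' hcond hb {q1, q2, q3} {q'} (by
    intro v
    simp only [Finset.mem_insert, Finset.mem_singleton]
    constructor
    · intro h
      have hv : ¬ Sm y v := by
        rcases h with rfl | rfl | rfl
        · exact hq1
        · exact hq2
        · exact hq3
      refine ⟨hv, ?_⟩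
      rw [od_mul hB v (mul_ne_zero z1 z2) z3, od_mul hB v z1 z2, (B.po q1 hq1).2 v hv,
        (B.po q2 hq2).2 v hv, (B.po q3 hq3).2 v hv]
      rcases h with rfl | rfl | rfl
      · have := n21.symm; have := n31.symm; tauto
      · have := n32.symm; tauto
      · tauto
    · rintro ⟨hv, ho⟩
      rw [od_mul hB v (mul_ne_zero z1 z2) z3, od_mul hB v z1 z2, (B.po q1 hq1).2 v hv,
        (B.po q2 hq2).2 v hv, (B.po q3 hq3).2 v hv] at ho
      tauto) (by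
    intro v
    rw [Finset.mem_singleton]
    constructor
    · rintro rfl
      exact ⟨hq', ((B.po v hq').2 v hq').2 rfl⟩
    · rintro ⟨hv, ho⟩
      exact ((B.po q' hq').2 v hv).1 ho)
  have o1 : ¬ Od q' (π q1) := fun h => n1 (((B.po q1 hq1).2 q' hq').1 h).symm
  have o2 : ¬ Od q' (π q2) := fun h => n2 (((B.po q2 hq2).2 q' hq').1 h).symm
  have o3 : ¬ Od q' (π q3) := fun h => n3 (((B.po q3 hq3).2 q' hq').1 h).symm
  have o12 : ¬ Od q' (π q1 * π q2) := by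
    rw [od_mul hB q' z1 z2]
    tauto
  rw [Finset.sum_insert (by simp only [Finset.mem_insert, Finset.mem_singleton]; tauto),
    Finset.sum_pair n32.symm, Finset.sum_singleton, sb_mul hB hdy (mul_ne_zero z1 z2) z3 o12 o3,
    sb_mul hB hdy z1 z2 o1 o2] at key
  have r1 := B.rcp q1 q' hq1 hq' a1
  have r2 := B.rcp q2 q' hq2 hq' a2
  have r3 := B.rcp q3 q' hq3 hq' a3
  rw [hs1, hs'] at r1
  rw [hs2, hs'] at r2
  rw [hs3, hs'] at r3
  rw [← r1, ← r2, ← r3]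
  linear_combination key - add_self (sb q' (π q1)) - add_self (sb q1 (π q')) - add_self (sb q' (π q2)) -
    add_self (sb q2 (π q'))

end Form

end Pool.Agent.Q7.LM
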