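import Pool.Agent.Q198.LQ.ATL
import Pool.Agent.Q7.LM.Rcp

/-!
# The local classes form groups
-/

set_option autoImplicit false

namespace Pool.Agent.Q7.LM

open NumberField IsDedekindDomain Filter Topology Finset
open Pool.Agent.Q283.LQ Pool.Agent.Q151.LQ Pool.Agent.Q198.LQ

section T

variable {K : Type} [Field K]

theorem two_add_ne (h2 : (2 : K) ≠ 0) {x : K} (hx : x ≠ -1) : 2 + 2 * x ≠ 0 := by
  intro h0
  apply hx
  have : 2 * (x + 1) = 0 := by linear_combination h0
  have := (mul_eq_zero.1 this).resolve_left h2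
  linear_combination this

theorem z_zero {D x z : K} (hD : D ≠ 0) (h : x ^ 2 + D * z ^ 2 = 1) (hx : x ^ 2 = 1) : z = 0 := by
  have h5 : D * z ^ 2 = 0 := by linear_combination h - hx
  rcases mul_eq_zero.1 h5 with h6 | h6
  · exact absurd h6 hD
  · exact (pow_eq_zero_iff two_ne_zero).1 h6

/-- multiplication by `(-1, 0)` -/
theorem cl_neg {D x' z' a a' : K} (hD : D ≠ 0) (h2 : (2 : K) ≠ 0)
    (h' : x' ^ 2 + D * z' ^ 2 = 1) (ha : IsSquare (a * D)) (hcl' : Cl D x' a') : Cl D (-x') (a * a') := by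
  obtain ⟨y, hy⟩ := ha
  rcases hcl' with ⟨hx', y', hy'⟩ | ⟨hx', y', hy'⟩
  · have hx0' := two_add_ne h2 hx'
    by_cases h1 : x' = 1
    · right
      refine ⟨by rw [h1], ?_⟩
      rw [h1] at hy'
      refine sq_cancel h2 ⟨y * y', ?_⟩
      calc a * a' * D * 2 ^ 2 = (a * D) * (a' * (2 + 2 * 1)) := by ring
        _ = y * y' * (y * y') := by rw [hy, hy']; ring
    · left
      refine ⟨fun h => h1 (neg_injective h), ?_⟩
      refine sq_cancel (c := D * (2 + 2 * x')) (mul_ne_zero hD hx0') ⟨y * y' * (2 * D * z'), ?_⟩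
      calc a * a' * (2 + 2 * -x') * (D * (2 + 2 * x')) ^ 2 =
          (a * D) * (a' * (2 + 2 * x')) * (D * (4 * (1 - x' ^ 2))) := by ring
        _ = (y * y) * (y' * y') * (D * (4 * (D * z' ^ 2))) := by
            rw [hy, hy']
            linear_combination (-4 * (y * y) * (y' * y') * D) * h'
        _ = y * y' * (2 * D * z') * (y * y' * (2 * D * z')) := by ring
  · left
    have h3 : -x' = 1 := by rw [hx', neg_neg]
    rw [h3]
    refine ⟨fun h => h2 (by linear_combination h), ?_⟩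
    refine sq_cancel (c := D) hD ⟨2 * y * y', ?_⟩
    calc a * a' * (2 + 2 * 1) * D ^ 2 = 4 * (a * D) * (a' * D) := by ring
      _ = 2 * y * y' * (2 * y * y') := by rw [hy, hy']; ring

/-- the class is a homomorphism -/
theorem cl_mul {D : K} (hD : D ≠ 0) (h2 : (2 : K) ≠ 0) {x z x' z' a a' : K}
    (h : x ^ 2 + D * z ^ 2 = 1) (h' : x' ^ 2 + D * z' ^ 2 = 1) (hcl : Cl D x a) (hcl' : Cl D x' a') :
    Cl D (x * x' - D * z * z') (a * a') := by
  rcases hcl with ⟨hx, y, hy⟩ | ⟨hx, hy⟩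
  · rcases hcl' with ⟨hx', y', hy'⟩ | ⟨hx', hy'⟩
    · have hx0 := two_add_ne h2 hx
      have hx0' := two_add_ne h2 hx'
      have hN := Pool.Agent.Q198.LQ.norm_mul h h'
      by_cases hX : x * x' - D * z * z' = -1
      · right
        refine ⟨hX, ?_⟩
        have hZ : x * z' + x' * z = 0 := z_zero hD hN (by rw [hX]; ring)
        have hx'x : x' = -x := by
          linear_combination (-x') * h + x * hX + D * z * hZ
        have hz : z ≠ 0 := by
          rintro rfl
          have h5 : (x - 1) * (x + 1) = 0 := by linear_combination h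
          rcases mul_eq_zero.1 h5 with h6 | h6
          · apply hx'
            rw [hx'x]
            linear_combination -h6
          · apply hx
            linear_combination h6
        refine sq_cancel (c := 2 * z * D) (mul_ne_zero (mul_ne_zero h2 hz) hD) ⟨D * (y * y'), ?_⟩
        calc a * a' * D * (2 * z * D) ^ 2 = D ^ 2 * ((a * a') * (4 * (D * z ^ 2))) := by ring
          _ = D ^ 2 * ((a * a') * (4 * (1 - x ^ 2))) := by
              linear_combination (4 * D ^ 2 * (a * a')) * h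
          _ = D ^ 2 * ((a * (2 + 2 * x)) * (a' * (2 + 2 * x'))) := by rw [hx'x]; ring
          _ = D * (y * y') * (D * (y * y')) := by rw [hy, hy']; ring
      · left
        refine ⟨hX, ?_⟩
        have key : (2 + 2 * x) * (2 + 2 * x') * (2 + 2 * (x * x' - D * z * z')) =
            (2 + 2 * x + 2 * x' + 2 * (x * x' - D * z * z')) ^ 2 := by
          linear_combination (-4 * (1 - x' ^ 2)) * h - 4 * D * z ^ 2 * h'
        refine sq_cancel (c := (2 + 2 * x) * (2 + 2 * x')) (mul_ne_zero hx0 hx0')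
          ⟨y * y' * (2 + 2 * x + 2 * x' + 2 * (x * x' - D * z * z')), ?_⟩
        calc a * a' * (2 + 2 * (x * x' - D * z * z')) * ((2 + 2 * x) * (2 + 2 * x')) ^ 2 =
            (a * (2 + 2 * x)) * (a' * (2 + 2 * x')) *
              ((2 + 2 * x) * (2 + 2 * x') * (2 + 2 * (x * x' - D * z * z'))) := by ring
          _ = _ := by rw [key, hy, hy']; ring
    · have hz' : z' = 0 := z_zero hD h' (by rw [hx']; ring)
      have e1 : x * x' - D * z * z' = -x := by rw [hx', hz']; ring
      rw [e1, mul_comm a a']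
      exact cl_neg hD h2 h hy' (Or.inl ⟨hx, y, hy⟩)
  · have hz : z = 0 := z_zero hD h (by rw [hx]; ring)
    have e1 : x * x' - D * z * z' = -x' := by rw [hx, hz]; ring
    rw [e1]
    exact cl_neg hD h2 h' hy hcl'

/-- torsion points form a group -/
theorem tor_mul {D : K} (hD : D ≠ 0) (c : ℕ) : ∀ x z x' z' : K, x ^ 2 + D * z ^ 2 = 1 →
    x' ^ 2 + D * z' ^ 2 = 1 → (fun t : K => 2 * t ^ 2 - 1)^[c] x = 1 →
    (fun t : K => 2 * t ^ 2 - 1)^[c] x' = 1 →
    (fun t : K => 2 * t ^ 2 - 1)^[c] (x * x' - D * z * z') = 1 := by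
  induction c with
  | zero =>
    intro x z x' z' h h' hx hx'
    simp only [Function.iterate_zero, id_eq] at hx hx' ⊢
    have hz : z = 0 := z_zero hD h (by rw [hx]; ring)
    rw [hx, hx', hz]
    ring
  | succ c ih =>
    intro x z x' z' h h' hx hx'
    rw [Function.iterate_succ_apply] at hx hx' ⊢
    have h1 : (2 * x ^ 2 - 1) ^ 2 + D * (2 * x * z) ^ 2 = 1 := by
      linear_combination (4 * x ^ 2) * h
    have h1' : (2 * x' ^ 2 - 1) ^ 2 + D * (2 * x' * z') ^ 2 = 1 := by
      linear_combination (4 * x' ^ 2) * h'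
    have h3 := ih (2 * x ^ 2 - 1) (2 * x * z) (2 * x' ^ 2 - 1) (2 * x' * z') h1 h1' hx hx'
    have e : 2 * (x * x' - D * z * z') ^ 2 - 1 =
        (2 * x ^ 2 - 1) * (2 * x' ^ 2 - 1) - D * (2 * x * z) * (2 * x' * z') := by
      linear_combination (2 * x' ^ 2 * 0 + 2 * D * z' ^ 2) * h + (2 - 2 * x ^ 2) * h'
    rw [e]
    exact h3

theorem iter_one (c : ℕ) : (fun t : K => 2 * t ^ 2 - 1)^[c] 1 = 1 := by
  induction c with
  | zero => rfl
  | succ c ih =>
    rw [Function.iterate_succ_apply]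
    have : (2 * (1 : K) ^ 2 - 1) = 1 := by ring
    rw [this]
    exact ih

theorem iter_le {x : K} {c c' : ℕ} (hc : c ≤ c') (h : (fun t : K => 2 * t ^ 2 - 1)^[c] x = 1) :
    (fun t : K => 2 * t ^ 2 - 1)^[c'] x = 1 := by
  obtain ⟨d, rfl⟩ := Nat.exists_eq_add_of_le hc
  rw [add_comm, Function.iterate_add_apply, h]
  exact iter_one d

end T

section C

variable {F : Type} [Field F] [NumberField F]

theorem two_ne' (v : HeightOneSpectrum (𝓞 F)) : (2 : v.adicCompletion F) ≠ 0 := by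
  have e : (2 : v.adicCompletion F) = algebraMap F _ 2 := by rw [map_ofNat]
  rw [e]
  exact (map_ne_zero _).2 two_ne_zero

theorem at_one (v : HeightOneSpectrum (𝓞 F)) (D : F) : AT v D 1 := by
  rw [at_iff]
  refine ⟨one_ne_zero, 1, 0, by ring, ⟨0, rfl⟩, Or.inl ⟨?_, ?_⟩⟩
  · intro h
    apply two_ne' v
    linear_combination h
  · rw [map_one]
    exact ⟨2, by ring⟩

theorem at_mul {v : HeightOneSpectrum (𝓞 F)} {D a b : F} (hD : D ≠ 0) (ha : AT v D a) (hb : AT v D b) :
    AT v D (a * b) := by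
  rw [at_iff] at ha hb ⊢
  obtain ⟨ha0, x, z, h, ⟨c, hc⟩, hcl⟩ := ha
  obtain ⟨hb0, x', z', h', ⟨c', hc'⟩, hcl'⟩ := hb
  have hD' : algebraMap F (v.adicCompletion F) D ≠ 0 := (map_ne_zero _).2 hD
  refine ⟨mul_ne_zero ha0 hb0, _, _, Pool.Agent.Q198.LQ.norm_mul h h', ⟨max c c', ?_⟩, ?_⟩
  · exact tor_mul hD' _ x z x' z' h h' (iter_le (le_max_left _ _) hc) (iter_le (le_max_right _ _) hc')
  · rw [map_mul]
    exact cl_mul hD' (two_ne' v) h h' hcl hcl'

theorem au_iff (v : HeightOneSpectrum (𝓞 F)) (D a : F) : AU v D a ↔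
    a ≠ 0 ∧ ∃ x z : v.adicCompletion F, x ^ 2 + algebraMap F _ D * z ^ 2 = 1 ∧
    2 * x ∈ v.adicCompletionIntegers F ∧ Cl (algebraMap F _ D) x (algebraMap F _ a) := by
  unfold AU Cl
  simp only [coe_eq]

theorem au_one (v : HeightOneSpectrum (𝓞 F)) (D : F) : AU v D 1 := by
  rw [au_iff]
  refine ⟨one_ne_zero, 1, 0, by ring, ?_, Or.inl ⟨?_, ?_⟩⟩
  · rw [mul_one]
    have : (2 : v.adicCompletion F) = 1 + 1 := by norm_num
    rw [this]
    exact add_mem (one_mem _) (one_mem _)
  · intro h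
    apply two_ne' v
    linear_combination h
  · rw [map_one]
    exact ⟨2, by ring⟩

/-- a root of a monic quadratic polynomial with integral coefficients is integral -/
theorem int_of_quad {v : HeightOneSpectrum (𝓞 F)} {b c X : v.adicCompletion F}
    (hb : b ∈ v.adicCompletionIntegers F) (hc : c ∈ v.adicCompletionIntegers F)
    (h : X ^ 2 = b * X + c) : X ∈ v.adicCompletionIntegers F := by
  by_contra hX
  have hX0 : X ≠ 0 := by
    rintro rfl
    exact hX (zero_mem _)
  have h1 : X⁻¹ ∈ v.adicCompletionIntegers F :=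
    ((v.adicCompletionIntegers F).mem_or_inv_mem X).resolve_left hX
  apply hX
  have h2 : X = b + c * X⁻¹ := by
    field_simp
    linear_combination h
  rw [h2]
  exact add_mem hb (mul_mem hc h1)

theorem au_mul {v : HeightOneSpectrum (𝓞 F)} {D a b : F} (hD : D ≠ 0) (ha : AU v D a) (hb : AU v D b) :
    AU v D (a * b) := by
  rw [au_iff] at ha hb ⊢
  obtain ⟨ha0, x, z, h, hi, hcl⟩ := ha
  obtain ⟨hb0, x', z', h', hi', hcl'⟩ := hb
  have hD' : algebraMap F (v.adicCompletion F) D ≠ 0 := (map_ne_zero _).2 hD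
  refine ⟨mul_ne_zero ha0 hb0, _, _, Pool.Agent.Q198.LQ.norm_mul h h', ?_, ?_⟩
  · have h4 : (4 : v.adicCompletion F) ∈ v.adicCompletionIntegers F := by
      have : (4 : v.adicCompletion F) = 1 + 1 + 1 + 1 := by norm_num
      rw [this]
      exact add_mem (add_mem (add_mem (one_mem _) (one_mem _)) (one_mem _)) (one_mem _)
    refine int_of_quad (b := (2 * x) * (2 * x')) (c := 4 - (2 * x) * (2 * x) - (2 * x') * (2 * x'))
      (mul_mem hi hi') (sub_mem (sub_mem h4 (mul_mem hi hi)) (mul_mem hi' hi')) ?_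
    linear_combination (4 * (1 - x' ^ 2)) * h + 4 * algebraMap F _ D * z ^ 2 * h'
  · rw [map_mul]
    exact cl_mul hD' (two_ne' v) h h' hcl hcl'

/-- the local conditions form groups -/
structure LocG (A : HeightOneSpectrum (𝓞 F) → F → F → Prop) : Prop where
  one : ∀ v D, Dy v → D ≠ 0 → A v D 1
  mulc : ∀ v D a b, Dy v → D ≠ 0 → A v D a → A v D b → A v D (a * b)

theorem locG_AI (I : Ideal (𝓞 F)) : LocG (AI I) where
  one := fun v D _ _ => ⟨fun _ => at_one v D, fun _ => au_one v D⟩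
  mulc := fun _ _ _ _ _ hD ha hb =>
    ⟨fun h => at_mul hD (ha.1 h) (hb.1 h), fun h => au_mul hD (ha.2 h) (hb.2 h)⟩

/-- the local conditions at `S` define a group -/
theorem condS_mul (hB : S_BAS) {A : HeightOneSpectrum (𝓞 F) → F → F → Prop} (hG : LocG A) {y : ℕ}
    {D a b : F} (hD : D ≠ 0) (ha : CondS A y D a) (hb : CondS A y D b) : CondS A y D (a * b) where
  ne := mul_ne_zero ha.ne hb.ne
  even := by
    intro v hv hdy ho
    rw [od_mul hB v ha.ne hb.ne]
    have h1 := ha.even v hv hdy ho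
    have h2 := hb.even v hv hdy ho
    tauto
  odd := by
    intro v hv hdy ho
    rcases ha.odd v hv hdy ho with h1 | h1 <;> rcases hb.odd v hv hdy ho with h2 | h2
    · exact Or.inl (lsq_mul hB h1 h2)
    · right
      have h3 := lsq_mul hB h1 h2
      rwa [← mul_assoc] at h3
    · right
      have h3 := lsq_mul hB h1 h2
      have e : a * D * b = a * b * D := by ring
      rwa [e] at h3
    · left
      have h3 := lsq_mul hB h1 h2
      have e : a * D * (b * D) = a * b * D ^ 2 := by ring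
      rw [e] at h3
      exact lsq_of_mul_sq hB hD h3
  two := fun v hv => hG.mulc v D a b hv hD (ha.two v hv) (hb.two v hv)
  real := fun φ h => by
    rw [map_mul]
    exact mul_pos (ha.real φ h) (hb.real φ h)

theorem condS_self (hB : S_BAS) {A : HeightOneSpectrum (𝓞 F) → F → F → Prop}
    {c : HeightOneSpectrum (𝓞 F) → ℕ} (hA : Loc A c) (hG : LocG A) {y : ℕ}
    {D : F} (hD : D ≠ 0) : CondS A y D D where
  ne := hD
  even := fun _ _ _ ho => ho
  odd := fun v _ _ _ => Or.inr (by rw [← pow_two]; exact lsq_sq hB v hD)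
  two := fun v hv => by
    have := hA.clo v D 1 hv hD (hG.one v D hv hD)
    rwa [one_mul] at this
  real := fun _ h => h

open Classical in
/-- the group of the classes -/
theorem exists_E (hB : S_BAS) (hEE : S_EE) {y f : ℕ} {u r : Fin f → F} {π : HeightOneSpectrum (𝓞 F) → F}
    {g : (Fin f → ZMod 2) → (Fin f → ZMod 2) → ZMod 2} (B : Base y f u r π g)
    (hf : InfinitePlace.nrRealPlaces F + InfinitePlace.nrComplexPlaces F + nS F y ≤ f)
    (hfin : {v : HeightOneSpectrum (𝓞 F) | Sm y v}.Finite)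
    {A : HeightOneSpectrum (𝓞 F) → F → F → Prop} {c : HeightOneSpectrum (𝓞 F) → ℕ} (hA : Loc A c)
    (hG : LocG A) {D0 : F} (hD0 : D0 ≠ 0) {ψ w : Fin f → ZMod 2} (hcls : Nn y (D0 * mon r ψ * mon u w)) :
    ∃ E : Finset (Vv f × Vv f), IsGrp E ψ w ∧
      (∀ a p, CondS A y D0 a → Nn y (a * mon r p.1 * mon u p.2) → p ∈ E) ∧
      (E.card : ℝ) / 2 ^ f ≤ 2 ^ (∑ᶠ v, c v) * (1 / 2 : ℝ) ^ ex D0 := by
  obtain ⟨E, hE1, hE2⟩ := hEE F y f u r π g B hf hfin A c hA D0 hD0
  refine ⟨E.filter (fun p => ∃ a, CondS A y D0 a ∧ Nn y (a * mon r p.1 * mon u p.2)), ⟨?_, ?_⟩, ?_, ?_⟩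
  · intro p hp p' hp'
    rw [Finset.mem_filter] at hp hp' ⊢
    obtain ⟨-, a, ha, hn⟩ := hp
    obtain ⟨-, a', ha', hn'⟩ := hp'
    have h1 := condS_mul hB hG hD0 ha ha'
    obtain ⟨x, hx, e1⟩ := mon_mul B.re p.1 p'.1
    obtain ⟨x', hx', e2⟩ := mon_mul B.ue p.2 p'.2
    have h2 : Nn y (a * a' * mon r (p + p').1 * mon u (p + p').2) := by
      have h3 := nn_mul hB hn hn'
      have e : a * mon r p.1 * mon u p.2 * (a' * mon r p'.1 * mon u p'.2) =
          a * a' * mon r (p.1 + p'.1) * mon u (p.2 + p'.2) * (x * x') ^ 2 := by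
        calc a * mon r p.1 * mon u p.2 * (a' * mon r p'.1 * mon u p'.2) =
            a * a' * (mon r p.1 * mon r p'.1) * (mon u p.2 * mon u p'.2) := by ring
          _ = _ := by rw [e1, e2]; ring
      rw [e] at h3
      exact nn_of_mul_sq hB (mul_ne_zero hx hx') h3
    exact ⟨hE1 _ _ h1 h2, _, h1, h2⟩
  · rw [Finset.mem_filter]
    have h1 := condS_self hB (y := y) hA hG hD0
    exact ⟨hE1 _ _ h1 hcls, _, h1, hcls⟩
  · intro a p h1 h2
    rw [Finset.mem_filter]
    exact ⟨hE1 a p h1 h2, a, h1, h2⟩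
  · refine le_trans ?_ hE2
    refine div_le_div_of_nonneg_right ?_ (by positivity)
    exact_mod_cast Finset.card_le_card (Finset.filter_subset _ _)

end C

end Pool.Agent.Q7.LM
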