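import Pool.Agent.Q7.LM.Fin

/-!
# The share of the tables with many solutions
-/

set_option autoImplicit false

namespace Pool.Agent.Q7.LM

open Finset Pool.Agent.Q283.LQ Filter Topology

variable {f k t : ℕ}

section Cnt

variable {A : Type*} [AddCommGroup A] [Module (ZMod 2) A] [DecidableEq A]

/-- the elements are linearly independent modulo `D` -/
def Id (D : A) (a : Fin t → A) : Prop :=
  ∀ v : Fin t → ZMod 2, v ≠ 0 → ∑ s, v s • a s ≠ 0 ∧ ∑ s, v s • a s ≠ D

open Classical in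
theorem cnt_ge (S : Finset A) (D : A) : ∀ t : ℕ, (2 : ℝ) ^ t ≤ S.card →
    ∏ i ∈ range t, ((S.card : ℝ) - 2 ^ (i + 1)) ≤
      ∑ a ∈ Fintype.piFinset (fun _ : Fin t => S), if Id D a then (1 : ℝ) else 0
  | 0, _ => by
    rw [prod_range_zero, sum_pi_zero, if_pos]
    intro v hv
    exact absurd (Subsingleton.elim v 0) hv
  | t + 1, ht => by
    have ht' : (2 : ℝ) ^ t ≤ S.card := le_trans (pow_le_pow_right₀ one_le_two (Nat.le_succ t)) ht
    have ih := cnt_ge S D t ht'
    rw [prod_range_succ, sum_pi_succ, sum_comm]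
    have h1 : ∀ b ∈ Fintype.piFinset (fun _ : Fin t => S),
        (if Id D b then (1 : ℝ) else 0) * ((S.card : ℝ) - 2 ^ (t + 1)) ≤
          ∑ x ∈ S, if Id D (Fin.cons x b : Fin (t + 1) → A) then (1 : ℝ) else 0 := by
      intro b _
      by_cases hb : Id D b
      · rw [if_pos hb, one_mul]
        set T : Finset A := univ.image (fun p : (Fin t → ZMod 2) × ZMod 2 => ∑ s, p.1 s • b s + p.2 • D) with hT
        have hTc : T.card ≤ 2 ^ (t + 1) := by
          refine (card_image_le).trans (le_of_eq ?_)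
          rw [card_univ, Fintype.card_prod, Fintype.card_fun, ZMod.card, Fintype.card_fin, pow_succ]
        have h2 : ∀ x ∈ S \ T, Id D (Fin.cons x b : Fin (t + 1) → A) := by
          intro x hx v hv
          rw [Finset.mem_sdiff] at hx
          rw [Fin.sum_univ_succ]
          simp only [Fin.cons_zero, Fin.cons_succ]
          rcases z2 (v 0) with h0 | h0
          · rw [h0, zero_smul, zero_add]
            refine hb (fun s => v s.succ) fun h => hv ?_
            funext s
            refine Fin.cases h0 (fun s => ?_) s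
            exact congrFun h s
          · rw [h0, one_smul]
            have hneg : ∀ z : A, -z = z := fun z => by
              have : z + z = 0 := by
                rw [← two_smul (ZMod 2) z]
                have h2 : (2 : ZMod 2) = 0 := rfl
                rw [h2, zero_smul]
              exact neg_eq_of_add_eq_zero_left this
            refine ⟨fun h => hx.2 ?_, fun h => hx.2 ?_⟩
            · rw [hT, mem_image]
              refine ⟨(fun s => v s.succ, 0), mem_univ _, ?_⟩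
              rw [zero_smul, add_zero]
              have := eq_neg_of_add_eq_zero_left h
              rw [this, hneg]
            · rw [hT, mem_image]
              refine ⟨(fun s => v s.succ, 1), mem_univ _, ?_⟩
              rw [one_smul, ← h]
              change ∑ s, v s.succ • b s + (x + ∑ s, v s.succ • b s) = x
              rw [add_left_comm]
              nth_rewrite 1 [← hneg (∑ s, v s.succ • b s)]
              rw [neg_add_cancel, add_zero]
        calc (S.card : ℝ) - 2 ^ (t + 1) ≤ ((S \ T).card : ℝ) := by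
              have h3 := Finset.le_card_sdiff T S
              have h4 : S.card ≤ (S \ T).card + 2 ^ (t + 1) := by omega
              have : (S.card : ℝ) ≤ ((S \ T).card : ℝ) + 2 ^ (t + 1) := by exact_mod_cast h4
              linarith
          _ = ∑ x ∈ S \ T, if Id D (Fin.cons x b : Fin (t + 1) → A) then (1 : ℝ) else 0 := by
              rw [sum_congr rfl fun x hx => if_pos (h2 x hx), sum_const, nsmul_eq_mul, mul_one]
          _ ≤ _ := sum_le_sum_of_subset_of_nonneg sdiff_subset fun x _ _ => by split_ifs <;> norm_num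
      · rw [if_neg hb, zero_mul]
        exact sum_nonneg fun x _ => by split_ifs <;> norm_num
    refine le_trans ?_ (sum_le_sum h1)
    rw [← sum_mul]
    exact mul_le_mul_of_nonneg_right ih (by linarith)

end Cnt

/-- the number of the ordered families for `t` dimensions -/
noncomputable def cc (t : ℕ) : ℝ := ∏ i ∈ range t, ((2 : ℝ) ^ (i + 1) - 1)

theorem cc_pos (t : ℕ) : 0 < cc t := by
  unfold cc
  refine prod_pos fun i _ => ?_
  have : (2 : ℝ) ^ 1 ≤ 2 ^ (i + 1) := pow_le_pow_right₀ one_le_two (by omega)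
  linarith

theorem card_Pr (t : ℕ) : Fintype.card (Pr t) = t * (t - 1) / 2 := by
  have h1 : (univ.filter fun p : Fin t × Fin t => p.1 < p.2).card =
      (univ.filter fun p : Fin t × Fin t => p.2 < p.1).card := by
    refine Finset.card_bij (fun p _ => (p.2, p.1)) (fun p hp => ?_) (fun p _ p' _ h => ?_)
      fun p hp => ?_
    · rw [Finset.mem_filter] at hp ⊢
      exact ⟨Finset.mem_univ _, hp.2⟩
    · rw [Prod.mk.injEq] at h
      exact Prod.ext h.2 h.1
    · rw [Finset.mem_filter] at hp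
      exact ⟨(p.2, p.1), by rw [Finset.mem_filter]; exact ⟨Finset.mem_univ _, hp.2⟩, rfl⟩
  have h2 : (univ : Finset (Fin t)).offDiag =
      (univ.filter fun p : Fin t × Fin t => p.1 < p.2) ∪
        (univ.filter fun p : Fin t × Fin t => p.2 < p.1) := by
    ext p
    simp only [Finset.mem_offDiag, Finset.mem_univ, true_and, Finset.mem_union, Finset.mem_filter]
    exact ne_iff_lt_or_gt
  have h3 : Disjoint (univ.filter fun p : Fin t × Fin t => p.1 < p.2)
      (univ.filter fun p : Fin t × Fin t => p.2 < p.1) := by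
    rw [Finset.disjoint_filter]
    intro p _ h h'
    exact lt_asymm h h'
  have h4 := Finset.offDiag_card (univ : Finset (Fin t))
  rw [h2, Finset.card_union_of_disjoint h3, ← h1, Finset.card_univ, Fintype.card_fin] at h4
  rw [Fintype.card_subtype]
  have h5 : t * t - t = t * (t - 1) := by
    rw [Nat.mul_sub, mul_one]
  omega

/-- the product for `2 ^ (t + 1)` elements -/
theorem prod_two (t : ℕ) : ∏ i ∈ range t, ((2 : ℝ) ^ (t + 1) - 2 ^ (i + 1)) =
    2 ^ t * 2 ^ Fintype.card (Pr t) * cc t := by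
  have h1 : ∏ i ∈ range t, ((2 : ℝ) ^ (t + 1) - 2 ^ (i + 1)) =
      (∏ i ∈ range t, (2 : ℝ) ^ (i + 1)) * ∏ i ∈ range t, ((2 : ℝ) ^ (t - i) - 1) := by
    rw [← prod_mul_distrib]
    refine prod_congr rfl fun i hi => ?_
    have h2 : t + 1 = (i + 1) + (t - i) := by
      have := mem_range.1 hi
      omega
    rw [mul_sub, mul_one, ← pow_add, ← h2]
  have h2 : ∏ i ∈ range t, ((2 : ℝ) ^ (t - i) - 1) = cc t := by
    unfold cc
    rw [← prod_range_reflect]
    refine prod_congr rfl fun i hi => ?_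
    have := mem_range.1 hi
    congr 2
    omega
  have h3 : ∏ i ∈ range t, (2 : ℝ) ^ (i + 1) = 2 ^ t * 2 ^ Fintype.card (Pr t) := by
    rw [prod_pow_eq_pow_sum, sum_add_distrib, sum_const, card_range, smul_eq_mul, mul_one,
      sum_range_id, card_Pr, ← pow_add, add_comm]
  rw [h1, h2, h3]

/-- the lower bound for the number of the families -/
theorem Nt_ge {Q : Frm f} {ψ w : Vv f} {E : Finset (Vv f × Vv f)} {τ : Tab f k}
    (hE : IsGrp E ψ w) (hτ : ∑ j, τ.1 j = ψ) (hx : ¬ Exc τ.1) (t : ℕ)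
    (hM : (2 : ℝ) ^ (t + 1) ≤ (SolS Q w E τ).card) :
    2 ^ t * 2 ^ Fintype.card (Pr t) * cc t ≤ Nt Q w E (t := t) Nd τ := by
  classical
  have h1 := cnt_ge (SolS Q w E τ) ((w, fun _ => 1) : Vv f × (Fin k → ZMod 2)) t
    (le_trans (pow_le_pow_right₀ one_le_two (Nat.le_succ t)) hM)
  have h2 : ∏ i ∈ range t, ((2 : ℝ) ^ (t + 1) - 2 ^ (i + 1)) ≤
      ∏ i ∈ range t, (((SolS Q w E τ).card : ℝ) - 2 ^ (i + 1)) := by
    refine prod_le_prod (fun i hi => ?_) fun i _ => by linarith
    have h3 : (2 : ℝ) ^ (i + 1) ≤ 2 ^ (t + 1) := pow_le_pow_right₀ one_le_two (by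
      have := mem_range.1 hi
      omega)
    linarith
  rw [prod_two] at h2
  refine (h2.trans h1).trans ?_
  unfold Nt
  refine sum_le_sum fun a ha => ?_
  by_cases hI : Id ((w, fun _ => 1) : Vv f × (Fin k → ZMod 2)) a
  · rw [if_pos hI, if_pos]
    exact nd_of hE hτ hx a (fun s => Fintype.mem_piFinset.1 ha s) hI
  · rw [if_neg hI]
    split_ifs <;> norm_num

theorem cc_tendsto (M : ℝ) : Tendsto (fun t => M ^ t / cc t) atTop (𝓝 0) := by
  have h1 : ∀ t, (t.factorial : ℝ) ≤ cc t := by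
    intro t
    unfold cc
    rw [← prod_range_add_one_eq_factorial]
    push_cast
    refine prod_le_prod (fun i _ => by positivity) fun i _ => ?_
    have h2 : i + 1 < 2 ^ (i + 1) := Nat.lt_two_pow_self
    have h3 : ((i + 1 + 1 : ℕ) : ℝ) ≤ ((2 ^ (i + 1) : ℕ) : ℝ) := by exact_mod_cast h2
    push_cast at h3
    linarith
  have h2 := FloorSemiring.tendsto_pow_div_factorial_atTop |M|
  refine squeeze_zero_norm (fun t => ?_) h2
  rw [norm_div, Real.norm_eq_abs, Real.norm_eq_abs, abs_pow, abs_of_pos (cc_pos t)]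
  exact div_le_div_of_nonneg_left (by positivity) (by positivity) (h1 t)

open Classical in
/-- the bound for one `t` -/
theorem share_one (hk : 0 < k) (t : ℕ) (Q : Frm f) (w ψ : Vv f) (E : Finset (Vv f × Vv f))
    (hE : IsGrp E ψ w) (μ : ℝ) (hμ : (E.card : ℝ) / 2 ^ f ≤ μ) :
    (((Om k ψ).filter (fun τ => 2 ^ (t + 1) ≤ (SolS Q w E τ).card)).card : ℝ) ≤
      (μ ^ t / cc t + (rho t k * (2 ^ (f * t) * 2 ^ (t * 2 ^ t)) / (2 ^ t * 2 ^ Fintype.card (Pr t) * cc t) +
        2 ^ f * 2 ^ f / 2 ^ k)) * (Om k ψ).card := by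
  have hcc := cc_pos t
  set K : ℝ := 2 ^ t * 2 ^ Fintype.card (Pr t) * cc t with hK
  have hK0 : 0 < K := by positivity
  set M : ℝ := ((Om k ψ).card : ℝ) with hM
  have hM0 : 0 ≤ M := Nat.cast_nonneg _
  have h1 : ∀ τ ∈ Om k ψ, (if 2 ^ (t + 1) ≤ (SolS Q w E τ).card then (1 : ℝ) else 0) ≤
      Nt Q w E (t := t) Nd τ / K + if Exc τ.1 then 1 else 0 := by
    intro τ hτ
    have hτ1 : ∑ j, τ.1 j = ψ := (mem_filter.1 hτ).2
    have p1 := Nt_nonneg Q w E (t := t) Nd τ
    have p2 : 0 ≤ Nt Q w E (t := t) Nd τ / K := div_nonneg p1 hK0.le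
    by_cases hx : Exc τ.1
    · rw [if_pos hx]
      have : (if 2 ^ (t + 1) ≤ (SolS Q w E τ).card then (1 : ℝ) else 0) ≤ 1 := by split_ifs <;> norm_num
      linarith
    · rw [if_neg hx, add_zero]
      by_cases hc : 2 ^ (t + 1) ≤ (SolS Q w E τ).card
      · rw [if_pos hc, le_div_iff₀ hK0, one_mul]
        exact Nt_ge hE hτ1 hx t (by exact_mod_cast hc)
      · rw [if_neg hc]
        exact p2
  have h2 := sum_le_sum h1
  rw [← sum_filter, sum_const, nsmul_eq_mul, mul_one, sum_add_distrib, ← sum_div] at h2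
  have h3 := m_up hk t Q w ψ E
  rw [← hM] at h3
  -- the exceptional tables
  have h4 : ∑ τ ∈ Om k ψ, (if Exc τ.1 then (1 : ℝ) else 0) ≤ 2 ^ f * 2 ^ f / 2 ^ k * M := by
    rw [sum_Om (k := k) ψ (fun τ => if Exc τ.1 then (1 : ℝ) else 0)]
    have e1 : ∑ φ ∈ Fs k ψ, ∑ _m : Pr k → ZMod 2, (if Exc φ then (1 : ℝ) else 0) =
        (((Fs k ψ).filter (fun φ => Exc φ)).card : ℝ) * 2 ^ Fintype.card (Pr k) := by
      have e0 : ∀ φ : Fin k → Vv f, ∑ _m : Pr k → ZMod 2, (if Exc φ then (1 : ℝ) else 0) =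
          (if Exc φ then 1 else 0) * 2 ^ Fintype.card (Pr k) := by
        intro φ
        rw [sum_const, card_univ, Fintype.card_fun, ZMod.card, nsmul_eq_mul, mul_comm]
        push_cast
        rfl
      rw [sum_congr rfl fun φ _ => e0 φ, ← sum_mul, ← sum_filter, sum_const, nsmul_eq_mul, mul_one]
    change ∑ φ ∈ Fs k ψ, ∑ _m : Pr k → ZMod 2, (if Exc φ then (1 : ℝ) else 0) ≤ _
    rw [e1, hM, card_Om]
    have h5 : (((Fs k ψ).filter (fun φ => Exc φ)).card : ℝ) * 2 ^ k ≤ 2 ^ f * (2 ^ f * (Fs k ψ).card) := by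
      have h4 := card_Exc (f := f) (k := k)
      rw [← card_Fs hk ψ] at h4
      have h5 : (((Fs k ψ).filter (fun φ => Exc φ)).card : ℝ) ≤
          (univ.filter (fun φ : Fin k → Vv f => Exc φ)).card := by
        exact_mod_cast card_le_card (filter_subset_filter _ (subset_univ _))
      calc _ ≤ ((univ.filter (fun φ : Fin k → Vv f => Exc φ)).card : ℝ) * 2 ^ k :=
            mul_le_mul_of_nonneg_right h5 (by positivity)
        _ ≤ _ := h4
        _ = _ := by ring
    have h6 : (((Fs k ψ).filter (fun φ => Exc φ)).card : ℝ) ≤ 2 ^ f * 2 ^ f / 2 ^ k * (Fs k ψ).card := by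
      rw [div_mul_eq_mul_div, le_div_iff₀ (by positivity)]
      calc _ ≤ _ := h5
        _ = _ := by ring
    have h7 := mul_le_mul_of_nonneg_right h6 (by positivity : (0 : ℝ) ≤ 2 ^ Fintype.card (Pr k))
    refine h7.trans (le_of_eq ?_)
    ring
  -- the main term
  have hf : (0 : ℝ) < 2 ^ f := by positivity
  have h5 : 2 ^ t * Th Q (Ep Q ψ w E) t / 2 ^ (f * t) ≤ μ ^ t / cc t * K := by
    have h6 := Th_nonneg_le Q (Ep Q ψ w E) t
    have h7 : ((Ep Q ψ w E).card : ℝ) ≤ μ * 2 ^ f := by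
      have h8 : ((Ep Q ψ w E).card : ℝ) ≤ E.card := by
        exact_mod_cast card_le_card (filter_subset _ _)
      rw [div_le_iff₀ hf] at hμ
      linarith
    have h9 : ((Ep Q ψ w E).card : ℝ) ^ t ≤ (μ * 2 ^ f) ^ t := pow_le_pow_left₀ (Nat.cast_nonneg _) h7 t
    rw [div_le_iff₀ (by positivity), pow_mul]
    have e1 : μ ^ t / cc t * K * (2 ^ f) ^ t = 2 ^ t * ((μ * 2 ^ f) ^ t * 2 ^ Fintype.card (Pr t)) := by
      rw [hK, mul_pow]
      field_simp
    rw [e1]
    refine mul_le_mul_of_nonneg_left (h6.trans ?_) (by positivity)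
    exact mul_le_mul_of_nonneg_right h9 (by positivity)
  refine h2.trans ?_
  have h6 : (∑ τ ∈ Om k ψ, Nt Q w E (t := t) Nd τ) / K ≤
      (μ ^ t / cc t + rho t k * (2 ^ (f * t) * 2 ^ (t * 2 ^ t)) / K) * M := by
    rw [div_le_iff₀ hK0]
    refine h3.trans ?_
    have e1 : (μ ^ t / cc t + rho t k * (2 ^ (f * t) * 2 ^ (t * 2 ^ t)) / K) * M * K =
        (μ ^ t / cc t * K + rho t k * (2 ^ (f * t) * 2 ^ (t * 2 ^ t))) * M := by
      field_simp
    rw [e1]
    exact mul_le_mul_of_nonneg_right (by linarith) hM0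
  linarith

theorem err_t (f t : ℕ) : Tendsto (fun k => rho t k * (2 ^ (f * t) * 2 ^ (t * 2 ^ t)) /
    (2 ^ t * 2 ^ Fintype.card (Pr t) * cc t) + 2 ^ f * 2 ^ f / 2 ^ k) atTop (𝓝 0) := by
  have h1 : Tendsto (fun k : ℕ => (2 : ℝ) ^ f * 2 ^ f / 2 ^ k) atTop (𝓝 0) := by
    have h2 : Tendsto (fun k : ℕ => ((1 : ℝ) / 2) ^ k) atTop (𝓝 0) :=
      tendsto_pow_atTop_nhds_zero_of_lt_one (by norm_num) (by norm_num)
    have h3 := h2.const_mul ((2 : ℝ) ^ f * 2 ^ f)
    rw [mul_zero] at h3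
    refine h3.congr fun k => ?_
    rw [div_pow, one_pow]
    ring
  have h4 := (((rho_tendsto t).mul_const ((2 : ℝ) ^ (f * t) * 2 ^ (t * 2 ^ t))).div_const
    (2 ^ t * 2 ^ Fintype.card (Pr t) * cc t)).add h1
  simpa using h4

open Classical in
/-- **the share of the tables with many solutions**, for all `t` at once -/
theorem share_t (f : ℕ) (M0 ε : ℝ) (hε : 0 < ε) : ∃ k0 : ℕ, 0 < k0 ∧ ∀ k, k0 ≤ k →
    ∀ (Q : Frm f) (w ψ : Vv f) (E : Finset (Vv f × Vv f)), IsGrp E ψ w →
    ∀ μ : ℝ, (E.card : ℝ) / 2 ^ f ≤ μ → μ ≤ M0 → ∀ t : ℕ,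
    (((Om k ψ).filter (fun τ => 2 ^ (t + 1) ≤ (SolS Q w E τ).card)).card : ℝ) ≤
      (μ ^ t / cc t + ε) * (Om k ψ).card := by
  obtain ⟨T, hT⟩ := ((cc_tendsto M0).eventually_lt_const (half_pos hε)).exists
  have h1 : ∀ᶠ k in atTop, ∀ t ∈ range (T + 1), rho t k * (2 ^ (f * t) * 2 ^ (t * 2 ^ t)) /
    (2 ^ t * 2 ^ Fintype.card (Pr t) * cc t) + 2 ^ f * 2 ^ f / 2 ^ k < ε / 2 := by
    rw [Filter.eventually_all_finset]
    intro t _
    exact (err_t f t).eventually_lt_const (half_pos hε)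
  obtain ⟨k1, hk1⟩ := eventually_atTop.1 h1
  refine ⟨k1 + 1, Nat.succ_pos _, fun k hk Q w ψ E hE μ hμ hμ1 t => ?_⟩
  have hk0 : 0 < k := by omega
  have hμ0 : 0 ≤ μ := le_trans (by positivity) hμ
  have hP : (0 : ℝ) ≤ (Om k ψ).card := Nat.cast_nonneg _
  by_cases ht : t ≤ T
  · have h2 := share_one hk0 t Q w ψ E hE μ hμ
    have h3 := hk1 k (by omega) t (mem_range.2 (by omega))
    refine h2.trans (mul_le_mul_of_nonneg_right ?_ hP)
    linarith
  · have h2 := share_one hk0 T Q w ψ E hE μ hμ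
    have h3 := hk1 k (by omega) T (mem_range.2 (by omega))
    have h4 : (((Om k ψ).filter (fun τ => 2 ^ (t + 1) ≤ (SolS Q w E τ).card)).card : ℝ) ≤
        ((Om k ψ).filter (fun τ => 2 ^ (T + 1) ≤ (SolS Q w E τ).card)).card := by
      have h5 : (Om k ψ).filter (fun τ => 2 ^ (t + 1) ≤ (SolS Q w E τ).card) ⊆
          (Om k ψ).filter (fun τ => 2 ^ (T + 1) ≤ (SolS Q w E τ).card) := by
        intro τ hτ
        rw [mem_filter] at hτ ⊢
        exact ⟨hτ.1, le_trans (Nat.pow_le_pow_right (by norm_num) (by omega)) hτ.2⟩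
      exact_mod_cast card_le_card h5
    refine h4.trans (h2.trans (mul_le_mul_of_nonneg_right ?_ hP))
    have h5 : μ ^ T / cc T ≤ M0 ^ T / cc T :=
      div_le_div_of_nonneg_right (pow_le_pow_left₀ hμ0 hμ1 T) (cc_pos T).le
    have h6 : 0 ≤ μ ^ t / cc t := div_nonneg (pow_nonneg hμ0 t) (cc_pos t).le
    linarith

end Pool.Agent.Q7.LM
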