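import Pool.Agent.Q14.LQS.Share
import Pool.Agent.Q7.LM.Mul
import Pool.Agent.Q7.LM.Dia
import Pool.Agent.Q7.LM.Tbd

/-!
# The share of the tuples with nontrivial classes
-/

set_option autoImplicit false

namespace Pool.Agent.Q7.LM

open NumberField IsDedekindDomain Filter Topology Finset
open Pool.Agent.Q283.LQ Pool.Agent.Q14.LQS

/-- the indicator function -/
noncomputable def ind {k : ℕ} (J : Finset (Fin k)) : Fin k → ZMod 2 :=
  open Classical in fun j => if j ∈ J then 1 else 0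

theorem ind_inj {k : ℕ} {J J' : Finset (Fin k)} (h : ind J = ind J') : J = J' := by
  classical
  ext j
  have h1 := congrFun h j
  unfold ind at h1
  by_cases hj : j ∈ J <;> by_cases hj' : j ∈ J'
  · exact ⟨fun _ => hj', fun _ => hj⟩
  · rw [if_pos hj, if_neg hj'] at h1
    exact absurd h1 one_ne_zero
  · rw [if_neg hj, if_pos hj'] at h1
    exact absurd h1 zero_ne_one
  · exact ⟨fun h => absurd h hj, fun h => absurd h hj'⟩

/-- a solution -/
theorem sol_mem {f k : ℕ} {Q : Frm f} {w : Vv f} {E : Finset (Vv f × Vv f)} {τ : Tab f k}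
    {c : Vv f} {J : Finset (Fin k)} (h : IsSol Q.g w E τ c J) :
    (c, ind J) ∈ SolS Q w E τ := by
  classical
  obtain ⟨h0, hne, hmem, hout, hin⟩ := h
  set y : Fin k → ZMod 2 := ind J with hy
  have yone : ∀ i, i ∈ J → y i = 1 := fun i hi => by rw [hy]; exact if_pos hi
  have yzero : ∀ i, i ∉ J → y i = 0 := fun i hi => by rw [hy]; exact if_neg hi
  have hphy : phy τ.1 y = ∑ j ∈ J, τ.1 j := by
    unfold phy
    rw [← Finset.sum_filter_add_sum_filter_not univ (fun j => j ∈ J)]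
    have e1 : ∑ j ∈ univ.filter (fun j => j ∈ J), y j • τ.1 j = ∑ j ∈ J, τ.1 j := by
      rw [Finset.filter_mem_eq_inter, Finset.univ_inter]
      refine Finset.sum_congr rfl fun j hj => ?_
      rw [yone j hj, one_smul]
    have e2 : ∑ j ∈ univ.filter (fun j => ¬ j ∈ J), y j • τ.1 j = 0 := by
      refine Finset.sum_eq_zero fun j hj => ?_
      rw [yzero j (Finset.mem_filter.1 hj).2, zero_smul]
    rw [e1, e2, add_zero]
  rw [mem_SolS]
  refine ⟨by rw [hphy]; exact hmem, fun j => ?_⟩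
  unfold cnd
  change dot (τ.1 j) c + y j * dot (τ.1 j) w + ∑ i, Mt Q.g τ i j * (y i + y j) = 0
  by_cases hj : j ∈ J
  · have h1 := hin j hj
    rw [yone j hj, one_mul]
    have e1 : ∑ i, Mt Q.g τ i j * (y i + 1) = ∑ i ∈ Jᶜ, Mt Q.g τ i j := by
      rw [← Finset.sum_filter_add_sum_filter_not univ (fun i => i ∈ J)]
      have a1 : ∑ i ∈ univ.filter (fun i => i ∈ J), Mt Q.g τ i j * (y i + 1) = 0 := by
        refine Finset.sum_eq_zero fun i hi => ?_
        rw [yone i (Finset.mem_filter.1 hi).2, add_self, mul_zero]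
      have a2 : ∑ i ∈ univ.filter (fun i => ¬ i ∈ J), Mt Q.g τ i j * (y i + 1) =
          ∑ i ∈ Jᶜ, Mt Q.g τ i j := by
        refine Finset.sum_congr ?_ fun i hi => ?_
        · ext i
          simp
        · rw [yzero i (Finset.mem_compl.1 hi), zero_add, mul_one]
      rw [a1, a2, zero_add]
    rw [e1]
    rw [dot_add_right] at h1
    exact h1
  · have h1 := hout j hj
    rw [yzero j hj, zero_mul, add_zero]
    have e1 : ∑ i, Mt Q.g τ i j * (y i + 0) = ∑ i ∈ J, Mt Q.g τ i j := by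
      rw [← Finset.sum_filter_add_sum_filter_not univ (fun i => i ∈ J)]
      have a1 : ∑ i ∈ univ.filter (fun i => ¬ i ∈ J), Mt Q.g τ i j * (y i + 0) = 0 := by
        refine Finset.sum_eq_zero fun i hi => ?_
        rw [yzero i (Finset.mem_filter.1 hi).2, add_zero, mul_zero]
      have a2 : ∑ i ∈ univ.filter (fun i => i ∈ J), Mt Q.g τ i j * (y i + 0) =
          ∑ i ∈ J, Mt Q.g τ i j := by
        rw [Finset.filter_mem_eq_inter, Finset.univ_inter]
        refine Finset.sum_congr rfl fun i hi => ?_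
        rw [yone i hi, add_zero, mul_one]
      rw [a1, a2, add_zero]
    rw [e1]
    exact h1

open Classical in
/-- the number of the solutions -/
theorem sol_card {f k : ℕ} {Q : Frm f} {ψ w : Vv f} {E : Finset (Vv f × Vv f)} {τ : Tab f k} (hk : 0 < k)
    (hE : IsGrp E ψ w) (hτ : ∑ j, τ.1 j = ψ) :
    2 * (((univ : Finset (Vv f × Finset (Fin k))).filter
        (fun p => IsSol Q.g w E τ p.1 p.2)).card + 1) ≤ (SolS Q w E τ).card := by
  set B : Finset (Vv f × Finset (Fin k)) := univ.filter (fun p => IsSol Q.g w E τ p.1 p.2) with hB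
  set i0 : Fin k := ⟨0, hk⟩
  set A : Finset (Vv f × (Fin k → ZMod 2)) := insert 0 (B.image (fun p => (p.1, ind p.2))) with hA
  have hA0 : ∀ p ∈ A, p ∈ SolS Q w E τ ∧ p.2 i0 = 0 := by
    intro p hp
    rw [hA, Finset.mem_insert, Finset.mem_image] at hp
    rcases hp with rfl | ⟨x, hx, rfl⟩
    · exact ⟨SolS_zero τ hE, rfl⟩
    · rw [hB, Finset.mem_filter] at hx
      exact ⟨sol_mem hx.2, if_neg fun hj => hx.2.1 _ hj rfl⟩
  have hAc : A.card = B.card + 1 := by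
    rw [hA, Finset.card_insert_of_notMem, Finset.card_image_of_injective]
    · intro x x' h
      rw [Prod.mk.injEq] at h
      exact Prod.ext h.1 (ind_inj h.2)
    · intro h0
      rw [Finset.mem_image] at h0
      obtain ⟨x, hx, h0⟩ := h0
      rw [hB, Finset.mem_filter] at hx
      have h1 : x.1 = 0 := congrArg Prod.fst h0
      have h2 : ind x.2 = 0 := congrArg Prod.snd h0
      rcases hx.2.2.1 with h3 | ⟨j, hj⟩
      · exact h3 h1
      · have h4 : ind x.2 j = 1 := if_pos hj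
        rw [h2] at h4
        exact zero_ne_one h4
  set A' : Finset (Vv f × (Fin k → ZMod 2)) := A.image (fun p => p + (w, fun _ => 1)) with hA'
  have hA'c : A'.card = A.card := Finset.card_image_of_injective _ (add_left_injective _)
  have hdis : Disjoint A A' := by
    rw [Finset.disjoint_left]
    intro p hp hp'
    rw [hA', Finset.mem_image] at hp'
    obtain ⟨x, hx, rfl⟩ := hp'
    have h1 := (hA0 _ hp).2
    have h2 := (hA0 x hx).2
    rw [Prod.snd_add, Pi.add_apply, h2, zero_add] at h1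
    exact one_ne_zero h1
  have hsub : A ∪ A' ⊆ SolS Q w E τ := by
    intro p hp
    rw [Finset.mem_union] at hp
    rcases hp with hp | hp
    · exact (hA0 p hp).1
    · rw [hA', Finset.mem_image] at hp
      obtain ⟨x, hx, rfl⟩ := hp
      exact SolS_add hE (hA0 x hx).1 (SolS_D hE hτ)
  have h1 := Finset.card_le_card hsub
  rw [Finset.card_union_of_disjoint hdis, hA'c, hAc] at h1
  omega

/-- **the share of the tuples with nontrivial classes** -/
theorem share3 (hB : S_BAS) (hBAS1 : S_BAS1) (hREC : S_REC) (hCHEB : S_CHEB) (hLOC : S_LOC) (hSH1 : S_SH1)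
    (hSH2 : S_SH2) (hEE : S_EE) (hNEST : S_NEST) :
    ∀ (F : Type) [Field F] [NumberField F], ∃ y0 : ℕ, ∀ y, y0 ≤ y →
      ∀ (A : HeightOneSpectrum (𝓞 F) → F → F → Prop) (c : HeightOneSpectrum (𝓞 F) → ℕ), Loc A c → LocG A →
      ∀ D0 : F, D0 ≠ 0 → ∀ ε : ℝ, 0 < ε →
      ∃ k0 : ℕ, ∀ k, k0 ≤ k → Nest k fun X =>
        (Box y X : Set (Fin k → HeightOneSpectrum (𝓞 F))).Finite ∧
        0 < ({q ∈ (Box y X : Set (Fin k → HeightOneSpectrum (𝓞 F))) | ∃ D, Fits y D0 q D}.ncard : ℝ) ∧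
        (∀ t : ℕ,
          ({q ∈ (Box y X : Set (Fin k → HeightOneSpectrum (𝓞 F))) |
              ∃ D, Fits y D0 q D ∧ Many A D (2 ^ t - 1)}.ncard : ℝ) ≤
            ((2 ^ (∑ᶠ v, c v) * (1 / 2 : ℝ) ^ ex D0) ^ t / cc t + ε) *
              ({q ∈ (Box y X : Set (Fin k → HeightOneSpectrum (𝓞 F))) | ∃ D, Fits y D0 q D}.ncard : ℝ)) ∧
        (2 ^ (∑ᶠ v, c v) * (1 / 2 : ℝ) ^ ex D0 ≤ 1 →
          ({q ∈ (Box y X : Set (Fin k → HeightOneSpectrum (𝓞 F))) |
              ∃ D, Fits y D0 q D ∧ Many A D 1}.ncard : ℝ) ≤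
            (2 ^ (∑ᶠ v, c v) * (1 / 2 : ℝ) ^ ex D0 - (2 ^ (∑ᶠ v, c v) * (1 / 2 : ℝ) ^ ex D0) ^ 2 / 3 +
              (2 ^ (∑ᶠ v, c v) * (1 / 2 : ℝ) ^ ex D0) ^ 3 / 21 + ε) *
              ({q ∈ (Box y X : Set (Fin k → HeightOneSpectrum (𝓞 F))) | ∃ D, Fits y D0 q D}.ncard : ℝ)) := by
  intro F _ _
  obtain ⟨y0, hy0⟩ := base2 hB hBAS1 hREC hCHEB F
  refine ⟨y0, fun y hy A c hA hG D0 hD0 ε hε => ?_⟩
  classical
  obtain ⟨f, u, r, π, g, hb, hf, hX, hR⟩ := hy0 y hy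
  obtain ⟨Q, hQ⟩ := exists_frm hB hCHEB hb hX hR
  have hfin := (hLOC F y hb.two).1
  obtain ⟨⟨ψ, w⟩, hcls, -⟩ := hb.cls D0 hD0
  have hcls' : Nn y (D0 * mon r ψ * mon u w) := hcls
  obtain ⟨E, hE, hE1, hE2⟩ := exists_E hB hEE hb hf hfin hA hG hD0 hcls'
  obtain ⟨μ0, hμ0⟩ : ∃ μ0 : ℝ, μ0 = 2 ^ (∑ᶠ v, c v) * (1 / 2 : ℝ) ^ ex D0 := ⟨_, rfl⟩
  have hμ00 : 0 ≤ μ0 := by rw [hμ0]; positivity
  rw [← hμ0] at hE2
  -- an upper bound for the constants
  obtain ⟨ν, hν⟩ : ∃ ν : ℕ → ℝ, ∀ t, ν t = μ0 ^ t / cc t := ⟨_, fun _ => rfl⟩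
  have hν0 : ∀ t, 0 ≤ ν t := fun t => by rw [hν]; exact div_nonneg (pow_nonneg hμ00 t) (cc_pos t).le
  obtain ⟨μ, hμm⟩ : ∃ μ : ℝ, ∀ t, ν t ≤ μ := by
    obtain ⟨μ, h⟩ := (cc_tendsto μ0).bddAbove_range
    exact ⟨μ, fun t => by rw [hν]; exact h ⟨t, rfl⟩⟩
  have hμp : 0 ≤ μ := (hν0 0).trans (hμm 0)
  obtain ⟨κ, hκ⟩ : ∃ κ : ℝ, κ = μ0 - μ0 ^ 2 / 3 + μ0 ^ 3 / 21 := ⟨_, rfl⟩
  have hκ0 : μ0 ≤ 1 → 0 ≤ κ := fun h1 => by
    have h := cub le_rfl hμ00 h1
    rw [hκ]
    simpa using h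
  have hκ1 : μ0 ≤ 1 → κ ≤ μ := fun h1 => by
    refine le_trans ?_ (hμm 1)
    rw [hκ, hν]
    have e1 : cc 1 = 1 := by
      unfold cc
      norm_num
    rw [e1, pow_one, div_one]
    have h2 : μ0 ^ 3 ≤ μ0 ^ 2 := by
      have := mul_le_mul_of_nonneg_left h1 (sq_nonneg μ0)
      linarith [this, show μ0 ^ 3 = μ0 ^ 2 * μ0 by ring]
    have h3 := sq_nonneg μ0
    linarith
  -- the choice of k0
  obtain ⟨k1, hk11, hk1⟩ := Pool.Agent.Q7.LM.share f (ε / 2) (half_pos hε)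
  obtain ⟨k2, hk21, hkt⟩ := Pool.Agent.Q7.LM.share_t f μ0 (ε / 2) (half_pos hε)
  refine ⟨max k1 k2, fun k hk => ?_⟩
  have hk2 : 1 ≤ k := le_trans hk11 (le_trans (le_max_left _ _) hk)
  have hcnt := hk1 k (le_trans (le_max_left _ _) hk) Q w ψ E hE μ0 hE2
  have hcntt := hkt k (le_trans (le_max_right _ _) hk) Q w ψ E hE μ0 hE2 le_rfl
  rw [← hκ] at hcnt
  obtain ⟨M, hM⟩ : ∃ M : ℝ, M = 2 ^ (k * f + k * (k - 1) / 2) := ⟨_, rfl⟩
  have hM0 : 0 < M := by rw [hM]; positivity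
  have hMcard : (Fintype.card (Tab f k) : ℝ) = M := by
    rw [card_tab, hM]
    push_cast
    rfl
  obtain ⟨e, he⟩ : ∃ e : ℝ, e = min (1 / M / 2) (ε / 2 / M / (2 * μ + 2 * ε + M)) := ⟨_, rfl⟩
  have hden : 0 < 2 * μ + 2 * ε + M := by positivity
  have he0 : 0 < e := by
    rw [he]
    refine lt_min (by positivity) (by positivity)
  have he1 : e ≤ 1 / M / 2 := by rw [he]; exact min_le_left _ _
  have he2 : e * (2 * μ + 2 * ε + M) ≤ ε / 2 / M := by
    rw [← le_div_iff₀ hden, he]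
    exact min_le_right _ _
  have hnest := nest_all k (univ : Finset (Tab f k)) (fun τ X =>
    (Box y X : Set (Fin k → HeightOneSpectrum (𝓞 F))).Finite ∧
    0 < ((Box y X : Set (Fin k → HeightOneSpectrum (𝓞 F))).ncard : ℝ) ∧
    |({q ∈ (Box y X : Set (Fin k → HeightOneSpectrum (𝓞 F))) | Tb u π τ q}.ncard : ℝ) /
      ((Box y X : Set (Fin k → HeightOneSpectrum (𝓞 F))).ncard : ℝ) -
        1 / 2 ^ (k * f + k * (k - 1) / 2)| ≤ e) fun τ _ => hNEST F y f u r π g hb k τ e he0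
  -- a table with sum ψ
  obtain ⟨τ0, hτ0⟩ : ∃ τ : Tab f k, ∑ j, τ.1 j = ψ := by
    refine ⟨(fun j => if j = ⟨0, hk2⟩ then ψ else 0, fun _ => 0), ?_⟩
    show ∑ j : Fin k, (if j = ⟨0, hk2⟩ then ψ else 0) = ψ
    rw [Finset.sum_ite_eq' univ, if_pos (Finset.mem_univ _)]
  refine nest_mono k (fun X hX' => ?_) hnest
  obtain ⟨hBfin, hBpos, -⟩ := hX' τ0 (Finset.mem_univ _)
  refine ⟨hBfin, ?_⟩
  obtain ⟨Bf, hBf⟩ : ∃ Bf : Finset (Fin k → HeightOneSpectrum (𝓞 F)), Bf = hBfin.toFinset := ⟨_, rfl⟩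
  have hmem : ∀ q, q ∈ Bf ↔ q ∈ (Box y X : Set (Fin k → HeightOneSpectrum (𝓞 F))) := by
    intro q
    rw [hBf, Set.Finite.mem_toFinset]
  have hnc : ∀ P : (Fin k → HeightOneSpectrum (𝓞 F)) → Prop,
      ({q ∈ (Box y X : Set (Fin k → HeightOneSpectrum (𝓞 F))) | P q}.ncard : ℝ) =
        ((Bf.filter P).card : ℝ) := by
    intro P
    rw [← Set.ncard_coe_finset (Bf.filter P)]
    congr 2
    ext q
    rw [Finset.coe_filter]
    show (q ∈ (Box y X : Set (Fin k → HeightOneSpectrum (𝓞 F))) ∧ P q) ↔ (q ∈ Bf ∧ P q)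
    rw [hmem]
  have hBc : ((Box y X : Set (Fin k → HeightOneSpectrum (𝓞 F))).ncard : ℝ) = (Bf.card : ℝ) := by
    rw [← Set.ncard_coe_finset Bf]
    congr 2
    ext q
    rw [Finset.mem_coe, hmem]
  rw [hBc] at hBpos
  -- the shares
  have hsh : ∀ τ : Tab f k, (1 / M - e) * Bf.card ≤ ((Bf.filter (Tb u π τ)).card : ℝ) ∧
      ((Bf.filter (Tb u π τ)).card : ℝ) ≤ (1 / M + e) * Bf.card := by
    intro τ
    have h1 := (hX' τ (Finset.mem_univ _)).2.2
    rw [hBc, hnc, ← hM, abs_le] at h1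
    constructor
    · rw [← le_div_iff₀ hBpos]
      linarith [h1.1]
    · rw [← div_le_iff₀ hBpos]
      linarith [h1.2]
  have hdisj : ∀ s : Finset (Tab f k), Set.PairwiseDisjoint (s : Set (Tab f k))
      fun τ => Bf.filter (Tb u π τ) := by
    intro s τ _ τ' _ hne
    rw [Function.onFun, Finset.disjoint_filter]
    intro q _ h h'
    exact hne (tb_unique h h')
  have hcardU : ∀ s : Finset (Tab f k), ((s.biUnion fun τ => Bf.filter (Tb u π τ)).card : ℝ) =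
      ∑ τ ∈ s, ((Bf.filter (Tb u π τ)).card : ℝ) := by
    intro s
    rw [Finset.card_biUnion (fun τ hτ τ' hτ' hne => hdisj s hτ hτ' hne)]
    push_cast
    rfl
  have hinj : ∀ q ∈ Bf, Function.Injective q ∧ ∀ i, ¬ Sm y (q i) := by
    intro q hq
    have h1 := (hmem q).1 hq
    exact ⟨h1.1, fun i => (h1.2 i).1⟩
  -- the tables with sum ψ
  obtain ⟨Gd, hGd⟩ : ∃ Gd : Finset (Tab f k), Gd = univ.filter (fun τ : Tab f k => ∑ j, τ.1 j = ψ) :=
    ⟨_, rfl⟩
  have hGd1 : 1 ≤ (Gd.card : ℝ) := by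
    have : 0 < Gd.card := Finset.card_pos.2 ⟨τ0, by
      rw [hGd, Finset.mem_filter]
      exact ⟨Finset.mem_univ _, hτ0⟩⟩
    exact_mod_cast this
  have hGG : (Gd.card : ℝ) * (1 / M - e) * Bf.card ≤
      ({q ∈ (Box y X : Set (Fin k → HeightOneSpectrum (𝓞 F))) | ∃ D, Fits y D0 q D}.ncard : ℝ) := by
    rw [hnc]
    have h1 : Gd.biUnion (fun τ => Bf.filter (Tb u π τ)) ⊆ Bf.filter fun q => ∃ D, Fits y D0 q D := by
      intro q hq
      rw [Finset.mem_biUnion] at hq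
      obtain ⟨τ, hτ, hq⟩ := hq
      rw [Finset.mem_filter] at hq ⊢
      refine ⟨hq.1, ?_⟩
      have h2 := hinj q hq.1
      rw [hGd, Finset.mem_filter] at hτ
      exact ((hSH1 F y f u r π g hb D0 ψ w hD0 hcls' k q h2.1 h2.2 τ hq.2).1).2 hτ.2
    have h2 : ((Gd.biUnion fun τ => Bf.filter (Tb u π τ)).card : ℝ) ≤
        ((Bf.filter fun q => ∃ D, Fits y D0 q D).card : ℝ) := by
      exact_mod_cast Finset.card_le_card h1
    refine le_trans ?_ h2
    rw [hcardU]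
    calc (Gd.card : ℝ) * (1 / M - e) * Bf.card = ∑ _τ ∈ Gd, (1 / M - e) * Bf.card := by
          rw [Finset.sum_const, nsmul_eq_mul]
          ring
      _ ≤ _ := Finset.sum_le_sum fun τ _ => (hsh τ).1
  have hGpos : 0 < ({q ∈ (Box y X : Set (Fin k → HeightOneSpectrum (𝓞 F))) |
      ∃ D, Fits y D0 q D}.ncard : ℝ) := by
    refine lt_of_lt_of_le ?_ hGG
    have h1 : 0 < 1 / M - e := by
      have : 0 < 1 / M := by positivity
      linarith
    positivity
  rw [← hμ0, ← hκ]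
  -- the general bound
  have gen : ∀ (GN : Finset (Tab f k)) (P : (Fin k → HeightOneSpectrum (𝓞 F)) → Prop) (κ' : ℝ), 0 ≤ κ' →
      κ' ≤ μ → (GN.card : ℝ) ≤ (κ' + ε / 2) * Gd.card →
      (∀ q ∈ Bf, P q → ∀ τ, Tb u π τ q → τ ∈ GN) →
      ({q ∈ (Box y X : Set (Fin k → HeightOneSpectrum (𝓞 F))) | P q}.ncard : ℝ) ≤ (κ' + ε) *
        ({q ∈ (Box y X : Set (Fin k → HeightOneSpectrum (𝓞 F))) | ∃ D, Fits y D0 q D}.ncard : ℝ) := by
    intro GN P κ' hκ'0 hκ'1 hmark hP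
    have hH : ({q ∈ (Box y X : Set (Fin k → HeightOneSpectrum (𝓞 F))) | P q}.ncard : ℝ) ≤
        (GN.card : ℝ) * (1 / M + e) * Bf.card + M * e * Bf.card := by
      rw [hnc]
      have h1 : (Bf.filter P) ⊆
          GN.biUnion (fun τ => Bf.filter (Tb u π τ)) ∪
            (Bf \ (univ : Finset (Tab f k)).biUnion fun τ => Bf.filter (Tb u π τ)) := by
        intro q hq
        rw [Finset.mem_filter] at hq
        obtain ⟨hqB, hPq⟩ := hq
        rw [Finset.mem_union]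
        by_cases h3 : ∃ τ : Tab f k, Tb u π τ q
        · left
          obtain ⟨τ, hτ⟩ := h3
          rw [Finset.mem_biUnion]
          exact ⟨τ, hP q hqB hPq τ hτ, Finset.mem_filter.2 ⟨hqB, hτ⟩⟩
        · right
          rw [Finset.mem_sdiff]
          refine ⟨hqB, fun h4 => ?_⟩
          rw [Finset.mem_biUnion] at h4
          obtain ⟨τ, -, h5⟩ := h4
          rw [Finset.mem_filter] at h5
          exact h3 ⟨τ, h5.2⟩
      have h2 : (((Bf.filter P)).card : ℝ) ≤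
          ((GN.biUnion (fun τ => Bf.filter (Tb u π τ))).card : ℝ) +
            ((Bf \ (univ : Finset (Tab f k)).biUnion fun τ => Bf.filter (Tb u π τ)).card : ℝ) := by
        exact_mod_cast (Finset.card_le_card h1).trans (Finset.card_union_le _ _)
      have h3 : ((GN.biUnion (fun τ => Bf.filter (Tb u π τ))).card : ℝ) ≤
          (GN.card : ℝ) * (1 / M + e) * Bf.card := by
        rw [hcardU]
        calc ∑ τ ∈ GN, ((Bf.filter (Tb u π τ)).card : ℝ) ≤ ∑ _τ ∈ GN, (1 / M + e) * Bf.card :=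
              Finset.sum_le_sum fun τ _ => (hsh τ).2
          _ = _ := by
              rw [Finset.sum_const, nsmul_eq_mul]
              ring
      have hsub : ((univ : Finset (Tab f k)).biUnion fun τ => Bf.filter (Tb u π τ)) ⊆ Bf := by
        intro q hq
        rw [Finset.mem_biUnion] at hq
        obtain ⟨τ, -, h5⟩ := hq
        exact (Finset.mem_filter.1 h5).1
      have h4 : ((Bf \ (univ : Finset (Tab f k)).biUnion fun τ => Bf.filter (Tb u π τ)).card : ℝ) ≤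
          M * e * Bf.card := by
        rw [Finset.cast_card_sdiff hsub, hcardU]
        have h5 : ∑ _τ : Tab f k, (1 / M - e) * (Bf.card : ℝ) ≤
            ∑ τ : Tab f k, ((Bf.filter (Tb u π τ)).card : ℝ) :=
          Finset.sum_le_sum fun τ _ => (hsh τ).1
        rw [Finset.sum_const, nsmul_eq_mul, Finset.card_univ, hMcard] at h5
        have h6 : M * ((1 / M - e) * (Bf.card : ℝ)) = Bf.card - M * e * Bf.card := by
          field_simp
        linarith
      linarith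
    have he2' : e * (2 * κ' + 2 * ε + M) ≤ ε / 2 / M :=
      le_trans (mul_le_mul_of_nonneg_left (by linarith) he0.le) he2
    have hfinal := final (N := 1) hGd1 hBpos hM0 he0 he2' hκ'0 hε le_rfl hGG hH
      (by rw [Nat.cast_one, one_mul]; exact hmark)
    rw [Nat.cast_one, div_one] at hfinal
    exact hfinal
  -- the number of the solutions
  have hsol : ∀ q ∈ Bf, ∀ D, Fits y D0 q D → ∀ N, Many A D N → ∀ τ, Tb u π τ q → τ ∈ Gd ∧
      2 * (N + 1) ≤ (SolS Q w E τ).card := by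
    intro q hqB D hD N hmany τ hτ
    have h2 := hinj q hqB
    have hψ : ∑ j, τ.1 j = ψ := ((hSH1 F y f u r π g hb D0 ψ w hD0 hcls' k q h2.1 h2.2 τ hτ).1).1 ⟨D, hD⟩
    refine ⟨by rw [hGd, Finset.mem_filter]; exact ⟨Finset.mem_univ _, hψ⟩, ?_⟩
    have h5 := hSH2 F y f u r π g hb A c hA D0 ψ w hD0 hcls' k q hk2 h2.1 h2.2 τ hτ E hE1 D N hD
      hmany
    have h6 := sol_card (Q := Q) hk2 hE hψ
    rw [hQ] at h6
    obtain ⟨n, hn⟩ : ∃ n, n = ((univ : Finset (Vv f × Finset (Fin k))).filter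
      (fun p => IsSol g w E τ p.1 p.2)).card := ⟨_, rfl⟩
    have h5' : N ≤ n := by rw [hn]; convert h5
    have h6' : 2 * (n + 1) ≤ (SolS Q w E τ).card := by rw [hn]; convert h6
    omega
  refine ⟨hGpos, fun t => ?_, fun h1 => ?_⟩
  · rw [← hν]
    refine gen (Gd.filter fun τ => 2 ^ (t + 1) ≤ (SolS Q w E τ).card) _ (ν t) (hν0 t) (hμm t) ?_ ?_
    · rw [hGd, hν]
      exact hcntt t
    · rintro q hqB ⟨D, hD, hmany⟩ τ hτ
      obtain ⟨h3, h4⟩ := hsol q hqB D hD _ hmany τ hτ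
      rw [Finset.mem_filter]
      refine ⟨h3, le_trans (le_of_eq ?_) h4⟩
      have h5 : 1 ≤ 2 ^ t := Nat.one_le_two_pow
      rw [Nat.sub_add_cancel h5, pow_succ, mul_comm]
  · refine gen (Gd.filter fun τ => (SolS Q w E τ).card ≠ 2) _ κ (hκ0 h1) (hκ1 h1) ?_ ?_
    · rw [hGd]
      exact hcnt h1
    · rintro q hqB ⟨D, hD, hmany⟩ τ hτ
      obtain ⟨h3, h4⟩ := hsol q hqB D hD _ hmany τ hτ
      rw [Finset.mem_filter]
      exact ⟨h3, by omega⟩

end Pool.Agent.Q7.LM
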