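import Pool.Agent.Q283.LQ.All
import Pool.Agent.Q7.LM.Shr

/-!
# Project LQ (helper283): the improved bounds (helper7)

`S_SHARE3`: the share of the `D` with `2 ^ t - 1` nontrivial classes is at most `μ ^ t / ∏_(i ≤ t) (2 ^ i - 1) + ε`, for all
`t` at once, and if `μ ≤ 1` the share of the `D` with at least one nontrivial class is at most
`μ - μ² / 3 + μ³ / 21 + ε` (`5/7 + ε` for `μ = 1`).  Here `A` is closed under products (`LocG A`).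
`cc t = ∏_(i < t) (2 ^ (i + 1) - 1)`.
-/

set_option autoImplicit false

namespace Pool.Agent.Q7.LM

open NumberField IsDedekindDomain Filter Topology Finset
open Pool.Agent.Q283.LQ

/-- the improved form of `S_SHARE` -/
def S_SHARE3 : Prop := ∀ (F : Type) [Field F] [NumberField F], ∃ y0 : ℕ, ∀ y, y0 ≤ y →
  ∀ (A : HeightOneSpectrum (𝓞 F) → F → F → Prop) (c : HeightOneSpectrum (𝓞 F) → ℕ), Loc A c → LocG A →
  ∀ D0 : F, D0 ≠ 0 → ∀ ε : ℝ, 0 < ε →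
  ∃ k0 : ℕ, ∀ k, k0 ≤ k → Nest k fun X =>
    (Box y X : Set (Fin k → HeightOneSpectrum (𝓞 F))).Finite ∧
    0 < ({q ∈ (Box y X : Set (Fin k → HeightOneSpectrum (𝓞 F))) | ∃ D, Fits y D0 q D}.ncard : ℝ) ∧
    (∀ t : ℕ,
      ({q ∈ (Box y X : Set (Fin k → HeightOneSpectrum (𝓞 F))) |
          ∃ D, Fits y D0 q D ∧ Many A D (2 ^ t - 1)}.ncard : ℝ) ≤
        ((2 ^ (∑ᶠ v, c v) * (1 / 2 : ℝ) ^ ex D0) ^ t / cc t + ε) *
          ({q ∈ (Box y X : Set (Fin k → HeightOneSpectrum (𝓞 F))) | ∃ D, Fits y D0 q D}.ncard : ℝ)) ∧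
    (2 ^ (∑ᶠ v, c v) * (1 / 2 : ℝ) ^ ex D0 ≤ 1 →
      ({q ∈ (Box y X : Set (Fin k → HeightOneSpectrum (𝓞 F))) |
          ∃ D, Fits y D0 q D ∧ Many A D 1}.ncard : ℝ) ≤
        (2 ^ (∑ᶠ v, c v) * (1 / 2 : ℝ) ^ ex D0 - (2 ^ (∑ᶠ v, c v) * (1 / 2 : ℝ) ^ ex D0) ^ 2 / 3 +
          (2 ^ (∑ᶠ v, c v) * (1 / 2 : ℝ) ^ ex D0) ^ 3 / 21 + ε) *
          ({q ∈ (Box y X : Set (Fin k → HeightOneSpectrum (𝓞 F))) | ∃ D, Fits y D0 q D}.ncard : ℝ))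

theorem t_SHARE3 : S_SHARE3 :=
  share3 t_BAS (Pool.Agent.Q150.LQ.bas1 t_BAS t_LOC Pool.Agent.Q96.LQ.su t_REC t_CHEB) t_REC t_CHEB t_LOC
    t_SH1 (Pool.Agent.Q129.LQ.sh2 t_BAS t_SH1) (Pool.Agent.Q151.LQ.EE t_BAS t_AA)
    (Pool.Agent.Q53.LQ2.NEST.main t_CHEB t_BAS)

/-- the improved form of `S_MAIN` -/
def S_MAIN3 : Prop := ∀ (F : Type) [Field F] [NumberField F], ∃ y0 : ℕ, ∀ y, y0 ≤ y →
  ∀ (I : Ideal (𝓞 F)) (c : HeightOneSpectrum (𝓞 F) → ℕ), (2 : 𝓞 F) ∈ I → Loc (AI I) c →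
  ∀ d0 : F, d0 ≠ 0 → ∀ ε : ℝ, 0 < ε → ∃ k0 : ℕ, ∀ k, k0 ≤ k → Nest k fun X =>
    (Box y X : Set (Fin k → HeightOneSpectrum (𝓞 F))).Finite ∧
    0 < ({q ∈ (Box y X : Set (Fin k → HeightOneSpectrum (𝓞 F))) | ∃ d, Fits y d0 q d}.ncard : ℝ) ∧
    ∀ s : ℕ, ¬ Df F I (s + 1) →
      (∀ t : ℕ,
        ({q ∈ (Box y X : Set (Fin k → HeightOneSpectrum (𝓞 F))) | ∃ d, Fits y d0 q d ∧
            ∃ (L : Type) (_ : Field L) (_ : NumberField L) (_ : Algebra F L),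
              Quad F L d ∧ Df L (I.map (algebraMap (𝓞 F) (𝓞 L))) (s + t)}.ncard : ℝ) ≤
          ((2 ^ (∑ᶠ v, c v) * (1 / 2 : ℝ) ^ ex (-d0)) ^ t / cc t + ε) *
            ({q ∈ (Box y X : Set (Fin k → HeightOneSpectrum (𝓞 F))) | ∃ d, Fits y d0 q d}.ncard : ℝ)) ∧
      (2 ^ (∑ᶠ v, c v) * (1 / 2 : ℝ) ^ ex (-d0) ≤ 1 →
        ({q ∈ (Box y X : Set (Fin k → HeightOneSpectrum (𝓞 F))) | ∃ d, Fits y d0 q d ∧
            ∃ (L : Type) (_ : Field L) (_ : NumberField L) (_ : Algebra F L),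
              Quad F L d ∧ Df L (I.map (algebraMap (𝓞 F) (𝓞 L))) (s + 1)}.ncard : ℝ) ≤
          (2 ^ (∑ᶠ v, c v) * (1 / 2 : ℝ) ^ ex (-d0) - (2 ^ (∑ᶠ v, c v) * (1 / 2 : ℝ) ^ ex (-d0)) ^ 2 / 3 +
            (2 ^ (∑ᶠ v, c v) * (1 / 2 : ℝ) ^ ex (-d0)) ^ 3 / 21 + ε) *
            ({q ∈ (Box y X : Set (Fin k → HeightOneSpectrum (𝓞 F))) | ∃ d, Fits y d0 q d}.ncard : ℝ))

theorem main3 (hshare : S_SHARE3) (hcr2 : S_CR2') : S_MAIN3 := by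
  intro F _ _
  obtain ⟨y0, hy0⟩ := hshare F
  refine ⟨y0, fun y hy I c hI hloc d0 hd0 ε hε => ?_⟩
  obtain ⟨k0, hk0⟩ := hy0 y hy (AI I) c hloc (locG_AI I) (-d0) (neg_ne_zero.mpr hd0) ε hε
  refine ⟨max k0 1, fun k hk => nest_mono k _ _ (fun X hX => ?_) (hk0 k (le_trans (le_max_left _ _) hk))⟩
  have hk1 : 1 ≤ k := le_trans (le_max_right _ _) hk
  obtain ⟨hfin, hpos, hN, hN1⟩ := hX
  have hset : {q ∈ (Box y X : Set (Fin k → HeightOneSpectrum (𝓞 F))) | ∃ D, Fits y (-d0) q D} =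
      {q ∈ (Box y X : Set (Fin k → HeightOneSpectrum (𝓞 F))) | ∃ d, Fits y d0 q d} := by
    ext q
    simp only [Set.mem_ofPred_eq, fits_neg_iff]
  rw [hset] at hpos
  have hsub : ∀ s t : ℕ, ¬ Df F I (s + 1) →
      {q ∈ (Box y X : Set (Fin k → HeightOneSpectrum (𝓞 F))) | ∃ d, Fits y d0 q d ∧
          ∃ (L : Type) (_ : Field L) (_ : NumberField L) (_ : Algebra F L),
            Quad F L d ∧ Df L (I.map (algebraMap (𝓞 F) (𝓞 L))) (s + t)} ⊆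
      {q ∈ (Box y X : Set (Fin k → HeightOneSpectrum (𝓞 F))) | ∃ D, Fits y (-d0) q D ∧
        Many (AI I) D (2 ^ t - 1)} := by
    rintro s t hs q ⟨hq, d, hd, L, iL1, iL2, iL3, hquad, hdf⟩
    have hnsq : ¬ IsSquare d :=
      not_od_sq (q ⟨0, hk1⟩) ((hd.ram _ (hq.2 ⟨0, hk1⟩).1).mpr ⟨_, rfl⟩)
    exact ⟨hq, -d, fits_neg hd, hcr2 F L d hquad hnsq I hI s t hs hdf⟩
  refine ⟨hfin, hpos, fun s hs => ⟨fun t => ?_, fun h1 => ?_⟩⟩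
  · have h2 := hN t
    rw [hset] at h2
    refine le_trans ?_ h2
    exact_mod_cast Set.ncard_le_ncard (hsub s t hs) (hfin.subset (fun q hq => hq.1))
  · have h2 := hN1 h1
    rw [hset] at h2
    refine le_trans ?_ h2
    exact_mod_cast Set.ncard_le_ncard (hsub s 1 hs) (hfin.subset (fun q hq => hq.1))

theorem t_MAIN3 : S_MAIN3 := main3 t_SHARE3 t_CR2'

end Pool.Agent.Q7.LM
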