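import Pool.Agent.Q283.LQ.Stm

/-!
# Three moments for tables of residue symbols, first part: signs, pairs and the product formulas
-/

set_option autoImplicit false

namespace Pool.Agent.Q7.LM

open Finset Pool.Agent.Q283.LQ

/-- vectors of symbols -/
abbrev Vv (f : ℕ) : Type := Fin f → ZMod 2

/-- pairs of indices -/
abbrev Pr (k : ℕ) : Type := {p : Fin k × Fin k // p.1 < p.2}

/-- the sign -/
noncomputable def chi (x : ZMod 2) : ℝ := if x = 0 then 1 else -1

theorem z2 (x : ZMod 2) : x = 0 ∨ x = 1 := by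
  fin_cases x
  · exact Or.inl rfl
  · exact Or.inr rfl

theorem z2ne {x : ZMod 2} (h : x ≠ 0) : x = 1 := (z2 x).resolve_left h

theorem add_self (x : ZMod 2) : x + x = 0 := CharTwo.add_self_eq_zero x

@[simp] theorem chi_zero : chi 0 = 1 := by simp [chi]

@[simp] theorem chi_one : chi 1 = -1 := by simp [chi]

theorem chi_add (x y : ZMod 2) : chi (x + y) = chi x * chi y := by
  rcases z2 x with rfl | rfl <;> rcases z2 y with rfl | rfl
  · simp
  · simp
  · simp
  · rw [add_self]; simp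

theorem chi_sq (x : ZMod 2) : chi x * chi x = 1 := by
  rw [← chi_add, add_self, chi_zero]

theorem chi_le (x : ZMod 2) : chi x ≤ 1 := by
  rcases z2 x with rfl | rfl <;> simp

theorem neg_le_chi (x : ZMod 2) : -1 ≤ chi x := by
  rcases z2 x with rfl | rfl <;> simp

theorem abs_chi (x : ZMod 2) : |chi x| = 1 := by
  rcases z2 x with rfl | rfl <;> simp

theorem chi_sum {I : Type*} (s : Finset I) (x : I → ZMod 2) :
    chi (∑ i ∈ s, x i) = ∏ i ∈ s, chi (x i) := by
  classical
  induction s using Finset.induction_on with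
  | empty => simp
  | insert a s ha ih => rw [sum_insert ha, prod_insert ha, chi_add, ih]

theorem sum_two (F : ZMod 2 → ℝ) : ∑ l : ZMod 2, F l = F 0 + F 1 :=
  Fin.sum_univ_two F

theorem sum_chi_mul (x : ZMod 2) : ∑ l : ZMod 2, chi (l * x) = if x = 0 then 2 else 0 := by
  rw [sum_two]
  rcases z2 x with rfl | rfl
  · simp; norm_num
  · simp

/-- the indicator function of `x = 0` as a sum of signs -/
theorem sum_chi {I : Type*} [Fintype I] [DecidableEq I] (x : I → ZMod 2) :
    ∑ l : I → ZMod 2, chi (∑ i, l i * x i) = if ∀ i, x i = 0 then 2 ^ Fintype.card I else 0 := by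
  have h1 : ∀ l : I → ZMod 2, chi (∑ i, l i * x i) = ∏ i, chi (l i * x i) := fun l => chi_sum _ _
  simp only [h1]
  have h2 := Finset.prod_univ_sum (fun _ : I => (univ : Finset (ZMod 2))) (fun i l => chi (l * x i))
  rw [Fintype.piFinset_univ] at h2
  rw [← h2]
  simp only [sum_chi_mul]
  split_ifs with h
  · simp [h]
  · push Not at h
    obtain ⟨i, hi⟩ := h
    exact Finset.prod_eq_zero (mem_univ i) (by simp [hi])

/-! ### Sums over pairs -/

theorem sum_pairs {k : ℕ} {R : Type*} [AddCommMonoid R] (F : Fin k → Fin k → R) :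
    ∑ j, ∑ i, F i j = ∑ p : Pr k, (F p.1.1 p.1.2 + F p.1.2 p.1.1) + ∑ i, F i i := by
  classical
  have h1 : ∑ p : Pr k, F p.1.1 p.1.2 = ∑ j, ∑ i, if i < j then F i j else 0 := by
    rw [← Finset.sum_product' (f := fun j i => if i < j then F i j else 0)]
    rw [← Finset.sum_filter_add_sum_filter_not _ (fun x : Fin k × Fin k => x.2 < x.1)]
    rw [Finset.sum_eq_zero (s := filter (fun x : Fin k × Fin k => ¬ x.2 < x.1) _), add_zero]
    · refine Finset.sum_bij' (fun p _ => (p.1.2, p.1.1)) (fun x hx => ⟨(x.2, x.1), (mem_filter.1 hx).2⟩)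
        ?_ ?_ ?_ ?_ ?_
      · intro p _; simp [p.2]
      · intro x _; simp
      · intro p _; rfl
      · intro x _; rfl
      · intro p _; simp [p.2]
    · intro x hx
      simp [(mem_filter.1 hx).2]
  have h2 : ∑ p : Pr k, F p.1.2 p.1.1 = ∑ j, ∑ i, if j < i then F i j else 0 := by
    rw [← Finset.sum_product' (f := fun j i => if j < i then F i j else 0)]
    rw [← Finset.sum_filter_add_sum_filter_not _ (fun x : Fin k × Fin k => x.1 < x.2)]
    rw [Finset.sum_eq_zero (s := filter (fun x : Fin k × Fin k => ¬ x.1 < x.2) _), add_zero]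
    · refine Finset.sum_bij' (fun p _ => (p.1.1, p.1.2)) (fun x hx => ⟨(x.1, x.2), (mem_filter.1 hx).2⟩)
        ?_ ?_ ?_ ?_ ?_
      · intro p _; simp [p.2]
      · intro x _; simp
      · intro p _; rfl
      · intro x _; rfl
      · intro p _; simp [p.2]
    · intro x hx
      simp [(mem_filter.1 hx).2]
  have h3 : ∑ i, F i i = ∑ j, ∑ i, if i = j then F i j else 0 := by
    refine sum_congr rfl fun j _ => ?_
    simp
  rw [sum_add_distrib, h1, h2, h3, ← sum_add_distrib, ← sum_add_distrib]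
  refine sum_congr rfl fun j _ => ?_
  rw [← sum_add_distrib, ← sum_add_distrib]
  refine sum_congr rfl fun i _ => ?_
  rcases lt_trichotomy i j with h | h | h
  · simp [h, h.ne, h.not_gt]
  · simp [h]
  · simp [h, h.ne', h.not_gt]

/-! ### The form -/

/-- a symmetric bilinear form with `g a a = a · n` -/
structure Frm (f : ℕ) where
  g : Vv f → Vv f → ZMod 2
  add : ∀ a b c, g (a + b) c = g a c + g b c
  symm : ∀ a b, g a b = g b a
  n : Vv f
  diag : ∀ a, g a a = dot a n

variable {f k : ℕ}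

theorem dot_add_left (a b c : Vv f) : dot (a + b) c = dot a c + dot b c := by
  simp [dot, add_mul, sum_add_distrib]

theorem dot_add_right (a b c : Vv f) : dot a (b + c) = dot a b + dot a c := by
  simp [dot, mul_add, sum_add_distrib]

theorem dot_zero_left (c : Vv f) : dot 0 c = 0 := by simp [dot]

theorem dot_zero_right (c : Vv f) : dot c 0 = 0 := by simp [dot]

theorem dot_smul_left (x : ZMod 2) (a c : Vv f) : dot (x • a) c = x * dot a c := by
  simp [dot, mul_sum, mul_assoc]

theorem dot_sum_left {I : Type*} (s : Finset I) (a : I → Vv f) (c : Vv f) :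
    dot (∑ i ∈ s, a i) c = ∑ i ∈ s, dot (a i) c := by
  classical
  induction s using Finset.induction_on with
  | empty => simp [dot_zero_left]
  | insert a s ha ih => rw [sum_insert ha, sum_insert ha, dot_add_left, ih]

namespace Frm

variable (Q : Frm f)

theorem zero_left (c : Vv f) : Q.g 0 c = 0 := by
  have h := Q.add 0 0 c
  rw [add_zero] at h
  exact left_eq_add.1 h

theorem zero_right (c : Vv f) : Q.g c 0 = 0 := by rw [Q.symm, Q.zero_left]

theorem add_right (a b c : Vv f) : Q.g a (b + c) = Q.g a b + Q.g a c := by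
  rw [Q.symm, Q.add, Q.symm b, Q.symm c]

theorem smul_left (x : ZMod 2) (a c : Vv f) : Q.g (x • a) c = x * Q.g a c := by
  rcases z2 x with rfl | rfl
  · simp [Q.zero_left]
  · simp

theorem sum_left {I : Type*} (s : Finset I) (a : I → Vv f) (c : Vv f) :
    Q.g (∑ i ∈ s, a i) c = ∑ i ∈ s, Q.g (a i) c := by
  classical
  induction s using Finset.induction_on with
  | empty => simp [Q.zero_left]
  | insert a s ha ih => rw [sum_insert ha, sum_insert ha, Q.add, ih]

/-- the form on the classes -/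
def B (p q : Vv f × Vv f) : ZMod 2 := Q.g p.1 q.1 + dot p.1 q.2 + dot q.1 p.2

theorem B_symm (p q : Vv f × Vv f) : Q.B p q = Q.B q p := by
  unfold B
  rw [Q.symm]
  ring

theorem B_add_left (p p' q : Vv f × Vv f) : Q.B (p + p') q = Q.B p q + Q.B p' q := by
  simp only [B, Prod.fst_add, Prod.snd_add, Q.add, dot_add_left, dot_add_right]
  ring

theorem B_add_right (q p p' : Vv f × Vv f) : Q.B q (p + p') = Q.B q p + Q.B q p' := by
  rw [Q.B_symm, Q.B_add_left, Q.B_symm p q, Q.B_symm p' q]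

theorem B_zero_left (q : Vv f × Vv f) : Q.B 0 q = 0 := by
  simp [B, Q.zero_left, dot_zero_left, dot_zero_right]

theorem B_self (p : Vv f × Vv f) : Q.B p p = dot p.1 Q.n := by
  unfold B
  rw [Q.diag, add_assoc, add_self, add_zero]

end Frm

/-! ### The conditions -/

/-- `∑ y_j φ_j` -/
def phy (φ : Fin k → Vv f) (y : Fin k → ZMod 2) : Vv f := ∑ j, y j • φ j

theorem phy_add (φ : Fin k → Vv f) (y y' : Fin k → ZMod 2) : phy φ (y + y') = phy φ y + phy φ y' := by
  simp [phy, add_smul, sum_add_distrib]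

theorem phy_add_left (φ φ' : Fin k → Vv f) (y : Fin k → ZMod 2) :
    phy (φ + φ') y = phy φ y + phy φ' y := by
  simp [phy, smul_add, sum_add_distrib]

theorem phy_zero (φ : Fin k → Vv f) : phy φ 0 = 0 := by simp [phy]

/-- the condition at the `j`-th prime -/
def cnd (g : Vv f → Vv f → ZMod 2) (w : Vv f) (τ : Tab f k) (c : Vv f) (y : Fin k → ZMod 2)
    (j : Fin k) : ZMod 2 :=
  dot (τ.1 j) c + y j * dot (τ.1 j) w + ∑ i, Mt g τ i j * (y i + y j)

theorem cnd_add (g : Vv f → Vv f → ZMod 2) (w : Vv f) (τ : Tab f k) (c c' : Vv f)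
    (y y' : Fin k → ZMod 2) (j : Fin k) :
    cnd g w τ (c + c') (y + y') j = cnd g w τ c y j + cnd g w τ c' y' j := by
  have h : ∀ i, Mt g τ i j * (y i + y' i + (y j + y' j)) =
      Mt g τ i j * (y i + y j) + Mt g τ i j * (y' i + y' j) := fun i => by ring
  simp only [cnd, Pi.add_apply, dot_add_right, h, sum_add_distrib, add_mul]
  ring

theorem cnd_zero (g : Vv f → Vv f → ZMod 2) (w : Vv f) (τ : Tab f k) (j : Fin k) :
    cnd g w τ 0 0 j = 0 := by
  simp [cnd, dot_zero_right]

theorem cnd_one (g : Vv f → Vv f → ZMod 2) (w : Vv f) (τ : Tab f k) (j : Fin k) :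
    cnd g w τ w (fun _ => 1) j = 0 := by
  simp [cnd, add_self]

theorem Mt_self (g : Vv f → Vv f → ZMod 2) (τ : Tab f k) (i : Fin k) : Mt g τ i i = 0 := by
  simp [Mt]

theorem Mt_add (Q : Frm f) (τ : Tab f k) {i j : Fin k} (h : i < j) :
    Mt Q.g τ i j + Mt Q.g τ j i = Q.g (τ.1 i) (τ.1 j) := by
  simp only [Mt, h, h.not_gt, dif_pos, dif_neg, not_false_iff]
  rw [← add_assoc, add_self, zero_add]

/-- sum with the symmetric part -/
theorem sum_Mt (Q : Frm f) (τ : Tab f k) (P : Fin k → Fin k → ZMod 2) (hP : ∀ i j, P i j = P j i) :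
    ∑ j, ∑ i, Mt Q.g τ i j * P i j = ∑ p : Pr k, Q.g (τ.1 p.1.1) (τ.1 p.1.2) * P p.1.1 p.1.2 := by
  rw [sum_pairs]
  rw [sum_eq_zero (s := univ) (f := fun i => Mt Q.g τ i i * P i i) (fun i _ => by rw [Mt_self, zero_mul]),
    add_zero]
  refine sum_congr rfl fun p _ => ?_
  rw [hP p.1.2 p.1.1, ← add_mul, Mt_add Q τ p.2]

theorem sum_g (Q : Frm f) (φ : Fin k → Vv f) (P : Fin k → Fin k → ZMod 2) :
    ∑ j, ∑ i, Q.g (φ i) (φ j) * P i j =
      ∑ p : Pr k, Q.g (φ p.1.1) (φ p.1.2) * (P p.1.1 p.1.2 + P p.1.2 p.1.1) +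
        ∑ i, dot (φ i) Q.n * P i i := by
  rw [sum_pairs]
  congr 1
  · refine sum_congr rfl fun p _ => ?_
    rw [Q.symm (φ p.1.2)]
    ring
  · refine sum_congr rfl fun i _ => ?_
    rw [Q.diag]

/-- the product formula for the sum of the conditions -/
theorem R1 (Q : Frm f) (w : Vv f) (τ : Tab f k) (c : Vv f) (y : Fin k → ZMod 2) :
    ∑ j, cnd Q.g w τ c y j = Q.B (phy τ.1 y, c) (∑ j, τ.1 j, w + Q.n) := by
  have h1 : ∑ j, cnd Q.g w τ c y j = dot (∑ j, τ.1 j) c + dot (phy τ.1 y) w +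
      ∑ j, ∑ i, Mt Q.g τ i j * (y i + y j) := by
    simp only [cnd, sum_add_distrib, dot_sum_left, phy, dot_smul_left]
  have h2 : ∑ j, ∑ i, Mt Q.g τ i j * (y i + y j) =
      Q.g (phy τ.1 y) (∑ j, τ.1 j) + dot (phy τ.1 y) Q.n := by
    rw [sum_Mt Q τ (fun i j => y i + y j) (fun i j => add_comm _ _)]
    have h3 := sum_g Q τ.1 (fun i _ => y i)
    have h4 : ∑ j, ∑ i, Q.g (τ.1 i) (τ.1 j) * y i = Q.g (phy τ.1 y) (∑ j, τ.1 j) := by
      rw [Q.symm, Q.sum_left]
      refine sum_congr rfl fun j _ => ?_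
      rw [Q.symm, phy, Q.sum_left]
      refine sum_congr rfl fun i _ => ?_
      rw [Q.smul_left, mul_comm]
    have h5 : ∑ i, dot (τ.1 i) Q.n * y i = dot (phy τ.1 y) Q.n := by
      rw [phy, dot_sum_left]
      refine sum_congr rfl fun i _ => ?_
      rw [dot_smul_left, mul_comm]
    rw [h4, h5] at h3
    rw [h3, add_assoc, add_self, add_zero]
  rw [h1, h2]
  simp only [Frm.B, dot_add_right]
  ring

/-- the product formula for two solutions -/
theorem R2 (Q : Frm f) (w : Vv f) (τ : Tab f k) (c c' : Vv f) (y y' : Fin k → ZMod 2) :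
    ∑ j, (y' j * cnd Q.g w τ c y j + y j * cnd Q.g w τ c' y' j) =
      Q.B (phy τ.1 y, c) (phy τ.1 y', c') + dot (phy τ.1 (fun j => y j * y' j)) Q.n := by
  have h1 : ∑ j, (y' j * cnd Q.g w τ c y j + y j * cnd Q.g w τ c' y' j) =
      dot (phy τ.1 y') c + dot (phy τ.1 y) c' +
        ∑ j, ∑ i, Mt Q.g τ i j * (y' j * y i + y j * y' i) := by
    simp only [phy, dot_sum_left, dot_smul_left]
    rw [← sum_add_distrib, ← sum_add_distrib]
    refine sum_congr rfl fun j _ => ?_
    have h2 : ∑ i, Mt Q.g τ i j * (y' j * y i + y j * y' i) =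
        y' j * ∑ i, Mt Q.g τ i j * (y i + y j) + y j * ∑ i, Mt Q.g τ i j * (y' i + y' j) := by
      rw [mul_sum, mul_sum, ← sum_add_distrib]
      refine sum_congr rfl fun i _ => ?_
      have h3 := add_self (Mt Q.g τ i j * (y j * y' j))
      linear_combination -h3
    rw [h2]
    have h4 := add_self (y j * y' j * dot (τ.1 j) w)
    simp only [cnd]
    linear_combination h4
  rw [h1, sum_Mt Q τ (fun i j => y' j * y i + y j * y' i) (fun i j => by ring)]
  have h3 := sum_g Q τ.1 (fun i j => y i * y' j)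
  have h4 : ∑ j, ∑ i, Q.g (τ.1 i) (τ.1 j) * (y i * y' j) = Q.g (phy τ.1 y) (phy τ.1 y') := by
    rw [Q.symm, phy, Q.sum_left]
    refine sum_congr rfl fun j _ => ?_
    rw [Q.smul_left, Q.symm, phy, Q.sum_left, mul_sum]
    refine sum_congr rfl fun i _ => ?_
    rw [Q.smul_left]
    ring
  have h5 : ∑ i, dot (τ.1 i) Q.n * (y i * y' i) = dot (phy τ.1 (fun j => y j * y' j)) Q.n := by
    rw [phy, dot_sum_left]
    refine sum_congr rfl fun i _ => ?_
    rw [dot_smul_left, mul_comm]
  rw [h4, h5] at h3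
  have h6 : ∑ p : Pr k, Q.g (τ.1 p.1.1) (τ.1 p.1.2) * (y' p.1.2 * y p.1.1 + y p.1.2 * y' p.1.1) =
      Q.g (phy τ.1 y) (phy τ.1 y') + dot (phy τ.1 (fun j => y j * y' j)) Q.n := by
    rw [h3, add_assoc, add_self, add_zero]
    refine sum_congr rfl fun p _ => ?_
    ring
  rw [h6]
  simp only [Frm.B]
  ring

end Pool.Agent.Q7.LM
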