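import Pool.Agent.Q7.LM.Bas

/-!
# Three moments for tables of residue symbols: character sums over the pair symbols
-/

set_option autoImplicit false

namespace Pool.Agent.Q7.LM

open Finset Pool.Agent.Q283.LQ

variable {f k t : ℕ}

theorem sum_chi2 (x : Fin t → Fin k → ZMod 2) :
    ∑ l : Fin t → Fin k → ZMod 2, chi (∑ s, ∑ j, l s j * x s j) =
      if ∀ s j, x s j = 0 then 2 ^ (t * k) else 0 := by
  have h := sum_chi (I := Fin t × Fin k) (fun p => x p.1 p.2)
  rw [Fintype.card_prod, Fintype.card_fin, Fintype.card_fin] at h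
  have h2 : (∀ p : Fin t × Fin k, x p.1 p.2 = 0) ↔ ∀ s j, x s j = 0 :=
    ⟨fun h s j => h (s, j), fun h p => h p.1 p.2⟩
  simp only [h2] at h
  rw [← h]
  refine Fintype.sum_equiv (Equiv.curry (Fin t) (Fin k) (ZMod 2)).symm _ _ fun l => ?_
  rw [Fintype.sum_prod_type]
  rfl

/-- the coefficient of the pair symbol `m_(ij)` -/
def kap (l Y : Fin t → Fin k → ZMod 2) (i j : Fin k) : ZMod 2 :=
  ∑ s, (l s i + l s j) * (Y s i + Y s j)

theorem kap_symm (l Y : Fin t → Fin k → ZMod 2) (i j : Fin k) : kap l Y i j = kap l Y j i := by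
  unfold kap
  refine sum_congr rfl fun s _ => ?_
  ring

theorem kap_self (l Y : Fin t → Fin k → ZMod 2) (i : Fin k) : kap l Y i i = 0 := by
  unfold kap
  refine sum_eq_zero fun s _ => ?_
  rw [add_self, zero_mul]

/-- the combination of the conditions -/
def Af (Q : Frm f) (w : Vv f) (τ : Tab f k) (C : Fin t → Vv f) (Y l : Fin t → Fin k → ZMod 2) : ZMod 2 :=
  ∑ s, ∑ j, l s j * cnd Q.g w τ (C s) (Y s) j

theorem Mt_shift (g : Vv f → Vv f → ZMod 2) (φ : Fin k → Vv f) (m μ : Pr k → ZMod 2) (i j : Fin k) :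
    Mt g (φ, m + μ) i j = Mt g (φ, m) i j + Mt (fun _ _ => 0) (φ, μ) i j := by
  unfold Mt
  split_ifs
  · rfl
  · simp only [Pi.add_apply]
    ring
  · simp

theorem Af_shift (Q : Frm f) (w : Vv f) (φ : Fin k → Vv f) (m μ : Pr k → ZMod 2) (C : Fin t → Vv f)
    (Y l : Fin t → Fin k → ZMod 2) :
    Af Q w (φ, m + μ) C Y l = Af Q w (φ, m) C Y l + ∑ p : Pr k, μ p * kap l Y p.1.1 p.1.2 := by
  have h1 : ∀ s j, l s j * cnd Q.g w (φ, m + μ) (C s) (Y s) j =
      l s j * cnd Q.g w (φ, m) (C s) (Y s) j +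
        ∑ i, Mt (fun _ _ => 0) (φ, μ) i j * (l s j * (Y s i + Y s j)) := by
    intro s j
    simp only [cnd, Mt_shift, add_mul, sum_add_distrib, mul_add, mul_sum]
    have h2 : ∀ i, l s j * (Mt (fun _ _ => 0) (φ, μ) i j * Y s i) =
        Mt (fun _ _ => 0) (φ, μ) i j * (l s j * Y s i) := fun i => by ring
    have h3 : ∀ i, l s j * (Mt (fun _ _ => 0) (φ, μ) i j * Y s j) =
        Mt (fun _ _ => 0) (φ, μ) i j * (l s j * Y s j) := fun i => by ring
    simp only [h2, h3]
    ring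
  unfold Af
  simp only [h1, sum_add_distrib]
  congr 1
  rw [sum_comm]
  have h4 : ∀ j, ∑ s, ∑ i, Mt (fun _ _ => 0) (φ, μ) i j * (l s j * (Y s i + Y s j)) =
      ∑ i, Mt (fun _ _ => 0) (φ, μ) i j * ∑ s, l s j * (Y s i + Y s j) := by
    intro j
    rw [sum_comm]
    refine sum_congr rfl fun i _ => ?_
    rw [mul_sum]
  simp only [h4]
  rw [sum_pairs]
  rw [sum_eq_zero (s := univ) (f := fun i => Mt (fun _ _ => 0) (φ, μ) i i * _)
    (fun i _ => by rw [Mt_self, zero_mul]), add_zero]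
  refine sum_congr rfl fun p _ => ?_
  have h5 : Mt (fun _ _ => 0) (φ, μ) p.1.1 p.1.2 = μ p := by
    simp [Mt, p.2]
  have h6 : Mt (fun _ _ => 0) (φ, μ) p.1.2 p.1.1 = μ p := by
    simp [Mt, p.2, p.2.not_gt]
  rw [h5, h6, ← mul_add, ← sum_add_distrib]
  congr 1
  unfold kap
  refine sum_congr rfl fun s _ => ?_
  ring

open Classical in
/-- the number of the pair symbols for which all conditions hold -/
noncomputable def cntm (Q : Frm f) (w : Vv f) (φ : Fin k → Vv f) (C : Fin t → Vv f)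
    (Y : Fin t → Fin k → ZMod 2) : ℝ :=
  ∑ m : Pr k → ZMod 2, if ∀ s j, cnd Q.g w (φ, m) (C s) (Y s) j = 0 then 1 else 0

/-- the combinations which do not depend on the pair symbols -/
def KY (Y l : Fin t → Fin k → ZMod 2) : Prop := ∀ i j, kap l Y i j = 0

theorem sum_Af_of_not (Q : Frm f) (w : Vv f) (φ : Fin k → Vv f) (C : Fin t → Vv f)
    (Y l : Fin t → Fin k → ZMod 2) (h : ¬ KY Y l) :
    ∑ m : Pr k → ZMod 2, chi (Af Q w (φ, m) C Y l) = 0 := by
  classical
  have h1 : ∃ p : Pr k, kap l Y p.1.1 p.1.2 = 1 := by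
    unfold KY at h
    push Not at h
    obtain ⟨i, j, hij⟩ := h
    rcases lt_trichotomy i j with h2 | h2 | h2
    · exact ⟨⟨(i, j), h2⟩, z2ne hij⟩
    · subst h2
      exact absurd (kap_self l Y i) hij
    · refine ⟨⟨(j, i), h2⟩, z2ne ?_⟩
      rwa [kap_symm] at hij
  obtain ⟨p, hp⟩ := h1
  have h2 : ∑ m : Pr k → ZMod 2, chi (Af Q w (φ, m) C Y l) =
      ∑ m : Pr k → ZMod 2, chi (Af Q w (φ, m + Pi.single p 1) C Y l) :=
    (Fintype.sum_equiv (Equiv.addRight (Pi.single p 1 : Pr k → ZMod 2)) _ _ fun m => rfl).symm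
  have h3 : ∀ m, chi (Af Q w (φ, m + Pi.single p 1) C Y l) = -chi (Af Q w (φ, m) C Y l) := by
    intro m
    rw [Af_shift, Finset.sum_eq_single p, Pi.single_eq_same, one_mul, hp, chi_add, chi_one]
    · ring
    · intro q _ hq
      rw [Pi.single_eq_of_ne hq, zero_mul]
    · intro h; exact absurd (mem_univ p) h
  simp only [h3, sum_neg_distrib] at h2
  linarith

theorem Af_const (Q : Frm f) (w : Vv f) (φ : Fin k → Vv f) (m : Pr k → ZMod 2) (C : Fin t → Vv f)
    (Y l : Fin t → Fin k → ZMod 2) (h : KY Y l) : Af Q w (φ, m) C Y l = Af Q w (φ, 0) C Y l := by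
  have h1 := Af_shift Q w φ 0 m C Y l
  rw [zero_add] at h1
  rw [h1, sum_eq_zero, add_zero]
  intro p _
  rw [h, mul_zero]

open Classical in
theorem cntm_eq (Q : Frm f) (w : Vv f) (φ : Fin k → Vv f) (C : Fin t → Vv f)
    (Y : Fin t → Fin k → ZMod 2) :
    cntm Q w φ C Y * 2 ^ (t * k) = 2 ^ Fintype.card (Pr k) *
      ∑ l ∈ univ.filter (KY Y), chi (Af Q w (φ, 0) C Y l) := by
  have h1 : cntm Q w φ C Y * 2 ^ (t * k) =
      ∑ m : Pr k → ZMod 2, ∑ l : Fin t → Fin k → ZMod 2, chi (Af Q w (φ, m) C Y l) := by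
    unfold cntm
    rw [sum_mul]
    refine sum_congr rfl fun m _ => ?_
    have h2 := sum_chi2 (fun s j => cnd Q.g w (φ, m) (C s) (Y s) j)
    unfold Af
    rw [h2]
    split_ifs <;> simp
  rw [h1, sum_comm, ← sum_filter_add_sum_filter_not univ (KY Y),
    sum_eq_zero (s := filter (fun l => ¬ KY Y l) univ)
      (fun l hl => sum_Af_of_not Q w φ C Y l (mem_filter.1 hl).2), add_zero, mul_sum]
  refine sum_congr rfl fun l hl => ?_
  have h3 : ∀ m : Pr k → ZMod 2, chi (Af Q w (φ, m) C Y l) = chi (Af Q w (φ, 0) C Y l) := fun m => by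
    rw [Af_const Q w φ m C Y l (mem_filter.1 hl).2]
  simp only [h3, sum_const, card_univ, nsmul_eq_mul]
  rw [Fintype.card_fun, ZMod.card]
  push_cast
  ring

/-! ### Surjective families -/

/-- all values occur -/
def Sj (Y : Fin t → Fin k → ZMod 2) : Prop := ∀ v : Fin t → ZMod 2, ∃ j, ∀ s, Y s j = v s

/-- the symmetric matrix with zero diagonal -/
def Wm (W : Pr t → ZMod 2) (s r : Fin t) : ZMod 2 :=
  if h : s < r then W ⟨(s, r), h⟩ else if h : r < s then W ⟨(r, s), h⟩ else 0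

theorem Wm_symm (W : Pr t → ZMod 2) (s r : Fin t) : Wm W s r = Wm W r s := by
  unfold Wm
  rcases lt_trichotomy s r with h | h | h
  · simp [h, h.not_gt]
  · subst h; rfl
  · simp [h, h.not_gt]

theorem Wm_self (W : Pr t → ZMod 2) (s : Fin t) : Wm W s s = 0 := by simp [Wm]

theorem Wm_pair (W : Pr t → ZMod 2) (p : Pr t) : Wm W p.1.1 p.1.2 = W p := by
  simp [Wm, p.2]

/-- the combinations `c + W Y` -/
def lam (Y : Fin t → Fin k → ZMod 2) (x : (Fin t → ZMod 2) × (Pr t → ZMod 2)) : Fin t → Fin k → ZMod 2 :=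
  fun s j => x.1 s + ∑ r, Wm x.2 s r * Y r j

theorem lam_mem (Y : Fin t → Fin k → ZMod 2) (x : (Fin t → ZMod 2) × (Pr t → ZMod 2)) :
    KY Y (lam Y x) := by
  intro i j
  unfold kap lam
  have h1 : ∀ s, (x.1 s + ∑ r, Wm x.2 s r * Y r i + (x.1 s + ∑ r, Wm x.2 s r * Y r j)) *
      (Y s i + Y s j) = ∑ r, Wm x.2 s r * ((Y r i + Y r j) * (Y s i + Y s j)) := by
    intro s
    have h2 : x.1 s + ∑ r, Wm x.2 s r * Y r i + (x.1 s + ∑ r, Wm x.2 s r * Y r j) =
        ∑ r, Wm x.2 s r * (Y r i + Y r j) := by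
      simp only [mul_add, sum_add_distrib]
      have := add_self (x.1 s)
      linear_combination this
    rw [h2, sum_mul]
    refine sum_congr rfl fun r _ => ?_
    ring
  simp only [h1]
  rw [sum_pairs (F := fun r s => Wm x.2 s r * ((Y r i + Y r j) * (Y s i + Y s j)))]
  rw [sum_eq_zero (s := univ) (f := fun s => Wm x.2 s s * _) (fun s _ => by rw [Wm_self, zero_mul]),
    add_zero]
  refine sum_eq_zero fun p _ => ?_
  rw [Wm_symm x.2 p.1.2 p.1.1]
  have := add_self (Wm x.2 p.1.1 p.1.2 * ((Y p.1.1 i + Y p.1.1 j) * (Y p.1.2 i + Y p.1.2 j)))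
  linear_combination this

theorem lam_inj (Y : Fin t → Fin k → ZMod 2) (hY : Sj Y) : Function.Injective (lam Y) := by
  classical
  intro x x' h
  obtain ⟨j0, h0⟩ := hY 0
  have h1 : x.1 = x'.1 := by
    funext s
    have h2 := congrFun (congrFun h s) j0
    simpa [lam, h0] using h2
  refine Prod.ext h1 ?_
  funext p
  obtain ⟨j, hj⟩ := hY (Pi.single p.1.2 1)
  have h2 := congrFun (congrFun h p.1.1) j
  simp only [lam, hj, h1, add_right_inj] at h2
  rw [Finset.sum_eq_single p.1.2, Finset.sum_eq_single p.1.2] at h2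
  · simpa [Wm_pair] using h2
  · intro r _ hr; rw [Pi.single_eq_of_ne hr, mul_zero]
  · intro h; exact absurd (mem_univ _) h
  · intro r _ hr; rw [Pi.single_eq_of_ne hr, mul_zero]
  · intro h; exact absurd (mem_univ _) h

theorem exists_lam (Y l : Fin t → Fin k → ZMod 2) (hY : Sj Y) (hl : KY Y l) : ∃ x, lam Y x = l := by
  classical
  obtain ⟨j0, h0⟩ := hY 0
  have hY2 : ∀ r : Fin t, ∃ j, ∀ s, Y s j = (Pi.single r 1 : Fin t → ZMod 2) s := fun r => hY _
  choose jr hjr using hY2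
  have e1 : ∀ r (F : Fin t → ZMod 2), ∑ s, F s * (Pi.single r 1 : Fin t → ZMod 2) s = F r := by
    intro r F
    rw [Finset.sum_eq_single r, Pi.single_eq_same, mul_one]
    · intro s _ hs; rw [Pi.single_eq_of_ne hs, mul_zero]
    · intro h; exact absurd (mem_univ _) h
  -- a s r
  have a1 : ∀ r, l r (jr r) = l r j0 := by
    intro r
    have h := hl j0 (jr r)
    unfold kap at h
    simp only [h0, hjr, Pi.zero_apply, zero_add] at h
    rw [e1 r (fun s => l s j0 + l s (jr r))] at h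
    exact (CharTwo.add_eq_zero.1 h).symm
  have a2 : ∀ s r, l s (jr r) + l s j0 = l r (jr s) + l r j0 := by
    intro s r
    have h := hl (jr s) (jr r)
    unfold kap at h
    simp only [hjr, mul_add, sum_add_distrib] at h
    rw [e1 s (fun q => l q (jr s) + l q (jr r)), e1 r (fun q => l q (jr s) + l q (jr r))] at h
    rw [a1 s, a1 r] at h
    have h3 := add_self (l r (jr s) + l r j0)
    linear_combination h - h3
  have a3 : ∀ r j, l r j + l r j0 = ∑ s, (l s (jr r) + l s j0) * Y s j := by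
    intro r j
    have h := hl j0 j
    have h' := hl (jr r) j
    unfold kap at h h'
    simp only [h0, Pi.zero_apply, zero_add] at h
    simp only [hjr, mul_add, sum_add_distrib] at h'
    rw [e1 r (fun s => l s (jr r) + l s j)] at h'
    rw [a1 r] at h'
    have h4 : ∑ s, (l s (jr r) + l s j0) * Y s j =
        ∑ s, (l s (jr r) + l s j) * Y s j + ∑ s, (l s j0 + l s j) * Y s j := by
      rw [← sum_add_distrib]
      refine sum_congr rfl fun s _ => ?_
      have := add_self (l s j * Y s j)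
      linear_combination -this
    rw [h4, h, add_zero]
    have h5 := add_self (l r j + l r j0)
    linear_combination h5 - h'
  refine ⟨(fun s => l s j0, fun p => l p.1.1 (jr p.1.2) + l p.1.1 j0), ?_⟩
  funext s j
  unfold lam
  have h5 : ∀ r, Wm (fun p : Pr t => l p.1.1 (jr p.1.2) + l p.1.1 j0) s r = l r (jr s) + l r j0 := by
    intro r
    unfold Wm
    split_ifs with h6 h7
    · exact a2 s r
    · rfl
    · have h8 : s = r := le_antisymm (not_lt.1 h7) (not_lt.1 h6)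
      subst h8
      rw [a1, add_self]
  simp only [h5]
  rw [← a3 s j]
  have := add_self (l s j0)
  linear_combination this

theorem Af_lam (Q : Frm f) (w : Vv f) (τ : Tab f k) (C : Fin t → Vv f) (Y : Fin t → Fin k → ZMod 2)
    (x : (Fin t → ZMod 2) × (Pr t → ZMod 2)) :
    Af Q w τ C Y (lam Y x) =
      ∑ s, x.1 s * Q.B (phy τ.1 (Y s), C s) (∑ j, τ.1 j, w + Q.n) +
        ∑ p : Pr t, x.2 p * (Q.B (phy τ.1 (Y p.1.1), C p.1.1) (phy τ.1 (Y p.1.2), C p.1.2) +
          dot (phy τ.1 (fun j => Y p.1.1 j * Y p.1.2 j)) Q.n) := by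
  unfold Af lam
  have h1 : ∀ s, ∑ j, (x.1 s + ∑ r, Wm x.2 s r * Y r j) * cnd Q.g w τ (C s) (Y s) j =
      x.1 s * Q.B (phy τ.1 (Y s), C s) (∑ j, τ.1 j, w + Q.n) +
        ∑ r, Wm x.2 s r * ∑ j, Y r j * cnd Q.g w τ (C s) (Y s) j := by
    intro s
    rw [← R1 Q w τ (C s) (Y s), mul_sum]
    have h2 : ∀ r, Wm x.2 s r * ∑ j, Y r j * cnd Q.g w τ (C s) (Y s) j =
        ∑ j, Wm x.2 s r * Y r j * cnd Q.g w τ (C s) (Y s) j := fun r => by
      rw [mul_sum]
      exact sum_congr rfl fun j _ => by ring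
    simp only [h2]
    rw [sum_comm, ← sum_add_distrib]
    refine sum_congr rfl fun j _ => ?_
    rw [add_mul, sum_mul]
  simp only [h1, sum_add_distrib]
  congr 1
  rw [sum_pairs (F := fun r s => Wm x.2 s r * ∑ j, Y r j * cnd Q.g w τ (C s) (Y s) j)]
  rw [sum_eq_zero (s := univ) (f := fun s => Wm x.2 s s * _) (fun s _ => by rw [Wm_self, zero_mul]),
    add_zero]
  refine sum_congr rfl fun p _ => ?_
  rw [Wm_symm x.2 p.1.2 p.1.1, Wm_pair, ← mul_add, ← R2 Q w τ]
  congr 1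
  rw [sum_add_distrib, add_comm]

open Classical in
/-- the character sum for surjective families -/
theorem sum_KY (Q : Frm f) (w : Vv f) (τ : Tab f k) (C : Fin t → Vv f) (Y : Fin t → Fin k → ZMod 2)
    (hY : Sj Y) :
    ∑ l ∈ univ.filter (KY Y), chi (Af Q w τ C Y l) =
      (if ∀ s, Q.B (phy τ.1 (Y s), C s) (∑ j, τ.1 j, w + Q.n) = 0 then 2 ^ t else 0) *
        ∑ W : Pr t → ZMod 2, chi (∑ p, W p *
          (Q.B (phy τ.1 (Y p.1.1), C p.1.1) (phy τ.1 (Y p.1.2), C p.1.2) +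
          dot (phy τ.1 (fun j => Y p.1.1 j * Y p.1.2 j)) Q.n)) := by
  have h1 : ∑ l ∈ univ.filter (KY Y), chi (Af Q w τ C Y l) =
      ∑ x : (Fin t → ZMod 2) × (Pr t → ZMod 2), chi (Af Q w τ C Y (lam Y x)) := by
    symm
    refine Finset.sum_bij (fun x _ => lam Y x) ?_ ?_ ?_ ?_
    · intro x _
      exact mem_filter.2 ⟨mem_univ _, lam_mem Y x⟩
    · intro x _ x' _ h
      exact lam_inj Y hY h
    · intro l hl
      obtain ⟨x, hx⟩ := exists_lam Y l hY (mem_filter.1 hl).2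
      exact ⟨x, mem_univ _, hx⟩
    · intro x _; rfl
  rw [h1, Fintype.sum_prod_type]
  have h2 : ∑ c : Fin t → ZMod 2, chi (∑ s, c s * Q.B (phy τ.1 (Y s), C s) (∑ j, τ.1 j, w + Q.n)) =
      (if ∀ s, Q.B (phy τ.1 (Y s), C s) (∑ j, τ.1 j, w + Q.n) = 0 then (2 : ℝ) ^ t else 0) := by
    rw [sum_chi, Fintype.card_fin]
    congr
  rw [← h2, sum_mul]
  refine sum_congr rfl fun c _ => ?_
  rw [mul_sum]
  refine sum_congr rfl fun W _ => ?_
  rw [Af_lam, chi_add]

end Pool.Agent.Q7.LM
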