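import Pool.Agent.Q7.LM.Ptw

/-!
# Three moments for tables of residue symbols: the sums over the tables
-/

set_option autoImplicit false

namespace Pool.Agent.Q7.LM

open Finset Pool.Agent.Q283.LQ

variable {f k t : ℕ}

open Classical in
/-- the sum over the pair symbols -/
theorem sum_m (Q : Frm f) (w : Vv f) (E : Finset (Vv f × Vv f)) (P : (Fin t → Fin k → ZMod 2) → Prop)
    (φ : Fin k → Vv f) :
    ∑ m : Pr k → ZMod 2, Nt Q w E P (φ, m) =
      ∑ Y ∈ univ.filter P, ∑ C : Fin t → Vv f,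
        if ∀ s, (phy φ (Y s), C s) ∈ E then cntm Q w φ C Y else 0 := by
  have h1 : ∀ m : Pr k → ZMod 2, Nt Q w E P (φ, m) = ∑ Y : Fin t → Fin k → ZMod 2, ∑ C : Fin t → Vv f,
      if P Y then (if ∀ s, (phy φ (Y s), C s) ∈ E then
        (if ∀ s j, cnd Q.g w (φ, m) (C s) (Y s) j = 0 then (1 : ℝ) else 0) else 0) else 0 := by
    intro m
    unfold Nt
    have e1 : ∑ a ∈ Fintype.piFinset (fun _ : Fin t => SolS Q w E (φ, m)),
        (if P (fun s => (a s).2) then (1 : ℝ) else 0) =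
        ∑ a : Fin t → Vv f × (Fin k → ZMod 2), if ∀ s, a s ∈ SolS Q w E (φ, m) then
          (if P (fun s => (a s).2) then (1 : ℝ) else 0) else 0 := by
      have e0 : Fintype.piFinset (fun _ : Fin t => SolS Q w E (φ, m)) =
          univ.filter (fun a => ∀ s, a s ∈ SolS Q w E (φ, m)) := by
        ext a
        simp [Fintype.mem_piFinset]
      rw [e0, sum_filter]
    rw [e1, sum_comm]
    rw [← Fintype.sum_prod_type' (f := fun (C : Fin t → Vv f) (Y : Fin t → Fin k → ZMod 2) =>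
      if P Y then (if ∀ s, (phy φ (Y s), C s) ∈ E then
        (if ∀ s j, cnd Q.g w (φ, m) (C s) (Y s) j = 0 then (1 : ℝ) else 0) else 0) else 0)]
    refine Fintype.sum_equiv (Equiv.arrowProdEquivProdArrow (Fin t) (fun _ => Vv f)
      (fun _ => Fin k → ZMod 2)) _ _ fun a => ?_
    change _ = if P (fun s => (a s).2) then (if ∀ s, (phy φ (a s).2, (a s).1) ∈ E then
        (if ∀ s j, cnd Q.g w (φ, m) (a s).1 (a s).2 j = 0 then (1 : ℝ) else 0) else 0) else 0
    by_cases hP : P (fun s => (a s).2)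
    · rw [if_pos hP, if_pos hP]
      by_cases hE : ∀ s, (phy φ (a s).2, (a s).1) ∈ E
      · rw [if_pos hE]
        refine if_congr ⟨fun h s => (mem_SolS.1 (h s)).2, fun h s => mem_SolS.2 ⟨hE s, h s⟩⟩ rfl rfl
      · rw [if_neg hE, if_neg]
        exact fun h => hE fun s => (mem_SolS.1 (h s)).1
    · rw [if_neg hP, if_neg hP, ite_self]
  rw [sum_congr rfl fun m _ => h1 m, sum_comm, sum_filter]
  refine sum_congr rfl fun Y _ => ?_
  rw [sum_comm]
  by_cases hP : P Y
  · rw [if_pos hP]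
    refine sum_congr rfl fun C _ => ?_
    by_cases hE : ∀ s, (phy φ (Y s), C s) ∈ E
    · simp only [if_pos hP, if_pos hE]
      rfl
    · simp only [if_pos hP, if_neg hE, sum_const_zero]
  · simp only [if_neg hP, sum_const_zero]

/-- the symbols with given sum -/
def Fs (k : ℕ) (ψ : Vv f) : Finset (Fin k → Vv f) := univ.filter (fun φ => ∑ j, φ j = ψ)

/-- the tables with given sum -/
def Om (k : ℕ) (ψ : Vv f) : Finset (Tab f k) := univ.filter (fun τ => ∑ j, τ.1 j = ψ)

theorem sum_Om (ψ : Vv f) (G : Tab f k → ℝ) :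
    ∑ τ ∈ Om k ψ, G τ = ∑ φ ∈ Fs k ψ, ∑ m : Pr k → ZMod 2, G (φ, m) := by
  classical
  unfold Om Fs
  rw [sum_filter, sum_filter, Fintype.sum_prod_type]
  refine sum_congr rfl fun φ _ => ?_
  by_cases h : ∑ j, φ j = ψ
  · simp [h]
  · simp [h]

theorem card_Fs (hk : 0 < k) (ψ : Vv f) : ((Fs k ψ).card : ℝ) * 2 ^ f = 2 ^ (f * k) := by
  have h := card_Phi (f := f) (t := 0) (k := k) (fun s => s.elim0) (fun v => ⟨⟨0, hk⟩, fun s => s.elim0⟩) ψ
    (fun s => s.elim0)
  rw [zero_add, mul_one] at h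
  rw [← h]
  congr 2
  congr 1
  ext φ
  simp [Fs, Phi]

theorem card_Om (ψ : Vv f) : ((Om k ψ).card : ℝ) = (Fs k ψ).card * 2 ^ Fintype.card (Pr k) := by
  have h := sum_Om (k := k) ψ (fun _ => 1)
  simp only [sum_const, nsmul_eq_mul, mul_one] at h
  rw [h]
  simp

theorem Fs_pos (hk : 0 < k) (ψ : Vv f) : 0 < ((Fs k ψ).card : ℝ) := by
  have h := card_Fs hk ψ
  by_contra hc
  have h1 : ((Fs k ψ).card : ℝ) = 0 := le_antisymm (not_lt.1 hc) (Nat.cast_nonneg _)
  rw [h1, zero_mul] at h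
  exact absurd h.symm (by positivity)

open Classical in
theorem card_not_Sj : ((univ.filter (fun Y : Fin t → Fin k → ZMod 2 => ¬ Sj Y)).card : ℝ) ≤
    2 ^ t * (2 ^ t - 1) ^ k := by
  have h1 : (univ.filter (fun Y : Fin t → Fin k → ZMod 2 => ¬ Sj Y)) ⊆
      univ.biUnion (fun v : Fin t → ZMod 2 => univ.filter
        (fun Y : Fin t → Fin k → ZMod 2 => ∀ j, (fun s => Y s j) ≠ v)) := by
    intro Y hY
    rw [mem_filter] at hY
    have h2 := hY.2
    unfold Sj at h2
    push Not at h2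
    obtain ⟨v, hv⟩ := h2
    rw [mem_biUnion]
    refine ⟨v, mem_univ _, mem_filter.2 ⟨mem_univ _, fun j hj => ?_⟩⟩
    obtain ⟨s, hs⟩ := hv j
    exact hs (congrFun hj s)
  have h3 : ∀ v : Fin t → ZMod 2, (univ.filter
      (fun Y : Fin t → Fin k → ZMod 2 => ∀ j, (fun s => Y s j) ≠ v)).card ≤ (2 ^ t - 1) ^ k := by
    intro v
    have h4 : (Fintype.piFinset (fun _ : Fin k => (univ.erase v : Finset (Fin t → ZMod 2)))).card =
        (2 ^ t - 1) ^ k := by
      rw [Fintype.card_piFinset, prod_const, card_erase_of_mem (mem_univ _), card_univ, card_univ,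
        Fintype.card_fin, Fintype.card_fun, ZMod.card, Fintype.card_fin]
    rw [← h4]
    refine card_le_card_of_injOn (fun Y j s => Y s j) ?_ ?_
    · intro Y hY
      rw [coe_filter] at hY
      rw [mem_coe, Fintype.mem_piFinset]
      intro j
      rw [mem_erase]
      exact ⟨hY.2 j, mem_univ _⟩
    · intro Y _ Y' _ h
      funext s j
      exact congrFun (congrFun h j) s
  have h5 := (card_le_card h1).trans (card_biUnion_le.trans (sum_le_sum fun v _ => h3 v))
  rw [sum_const, card_univ, Fintype.card_fun, ZMod.card, Fintype.card_fin, smul_eq_mul] at h5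
  have h6 : ((2 ^ t * (2 ^ t - 1) ^ k : ℕ) : ℝ) = 2 ^ t * (2 ^ t - 1) ^ k := by
    rw [Nat.cast_mul, Nat.cast_pow, Nat.cast_pow, Nat.cast_sub Nat.one_le_two_pow]
    push_cast
    rfl
  rw [← h6]
  exact_mod_cast h5

theorem card_H {c : Vv f} (hc : c ≠ 0) :
    (univ.filter (fun a : Vv f => dot a c = 0)).card * 2 = 2 ^ f := by
  classical
  let L : Vv f →+ ZMod 2 :=
    { toFun := fun a => dot a c
      map_zero' := dot_zero_left c
      map_add' := fun a b => dot_add_left a b c }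
  have hL : Function.Surjective L := by
    obtain ⟨i, hi⟩ := Function.ne_iff.1 hc
    intro x
    refine ⟨Pi.single i x, ?_⟩
    change dot (Pi.single i x) c = x
    unfold dot
    rw [sum_eq_single i]
    · rw [Pi.single_eq_same, z2ne hi, mul_one]
    · intro j _ hj
      rw [Pi.single_eq_of_ne hj, zero_mul]
    · intro h
      exact absurd (mem_univ _) h
  have h := card_fib L hL 0
  rw [ZMod.card, Fintype.card_fun, ZMod.card, Fintype.card_fin] at h
  exact h

open Classical in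
theorem card_Exc : ((univ.filter (fun φ : Fin k → Vv f => Exc φ)).card : ℝ) * 2 ^ k ≤
    2 ^ f * 2 ^ (f * k) := by
  have h1 : (univ.filter (fun φ : Fin k → Vv f => Exc φ)) ⊆
      univ.biUnion (fun c : Vv f => univ.filter (fun φ : Fin k → Vv f => c ≠ 0 ∧ ∀ j, dot (φ j) c = 0)) := by
    intro φ hφ
    rw [mem_filter] at hφ
    obtain ⟨c, hc, h⟩ := hφ.2
    rw [mem_biUnion]
    exact ⟨c, mem_univ _, mem_filter.2 ⟨mem_univ _, hc, h⟩⟩
  have h3 : ∀ c : Vv f, (univ.filter
      (fun φ : Fin k → Vv f => c ≠ 0 ∧ ∀ j, dot (φ j) c = 0)).card * 2 ^ k ≤ 2 ^ (f * k) := by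
    intro c
    by_cases hc : c = 0
    · subst hc
      simp
    · have h4 : (univ.filter (fun φ : Fin k → Vv f => c ≠ 0 ∧ ∀ j, dot (φ j) c = 0)) =
          Fintype.piFinset (fun _ : Fin k => univ.filter (fun a : Vv f => dot a c = 0)) := by
        ext φ
        simp [Fintype.mem_piFinset, hc]
      rw [h4, Fintype.card_piFinset, prod_const, card_univ, Fintype.card_fin, ← mul_pow, card_H hc,
        ← pow_mul]
  have h5 : (univ.filter (fun φ : Fin k → Vv f => Exc φ)).card * 2 ^ k ≤ 2 ^ f * 2 ^ (f * k) := by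
    calc _ ≤ (∑ c : Vv f, (univ.filter
          (fun φ : Fin k → Vv f => c ≠ 0 ∧ ∀ j, dot (φ j) c = 0)).card) * 2 ^ k :=
          Nat.mul_le_mul_right _ ((card_le_card h1).trans card_biUnion_le)
      _ = ∑ c : Vv f, (univ.filter
          (fun φ : Fin k → Vv f => c ≠ 0 ∧ ∀ j, dot (φ j) c = 0)).card * 2 ^ k := sum_mul _ _ _
      _ ≤ ∑ _c : Vv f, 2 ^ (f * k) := sum_le_sum fun c _ => h3 c
      _ = 2 ^ f * 2 ^ (f * k) := by
          rw [sum_const, card_univ, Fintype.card_fun, ZMod.card, Fintype.card_fin, smul_eq_mul]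
  exact_mod_cast h5

open Classical in
/-- the crude bound for one family -/
theorem TY_le (Q : Frm f) (w : Vv f) (E : Finset (Vv f × Vv f)) (Y : Fin t → Fin k → ZMod 2)
    (hY : Nd Y) (T : Finset (Fin k → Vv f)) :
    (∑ φ ∈ T, ∑ C : Fin t → Vv f, (if ∀ s, (phy φ (Y s), C s) ∈ E then cntm Q w φ C Y else 0)) *
      2 ^ (t * k) ≤ T.card * (2 ^ (f * t) * (2 ^ Fintype.card (Pr k) * 2 ^ (t * 2 ^ t))) := by
  rw [sum_mul]
  have h1 : ∀ φ ∈ T, (∑ C : Fin t → Vv f, (if ∀ s, (phy φ (Y s), C s) ∈ E then cntm Q w φ C Y else 0)) *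
      2 ^ (t * k) ≤ 2 ^ (f * t) * (2 ^ Fintype.card (Pr k) * 2 ^ (t * 2 ^ t)) := by
    intro φ _
    rw [sum_mul]
    have h2 : ∀ C : Fin t → Vv f, (if ∀ s, (phy φ (Y s), C s) ∈ E then cntm Q w φ C Y else 0) *
        2 ^ (t * k) ≤ 2 ^ Fintype.card (Pr k) * 2 ^ (t * 2 ^ t) := by
      intro C
      split_ifs
      · exact cntm_le Q w φ C Y hY
      · rw [zero_mul]
        positivity
    refine (sum_le_sum fun C _ => h2 C).trans (le_of_eq ?_)
    rw [sum_const, card_univ, Fintype.card_fun, Fintype.card_fun, ZMod.card, Fintype.card_fin,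
      Fintype.card_fin, nsmul_eq_mul, ← pow_mul]
    push_cast
    rfl
  refine (sum_le_sum h1).trans (le_of_eq ?_)
  rw [sum_const, nsmul_eq_mul]

theorem Th_nonneg_le (Q : Frm f) (E : Finset (Vv f × Vv f)) (t : ℕ) :
    Th Q E t ≤ (E.card : ℝ) ^ t * 2 ^ Fintype.card (Pr t) := by
  classical
  unfold Th
  have h1 : ∀ e ∈ Fintype.piFinset (fun _ : Fin t => E), (∑ W : Pr t → ZMod 2,
      if Q.n = 0 ∨ W = 0 then chi (∑ p, W p * Q.B (e p.1.1) (e p.1.2)) else 0) ≤
        2 ^ Fintype.card (Pr t) := by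
    intro e _
    have h2 : ∀ W : Pr t → ZMod 2, (if Q.n = 0 ∨ W = 0 then
        chi (∑ p, W p * Q.B (e p.1.1) (e p.1.2)) else 0) ≤ (1 : ℝ) := by
      intro W
      split_ifs
      · exact chi_le _
      · exact zero_le_one
    refine (sum_le_sum fun W _ => h2 W).trans (le_of_eq ?_)
    rw [sum_const, card_univ, Fintype.card_fun, ZMod.card, nsmul_eq_mul, mul_one]
    push_cast
    rfl
  refine (sum_le_sum h1).trans (le_of_eq ?_)
  rw [sum_const, nsmul_eq_mul, Fintype.card_piFinset, prod_const, card_univ, Fintype.card_fin]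
  push_cast
  rfl

end Pool.Agent.Q7.LM
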