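import Pool.Agent.Q7.LM.Phs

/-!
# Three moments for tables of residue symbols: crude bounds and the values of the moments
-/

set_option autoImplicit false

namespace Pool.Agent.Q7.LM

open Finset Pool.Agent.Q283.LQ

variable {f k t : ℕ}

/-- no nontrivial combination is constant -/
def Nd (Y : Fin t → Fin k → ZMod 2) : Prop :=
  ∀ v : Fin t → ZMod 2, v ≠ 0 → ∃ i j, ∑ s, v s * (Y s i + Y s j) ≠ 0

theorem Sj.nd {Y : Fin t → Fin k → ZMod 2} (hY : Sj Y) : Nd Y := by
  classical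
  intro v hv
  have h1 : ∃ r, v r = 1 := by
    by_contra h
    push Not at h
    exact hv (funext fun p => (z2 (v p)).resolve_right (h p))
  obtain ⟨r, hr⟩ := h1
  obtain ⟨j0, h0⟩ := hY 0
  obtain ⟨j, hj⟩ := hY (Pi.single r 1)
  refine ⟨j0, j, ?_⟩
  simp only [h0, hj, Pi.zero_apply, zero_add]
  rw [Finset.sum_eq_single r, Pi.single_eq_same, hr, one_mul]
  · exact one_ne_zero
  · intro s _ hs; rw [Pi.single_eq_of_ne hs, mul_zero]
  · intro h; exact absurd (mem_univ _) h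

theorem kap_add (l l' Y : Fin t → Fin k → ZMod 2) (i j : Fin k) :
    kap (l + l') Y i j = kap l Y i j + kap l' Y i j := by
  unfold kap
  rw [← sum_add_distrib]
  refine sum_congr rfl fun s _ => ?_
  simp only [Pi.add_apply]
  ring

open Classical in
theorem card_KY (Y : Fin t → Fin k → ZMod 2) (hY : Nd Y) :
    (univ.filter (KY Y)).card ≤ 2 ^ (t * 2 ^ t) := by
  have h1 : Fintype.card ((Fin t → ZMod 2) → (Fin t → ZMod 2)) = 2 ^ (t * 2 ^ t) := by
    simp only [Fintype.card_fun, ZMod.card, Fintype.card_fin]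
    rw [← pow_mul]
  rw [← h1, ← Finset.card_univ]
  let rep : (Fin t → ZMod 2) → (Fin t → Fin k → ZMod 2) → (Fin t → ZMod 2) := fun v l =>
    if h : ∃ j, ∀ s, Y s j = v s then fun s => l s h.choose else 0
  refine Finset.card_le_card_of_injOn (fun l v => rep v l) (fun _ _ => mem_univ _) ?_
  intro l hl l' hl' h2
  have hl : KY Y l := (mem_filter.1 hl).2
  have hl' : KY Y l' := (mem_filter.1 hl').2
  have hd : KY Y (l + l') := fun i j => by rw [kap_add, hl, hl', add_zero]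
  -- representatives
  have h3 : ∀ i : Fin k, ∃ i' : Fin k, (∀ s, Y s i' = Y s i) ∧ ∀ s, (l + l') s i' = 0 := by
    intro i
    have h4 : ∃ j, ∀ s, Y s j = (fun s => Y s i) s := ⟨i, fun s => rfl⟩
    refine ⟨h4.choose, h4.choose_spec, fun s => ?_⟩
    have h5 : rep (fun s => Y s i) l = rep (fun s => Y s i) l' := congrFun h2 _
    have h6 : ∀ m : Fin t → Fin k → ZMod 2, rep (fun s => Y s i) m = fun s => m s h4.choose := fun m =>
      dif_pos h4
    rw [h6, h6] at h5
    have h7 := congrFun h5 s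
    simp only [Pi.add_apply]
    simp only at h7
    rw [h7, add_self]
  have h8 : l + l' = 0 := by
    funext s j
    by_contra h9
    have h10 : (fun s => (l + l') s j) ≠ 0 := fun h => h9 (congrFun h s)
    obtain ⟨i, i', h11⟩ := hY _ h10
    apply h11
    obtain ⟨r, hr1, hr2⟩ := h3 i
    obtain ⟨r', hr1', hr2'⟩ := h3 i'
    have e1 := hd j r
    have e2 := hd j r'
    unfold kap at e1 e2
    simp only [hr2, hr1, add_zero] at e1
    simp only [hr2', hr1', add_zero] at e2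
    have e3 : ∑ s, (l + l') s j * (Y s i + Y s i') =
        ∑ s, (l + l') s j * (Y s j + Y s i) + ∑ s, (l + l') s j * (Y s j + Y s i') := by
      rw [← sum_add_distrib]
      refine sum_congr rfl fun s _ => ?_
      have := add_self ((l + l') s j * Y s j)
      linear_combination -this
    rw [e3, e1, e2, add_zero]
  funext s j
  exact CharTwo.add_eq_zero.1 (congrFun (congrFun h8 s) j)

theorem cntm_nonneg (Q : Frm f) (w : Vv f) (φ : Fin k → Vv f) (C : Fin t → Vv f)
    (Y : Fin t → Fin k → ZMod 2) : 0 ≤ cntm Q w φ C Y := by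
  unfold cntm
  refine sum_nonneg fun m _ => ?_
  split_ifs <;> norm_num

theorem cntm_le (Q : Frm f) (w : Vv f) (φ : Fin k → Vv f) (C : Fin t → Vv f)
    (Y : Fin t → Fin k → ZMod 2) (hY : Nd Y) :
    cntm Q w φ C Y * 2 ^ (t * k) ≤ 2 ^ Fintype.card (Pr k) * 2 ^ (t * 2 ^ t) := by
  classical
  rw [cntm_eq]
  refine mul_le_mul_of_nonneg_left ?_ (by positivity)
  calc ∑ l ∈ univ.filter (KY Y), chi (Af Q w (φ, 0) C Y l)
      ≤ ∑ l ∈ univ.filter (KY Y), (1 : ℝ) := sum_le_sum fun l _ => chi_le _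
    _ = ((univ.filter (KY Y)).card : ℝ) := by simp
    _ ≤ 2 ^ (t * 2 ^ t) := by exact_mod_cast card_KY Y hY

/-! ### Values of the moments -/

theorem sum_pi_succ {α : Type*} [DecidableEq α] (t : ℕ) (S : Finset α) (G : (Fin (t + 1) → α) → ℝ) :
    ∑ a ∈ Fintype.piFinset (fun _ : Fin (t + 1) => S), G a =
      ∑ x ∈ S, ∑ b ∈ Fintype.piFinset (fun _ : Fin t => S), G (Fin.cons x b) := by
  rw [← Finset.sum_product' (f := fun x b => G (Fin.cons x b))]
  refine Finset.sum_bij' (fun a _ => (a 0, Fin.tail a)) (fun x _ => Fin.cons x.1 x.2) ?_ ?_ ?_ ?_ ?_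
  · intro a ha
    rw [Fintype.mem_piFinset] at ha
    rw [mem_product, Fintype.mem_piFinset]
    exact ⟨ha 0, fun i => ha i.succ⟩
  · intro x hx
    rw [mem_product, Fintype.mem_piFinset] at hx
    rw [Fintype.mem_piFinset]
    intro i
    refine Fin.cases ?_ (fun j => ?_) i
    · exact hx.1
    · exact hx.2 j
  · intro a _; exact Fin.cons_self_tail a
  · intro x _; exact Prod.ext rfl (funext fun i => rfl)
  · intro a _; exact congrArg G (Fin.cons_self_tail a).symm

theorem sum_pi_zero {α : Type*} [DecidableEq α] (S : Finset α) (G : (Fin 0 → α) → ℝ) :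
    ∑ a ∈ Fintype.piFinset (fun _ : Fin 0 => S), G a = G Fin.elim0 := by
  have h : Fintype.piFinset (fun _ : Fin 0 => S) = {Fin.elim0} := by
    ext a
    simp only [Fintype.mem_piFinset, mem_singleton]
    exact ⟨fun _ => Subsingleton.elim _ _, fun _ i => i.elim0⟩
  rw [h, sum_singleton]

theorem Th_of_ne (Q : Frm f) (E : Finset (Vv f × Vv f)) (t : ℕ) (hn : Q.n ≠ 0) :
    Th Q E t = (E.card : ℝ) ^ t := by
  classical
  unfold Th
  have h1 : ∀ e : Fin t → Vv f × Vv f, (∑ W : Pr t → ZMod 2,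
      if Q.n = 0 ∨ W = 0 then chi (∑ p, W p * Q.B (e p.1.1) (e p.1.2)) else 0) = 1 := by
    intro e
    rw [Finset.sum_eq_single 0]
    · simp
    · intro W _ hW
      rw [if_neg]
      push Not
      exact ⟨hn, hW⟩
    · intro h; exact absurd (mem_univ _) h
  simp only [h1, sum_const, nsmul_eq_mul, mul_one, Fintype.card_piFinset, prod_const, card_univ,
    Fintype.card_fin]
  push_cast
  rfl

theorem Th_of_zero (Q : Frm f) (E : Finset (Vv f × Vv f)) (t : ℕ) (hn : Q.n = 0) :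
    Th Q E t = ∑ e ∈ Fintype.piFinset (fun _ : Fin t => E),
      ∏ p : Pr t, (1 + chi (Q.B (e p.1.1) (e p.1.2))) := by
  classical
  unfold Th
  refine sum_congr rfl fun e _ => ?_
  simp only [hn, true_or, if_true]
  have h2 : ∀ W : Pr t → ZMod 2, chi (∑ p, W p * Q.B (e p.1.1) (e p.1.2)) =
      ∏ p, chi (W p * Q.B (e p.1.1) (e p.1.2)) := fun W => chi_sum _ _
  simp only [h2]
  have h3 := Finset.prod_univ_sum (fun _ : Pr t => (univ : Finset (ZMod 2)))
    (fun p l => chi (l * Q.B (e p.1.1) (e p.1.2)))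
  rw [Fintype.piFinset_univ] at h3
  rw [← h3]
  refine prod_congr rfl fun p _ => ?_
  rw [sum_two, zero_mul, chi_zero, one_mul]

theorem Th_one (Q : Frm f) (E : Finset (Vv f × Vv f)) : Th Q E 1 = (E.card : ℝ) := by
  classical
  by_cases hn : Q.n = 0
  · rw [Th_of_zero Q E 1 hn]
    have h1 : ∀ e : Fin 1 → Vv f × Vv f, ∏ p : Pr 1, (1 + chi (Q.B (e p.1.1) (e p.1.2))) = 1 := by
      intro e
      have : IsEmpty (Pr 1) := ⟨fun p => by
        have := p.2
        have h2 : p.1.1 = p.1.2 := Subsingleton.elim _ _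
        rw [h2] at this
        exact lt_irrefl _ this⟩
      exact Finset.prod_of_isEmpty _
    simp only [h1, sum_const, nsmul_eq_mul, mul_one, Fintype.card_piFinset, prod_const, card_univ,
      Fintype.card_fin, pow_one]
  · rw [Th_of_ne Q E 1 hn, pow_one]

theorem prod_pr_two (F : Fin 2 → Fin 2 → ℝ) : ∏ p : Pr 2, F p.1.1 p.1.2 = F 0 1 := by
  have h : (univ : Finset (Pr 2)) = {⟨(0, 1), by decide⟩} := by decide
  rw [h, prod_singleton]

theorem prod_pr_three (F : Fin 3 → Fin 3 → ℝ) :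
    ∏ p : Pr 3, F p.1.1 p.1.2 = F 0 1 * F 0 2 * F 1 2 := by
  have h : (univ : Finset (Pr 3)) =
      {⟨(0, 1), by decide⟩, ⟨(0, 2), by decide⟩, ⟨(1, 2), by decide⟩} := by decide
  rw [h, prod_insert (by decide), prod_insert (by decide), prod_singleton]
  ring

/-- the character sum of the form -/
noncomputable def Rs (Q : Frm f) (E : Finset (Vv f × Vv f)) : ℝ :=
  ∑ a ∈ E, ∑ b ∈ E, chi (Q.B a b)

theorem Rs_nonneg (Q : Frm f) (E : Finset (Vv f × Vv f)) (hadd : ∀ p ∈ E, ∀ q ∈ E, p + q ∈ E) : 0 ≤ Rs Q E := by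
  refine sum_nonneg fun a _ => ?_
  by_cases h : ∀ b ∈ E, Q.B a b = 0
  · refine sum_nonneg fun b hb => ?_
    rw [h b hb, chi_zero]
    norm_num
  · push Not at h
    obtain ⟨c, hc, hc2⟩ := h
    have h1 : ∑ b ∈ E, chi (Q.B a b) = ∑ b ∈ E, chi (Q.B a (b + c)) := by
      refine Finset.sum_bij' (fun b _ => b + c) (fun b _ => b + c) ?_ ?_ ?_ ?_ ?_
      · exact fun b hb => hadd b hb c hc
      · exact fun b hb => hadd b hb c hc
      · intro b _
        rw [add_assoc]
        have : c + c = 0 := Prod.ext (funext fun i => add_self _) (funext fun i => add_self _)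
        rw [this, add_zero]
      · intro b _
        rw [add_assoc]
        have : c + c = 0 := Prod.ext (funext fun i => add_self _) (funext fun i => add_self _)
        rw [this, add_zero]
      · intro b _
        congr 2
        rw [add_assoc]
        have : c + c = 0 := Prod.ext (funext fun i => add_self _) (funext fun i => add_self _)
        rw [this, add_zero]
    have h2 : ∀ b, chi (Q.B a (b + c)) = -chi (Q.B a b) := by
      intro b
      rw [Q.B_add_right, chi_add, z2ne hc2, chi_one]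
      ring
    simp only [h2, sum_neg_distrib] at h1
    have : ∑ b ∈ E, chi (Q.B a b) = 0 := by linarith
    exact this.ge

theorem Th_two_zero (Q : Frm f) (E : Finset (Vv f × Vv f)) (hn : Q.n = 0) :
    Th Q E 2 = (E.card : ℝ) ^ 2 + Rs Q E := by
  classical
  rw [Th_of_zero Q E 2 hn]
  have h1 : ∀ e : Fin 2 → Vv f × Vv f, ∏ p : Pr 2, (1 + chi (Q.B (e p.1.1) (e p.1.2))) =
      1 + chi (Q.B (e 0) (e 1)) := fun e => prod_pr_two (fun i j => 1 + chi (Q.B (e i) (e j)))
  simp only [h1]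
  rw [sum_pi_succ]
  have h2 : ∀ x : Vv f × Vv f, ∑ b ∈ Fintype.piFinset (fun _ : Fin 1 => E),
      (1 + chi (Q.B ((Fin.cons x b : Fin 2 → Vv f × Vv f) 0) ((Fin.cons x b : Fin 2 → Vv f × Vv f) 1))) =
      ∑ b ∈ E, (1 + chi (Q.B x b)) := by
    intro x
    rw [sum_pi_succ]
    refine sum_congr rfl fun b _ => ?_
    rw [sum_pi_zero]
    rfl
  simp only [h2, sum_add_distrib, sum_const, nsmul_eq_mul, mul_one]
  unfold Rs
  ring

/-- reindexing a sum over a group of exponent two -/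
theorem sum_shift {E : Finset (Vv f × Vv f)} (hadd : ∀ p ∈ E, ∀ q ∈ E, p + q ∈ E)
    (G : Vv f × Vv f → ℝ) (c : Vv f × Vv f) (hc : c ∈ E) : ∑ b ∈ E, G b = ∑ b ∈ E, G (b + c) := by
  have h1 : ∀ b : Vv f × Vv f, b + c + c = b := by
    intro b
    rw [add_assoc]
    have : c + c = 0 := Prod.ext (funext fun i => add_self _) (funext fun i => add_self _)
    rw [this, add_zero]
  refine Finset.sum_bij' (fun b _ => b + c) (fun b _ => b + c) ?_ ?_ ?_ ?_ ?_
  · exact fun b hb => hadd b hb c hc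
  · exact fun b hb => hadd b hb c hc
  · exact fun b _ => h1 b
  · exact fun b _ => h1 b
  · intro b _
    rw [h1 b]

theorem Th_three_zero (Q : Frm f) (E : Finset (Vv f × Vv f)) (hn : Q.n = 0)
    (hadd : ∀ p ∈ E, ∀ q ∈ E, p + q ∈ E) :
    Th Q E 3 = (E.card : ℝ) ^ 3 + 7 * E.card * Rs Q E := by
  classical
  rw [Th_of_zero Q E 3 hn]
  have h1 : ∀ e : Fin 3 → Vv f × Vv f, ∏ p : Pr 3, (1 + chi (Q.B (e p.1.1) (e p.1.2))) =
      (1 + chi (Q.B (e 0) (e 1))) * (1 + chi (Q.B (e 0) (e 2))) * (1 + chi (Q.B (e 1) (e 2))) :=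
    fun e => prod_pr_three (fun i j => 1 + chi (Q.B (e i) (e j)))
  simp only [h1]
  rw [sum_pi_succ]
  have h2 : ∀ x : Vv f × Vv f, ∑ b ∈ Fintype.piFinset (fun _ : Fin 2 => E),
      ((1 + chi (Q.B ((Fin.cons x b : Fin 3 → Vv f × Vv f) 0) ((Fin.cons x b : Fin 3 → Vv f × Vv f) 1))) *
        (1 + chi (Q.B ((Fin.cons x b : Fin 3 → Vv f × Vv f) 0) ((Fin.cons x b : Fin 3 → Vv f × Vv f) 2))) *
        (1 + chi (Q.B ((Fin.cons x b : Fin 3 → Vv f × Vv f) 1) ((Fin.cons x b : Fin 3 → Vv f × Vv f) 2)))) =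
      ∑ b ∈ E, ∑ c ∈ E, (1 + chi (Q.B x b)) * (1 + chi (Q.B x c)) * (1 + chi (Q.B b c)) := by
    intro x
    rw [sum_pi_succ]
    refine sum_congr rfl fun b _ => ?_
    rw [sum_pi_succ]
    refine sum_congr rfl fun c _ => ?_
    rw [sum_pi_zero]
    rfl
  simp only [h2]
  -- the seven character sums
  have a1 : ∑ a ∈ E, ∑ b ∈ E, ∑ c ∈ E, chi (Q.B a b) = E.card * Rs Q E := by
    simp only [sum_const, nsmul_eq_mul]
    unfold Rs
    simp only [mul_sum]
  have a2 : ∑ a ∈ E, ∑ b ∈ E, ∑ c ∈ E, chi (Q.B a c) = E.card * Rs Q E := by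
    unfold Rs
    simp only [sum_const, nsmul_eq_mul, mul_sum]
  have a3 : ∑ a ∈ E, ∑ b ∈ E, ∑ c ∈ E, chi (Q.B b c) = E.card * Rs Q E := by
    unfold Rs
    simp only [sum_const, nsmul_eq_mul]
  have a4 : ∑ a ∈ E, ∑ b ∈ E, ∑ c ∈ E, chi (Q.B a b) * chi (Q.B a c) = E.card * Rs Q E := by
    rw [← a2]
    refine sum_congr rfl fun a _ => sum_congr rfl fun b hb => ?_
    rw [sum_shift hadd (fun c => chi (Q.B a b) * chi (Q.B a c)) b hb]
    refine sum_congr rfl fun c _ => ?_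
    rw [← chi_add, Q.B_add_right]
    congr 1
    have := add_self (Q.B a b)
    linear_combination this
  have a5 : ∑ a ∈ E, ∑ b ∈ E, ∑ c ∈ E, chi (Q.B a b) * chi (Q.B b c) = E.card * Rs Q E := by
    rw [← a3]
    refine sum_congr rfl fun a ha => sum_congr rfl fun b _ => ?_
    rw [sum_shift hadd (fun c => chi (Q.B a b) * chi (Q.B b c)) a ha]
    refine sum_congr rfl fun c _ => ?_
    rw [← chi_add, Q.B_add_right, Q.B_symm b a]
    congr 1
    have := add_self (Q.B a b)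
    linear_combination this
  have a6 : ∑ a ∈ E, ∑ b ∈ E, ∑ c ∈ E, chi (Q.B a c) * chi (Q.B b c) = E.card * Rs Q E := by
    rw [← a3]
    refine sum_congr rfl fun a ha => ?_
    rw [sum_shift hadd (fun b => ∑ c ∈ E, chi (Q.B a c) * chi (Q.B b c)) a ha]
    refine sum_congr rfl fun b _ => sum_congr rfl fun c _ => ?_
    rw [← chi_add, Q.B_add_left]
    congr 1
    have := add_self (Q.B a c)
    linear_combination this
  have a7 : ∑ a ∈ E, ∑ b ∈ E, ∑ c ∈ E, chi (Q.B a b) * chi (Q.B a c) * chi (Q.B b c) =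
      E.card * Rs Q E := by
    rw [← a6]
    refine sum_congr rfl fun a _ => sum_congr rfl fun b hb => ?_
    rw [sum_shift hadd (fun c => chi (Q.B a b) * chi (Q.B a c) * chi (Q.B b c)) b hb]
    refine sum_congr rfl fun c _ => ?_
    rw [← chi_add, ← chi_add, ← chi_add, Q.B_add_right, Q.B_add_right, Q.B_self, hn, dot_zero_right]
    congr 1
    have := add_self (Q.B a b)
    linear_combination this
  have a0 : ∑ a ∈ E, ∑ b ∈ E, ∑ c ∈ E, (1 : ℝ) = (E.card : ℝ) ^ 3 := by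
    simp only [sum_const, nsmul_eq_mul]
    ring
  have h3 : ∀ a b c : Vv f × Vv f,
      (1 + chi (Q.B a b)) * (1 + chi (Q.B a c)) * (1 + chi (Q.B b c)) =
      1 + chi (Q.B a b) + chi (Q.B a c) + chi (Q.B b c) + chi (Q.B a b) * chi (Q.B a c) +
        chi (Q.B a b) * chi (Q.B b c) + chi (Q.B a c) * chi (Q.B b c) +
        chi (Q.B a b) * chi (Q.B a c) * chi (Q.B b c) := by
    intro a b c; ring
  simp only [h3, sum_add_distrib, a0, a1, a2, a3, a4, a5, a6, a7]
  ring

/-- the inequality between the moments -/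
theorem Th_ineq (Q : Frm f) (E : Finset (Vv f × Vv f)) (hadd : ∀ p ∈ E, ∀ q ∈ E, p + q ∈ E) (hE : (E.card : ℝ) ≤ 2 ^ f) :
    (E.card / 2 ^ f : ℝ) - (E.card / 2 ^ f : ℝ) ^ 2 / 3 + (E.card / 2 ^ f : ℝ) ^ 3 / 21 ≥
      Th Q E 1 / 2 ^ f - Th Q E 2 / (2 ^ f) ^ 2 / 3 + Th Q E 3 / (2 ^ f) ^ 3 / 21 := by
  have hN : (0 : ℝ) < 2 ^ f := by positivity
  rw [Th_one]
  by_cases hn : Q.n = 0
  · rw [Th_two_zero Q E hn, Th_three_zero Q E hn hadd]
    have hR := Rs_nonneg Q E hadd
    have h1 : (E.card / 2 ^ f : ℝ) ≤ 1 := (div_le_one hN).2 hE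
    have h2 : 0 ≤ Rs Q E / (2 ^ f) ^ 2 := by positivity
    have h3 : 0 ≤ (Rs Q E / (2 ^ f) ^ 2) * (1 - E.card / 2 ^ f) :=
      mul_nonneg h2 (by linarith)
    have h4 : ((E.card : ℝ) ^ 2 + Rs Q E) / (2 ^ f) ^ 2 / 3 =
        (E.card / 2 ^ f : ℝ) ^ 2 / 3 + Rs Q E / (2 ^ f) ^ 2 / 3 := by
      field_simp
    have h5 : ((E.card : ℝ) ^ 3 + 7 * E.card * Rs Q E) / (2 ^ f) ^ 3 / 21 =
        (E.card / 2 ^ f : ℝ) ^ 3 / 21 + Rs Q E / (2 ^ f) ^ 2 * (E.card / 2 ^ f) / 3 := by
      field_simp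
      ring
    rw [h4, h5]
    nlinarith [h3]
  · rw [Th_of_ne Q E 2 hn, Th_of_ne Q E 3 hn]
    simp only [div_pow]
    exact le_refl _

end Pool.Agent.Q7.LM
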