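import Pool.Agent.Q7.LM.Chr

/-!
# Three moments for tables of residue symbols: sums over the symbols of the units
-/

set_option autoImplicit false

namespace Pool.Agent.Q7.LM

open Finset Pool.Agent.Q283.LQ

theorem card_fib {G H : Type*} [AddCommGroup G] [Fintype G] [AddCommGroup H] [Fintype H] [DecidableEq H]
    (L : G →+ H) (hL : Function.Surjective L) (h : H) :
    (univ.filter (fun g => L g = h)).card * Fintype.card H = Fintype.card G := by
  have h1 : ∀ x : H, (univ.filter (fun g => L g = x)).card = (univ.filter (fun g => L g = h)).card := by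
    intro x
    obtain ⟨a, ha⟩ := hL (h - x)
    refine Finset.card_bij (fun g _ => g + a) ?_ ?_ ?_
    · intro g hg
      rw [mem_filter] at hg ⊢
      refine ⟨mem_univ _, ?_⟩
      rw [map_add, hg.2, ha]
      abel
    · intro g _ g' _ h2
      exact add_right_cancel h2
    · intro g hg
      rw [mem_filter] at hg
      refine ⟨g - a, mem_filter.2 ⟨mem_univ _, ?_⟩, by abel⟩
      rw [map_sub, hg.2, ha]
      abel
  have h2 : Fintype.card G = ∑ x : H, (univ.filter (fun g => L g = x)).card := by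
    rw [← Finset.card_univ]
    exact Finset.card_eq_sum_card_fiberwise (fun _ _ => mem_univ _)
  rw [h2]
  simp only [h1]
  rw [sum_const, card_univ, smul_eq_mul, mul_comm]

variable {f k t : ℕ}

/-- the sums over the sets `Y s` -/
def LY (Y : Fin t → Fin k → ZMod 2) : (Fin k → Vv f) →+ (Vv f × (Fin t → Vv f)) where
  toFun φ := (∑ j, φ j, fun s => phy φ (Y s))
  map_zero' := by
    ext
    · simp
    · simp [phy]
  map_add' φ φ' := by
    refine Prod.ext ?_ ?_
    · simp [sum_add_distrib]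
    · funext s
      exact phy_add_left φ φ' (Y s)

theorem phy_single (j : Fin k) (q : Vv f) (y : Fin k → ZMod 2) : phy (Pi.single j q) y = y j • q := by
  unfold phy
  rw [Finset.sum_eq_single j, Pi.single_eq_same]
  · intro i _ hi
    rw [Pi.single_eq_of_ne hi, smul_zero]
  · intro h; exact absurd (mem_univ _) h

theorem phy_one (φ : Fin k → Vv f) : phy φ (fun _ => 1) = ∑ j, φ j := by
  unfold phy
  simp

theorem phy_sum_left {I : Type*} (s : Finset I) (φ : I → Fin k → Vv f) (y : Fin k → ZMod 2) :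
    phy (∑ i ∈ s, φ i) y = ∑ i ∈ s, phy (φ i) y := by
  classical
  induction s using Finset.induction_on with
  | empty => simp [phy]
  | insert a s ha ih => rw [sum_insert ha, sum_insert ha, phy_add_left, ih]

theorem LY_surj (Y : Fin t → Fin k → ZMod 2) (hY : Sj Y) :
    Function.Surjective (LY (f := f) Y) := by
  classical
  rintro ⟨a, b⟩
  obtain ⟨j0, h0⟩ := hY 0
  have hY2 : ∀ r : Fin t, ∃ j, ∀ s, Y s j = (Pi.single r 1 : Fin t → ZMod 2) s := fun r => hY _
  choose jr hjr using hY2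
  refine ⟨Pi.single j0 (a - ∑ r, b r) + ∑ r, Pi.single (jr r) (b r), ?_⟩
  refine Prod.ext ?_ ?_
  · have h1 : ∀ φ : Fin k → Vv f, (LY Y φ).1 = ∑ j, φ j := fun _ => rfl
    rw [h1, ← phy_one, phy_add_left, phy_single, phy_sum_left]
    simp only [phy_single, one_smul]
    abel
  · funext s
    have h1 : ∀ φ : Fin k → Vv f, (LY Y φ).2 s = phy φ (Y s) := fun _ => rfl
    rw [h1, phy_add_left, phy_single, phy_sum_left, h0]
    simp only [phy_single, hjr, Pi.zero_apply, zero_smul, zero_add]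
    rw [Finset.sum_eq_single s, Pi.single_eq_same, one_smul]
    · intro r _ hr
      rw [Pi.single_eq_of_ne hr.symm, zero_smul]
    · intro h; exact absurd (mem_univ _) h

/-- the symbols with given sums -/
def Phi (Y : Fin t → Fin k → ZMod 2) (ψ : Vv f) (e : Fin t → Vv f) : Finset (Fin k → Vv f) :=
  univ.filter (fun φ => ∑ j, φ j = ψ ∧ ∀ s, phy φ (Y s) = e s)

theorem mem_Phi {Y : Fin t → Fin k → ZMod 2} {ψ : Vv f} {e : Fin t → Vv f} {φ : Fin k → Vv f} :
    φ ∈ Phi Y ψ e ↔ ∑ j, φ j = ψ ∧ ∀ s, phy φ (Y s) = e s := by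
  simp [Phi]

theorem card_Phi (Y : Fin t → Fin k → ZMod 2) (hY : Sj Y) (ψ : Vv f) (e : Fin t → Vv f) :
    ((Phi Y ψ e).card : ℝ) * 2 ^ (f * (t + 1)) = 2 ^ (f * k) := by
  classical
  have h1 := card_fib (LY (f := f) Y) (LY_surj Y hY) (ψ, e)
  have h2 : univ.filter (fun g => LY Y g = (ψ, e)) = Phi Y ψ e := by
    ext φ
    rw [mem_Phi, mem_filter]
    simp only [mem_univ, true_and, LY, AddMonoidHom.coe_mk, ZeroHom.coe_mk, Prod.mk.injEq, funext_iff]
  rw [h2] at h1
  have h3 : Fintype.card (Vv f × (Fin t → Vv f)) = 2 ^ (f * (t + 1)) := by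
    simp only [Fintype.card_prod, Fintype.card_fun, ZMod.card, Fintype.card_fin, Vv]
    ring
  have h4 : Fintype.card (Fin k → Vv f) = 2 ^ (f * k) := by
    simp only [Fintype.card_fun, ZMod.card, Fintype.card_fin, Vv]
    ring
  rw [h3, h4] at h1
  exact_mod_cast h1

theorem exists_shift (Y : Fin t → Fin k → ZMod 2) (hY : Sj Y) (n : Vv f) (hn : n ≠ 0)
    (W : Pr t → ZMod 2) (hW : W ≠ 0) :
    ∃ δ : Fin k → Vv f, ∑ j, δ j = 0 ∧ (∀ s, phy δ (Y s) = 0) ∧
      ∑ p : Pr t, W p * dot (phy δ (fun j => Y p.1.1 j * Y p.1.2 j)) n = 1 := by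
  classical
  have h1 : ∃ p0, W p0 = 1 := by
    by_contra h
    push Not at h
    apply hW
    funext p
    exact (z2 (W p)).resolve_right (h p)
  obtain ⟨p0, hp0⟩ := h1
  have h2 : ∃ l, n l = 1 := by
    by_contra h
    push Not at h
    apply hn
    funext p
    exact (z2 (n p)).resolve_right (h p)
  obtain ⟨l, hl⟩ := h2
  obtain ⟨j0, h0⟩ := hY 0
  obtain ⟨j1, h1⟩ := hY (Pi.single p0.1.1 1)
  obtain ⟨j2, h2⟩ := hY (Pi.single p0.1.2 1)
  obtain ⟨j3, h3⟩ := hY (Pi.single p0.1.1 1 + Pi.single p0.1.2 1)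
  set q : Vv f := Pi.single l 1 with hq
  have hqn : dot q n = 1 := by
    unfold dot
    rw [Finset.sum_eq_single l, hq, Pi.single_eq_same, one_mul, hl]
    · intro i _ hi
      rw [hq, Pi.single_eq_of_ne hi, zero_mul]
    · intro h; exact absurd (mem_univ _) h
  have hphy : ∀ y : Fin k → ZMod 2,
      phy (Pi.single j0 q + Pi.single j1 q + Pi.single j2 q + Pi.single j3 q) y =
        (y j0 + y j1 + y j2 + y j3) • q := by
    intro y
    simp only [phy_add_left, phy_single, add_smul]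
  refine ⟨Pi.single j0 q + Pi.single j1 q + Pi.single j2 q + Pi.single j3 q, ?_, ?_, ?_⟩
  · rw [← phy_one, hphy]
    have : (1 : ZMod 2) + 1 + 1 + 1 = 0 := by decide
    rw [this, zero_smul]
  · intro s
    rw [hphy, h0, h1, h2, h3]
    have h4 := add_self ((Pi.single p0.1.1 1 : Fin t → ZMod 2) s)
    have h5 := add_self ((Pi.single p0.1.2 1 : Fin t → ZMod 2) s)
    have : (0 : Fin t → ZMod 2) s + (Pi.single p0.1.1 1 : Fin t → ZMod 2) s +
        (Pi.single p0.1.2 1 : Fin t → ZMod 2) s +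
        ((Pi.single p0.1.1 1 : Fin t → ZMod 2) + (Pi.single p0.1.2 1 : Fin t → ZMod 2)) s = 0 := by
      simp only [Pi.zero_apply, Pi.add_apply]
      linear_combination h4 + h5
    rw [this, zero_smul]
  · rw [Finset.sum_eq_single p0]
    · rw [hphy]
      simp only [h0, h1, h2, h3]
      have hne : p0.1.1 ≠ p0.1.2 := p0.2.ne
      simp only [Pi.zero_apply, Pi.add_apply, Pi.single_eq_same, Pi.single_eq_of_ne hne,
        Pi.single_eq_of_ne hne.symm, hp0]
      simp [hqn]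
    · intro p _ hp
      rw [hphy]
      simp only [h0, h1, h2, h3]
      have hne : p.1.1 ≠ p.1.2 := p.2.ne
      have hlt : p.1.1 < p.1.2 := p.2
      have hlt0 : p0.1.1 < p0.1.2 := p0.2
      have hz : (0 : Fin t → ZMod 2) p.1.1 * (0 : Fin t → ZMod 2) p.1.2 +
          (Pi.single p0.1.1 1 : Fin t → ZMod 2) p.1.1 * (Pi.single p0.1.1 1 : Fin t → ZMod 2) p.1.2 +
          (Pi.single p0.1.2 1 : Fin t → ZMod 2) p.1.1 * (Pi.single p0.1.2 1 : Fin t → ZMod 2) p.1.2 +
          ((Pi.single p0.1.1 1 : Fin t → ZMod 2) + (Pi.single p0.1.2 1 : Fin t → ZMod 2)) p.1.1 *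
          ((Pi.single p0.1.1 1 : Fin t → ZMod 2) + (Pi.single p0.1.2 1 : Fin t → ZMod 2)) p.1.2 = 0 := by
        simp only [Pi.zero_apply, Pi.add_apply, Pi.single_apply]
        by_cases a1 : p.1.1 = p0.1.1
        · have b1 : p.1.2 ≠ p0.1.1 := by rw [← a1]; exact hne.symm
          have b2 : p.1.2 ≠ p0.1.2 := by
            intro h
            exact hp (Subtype.ext (Prod.ext a1 h))
          simp [a1, b1, b2]
        · by_cases a2 : p.1.1 = p0.1.2
          · have b1 : p.1.2 ≠ p0.1.2 := by rw [← a2]; exact hne.symm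
            have b2 : p.1.2 ≠ p0.1.1 := by
              intro h
              rw [a2, h] at hlt
              exact absurd hlt0 hlt.not_gt
            simp [a2, b1, b2]
          · simp [a1, a2]
      rw [hz, zero_smul, dot_zero_left, mul_zero]
    · intro h; exact absurd (mem_univ _) h

theorem sum_Phi_zero (Y : Fin t → Fin k → ZMod 2) (hY : Sj Y) (n : Vv f) (hn : n ≠ 0)
    (W : Pr t → ZMod 2) (hW : W ≠ 0) (ψ : Vv f) (e : Fin t → Vv f) :
    ∑ φ ∈ Phi Y ψ e, chi (∑ p : Pr t, W p * dot (phy φ (fun j => Y p.1.1 j * Y p.1.2 j)) n) = 0 := by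
  obtain ⟨δ, h1, h2, h3⟩ := exists_shift Y hY n hn W hW
  have h4 : ∑ φ ∈ Phi Y ψ e, chi (∑ p : Pr t, W p * dot (phy φ (fun j => Y p.1.1 j * Y p.1.2 j)) n) =
      ∑ φ ∈ Phi Y ψ e,
        chi (∑ p : Pr t, W p * dot (phy (φ + δ) (fun j => Y p.1.1 j * Y p.1.2 j)) n) := by
    refine Finset.sum_bij' (fun φ _ => φ - δ) (fun φ _ => φ + δ) ?_ ?_ ?_ ?_ ?_
    · intro φ hφ
      rw [mem_Phi] at hφ ⊢
      refine ⟨?_, fun s => ?_⟩
      · have : ∑ j, (φ - δ) j = ∑ j, φ j - ∑ j, δ j := by simp [sum_sub_distrib]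
        rw [this, h1, sub_zero, hφ.1]
      · have h5 := phy_add_left (φ - δ) δ (Y s)
        rw [sub_add_cancel, h2, add_zero] at h5
        rw [← h5, hφ.2]
    · intro φ hφ
      rw [mem_Phi] at hφ ⊢
      refine ⟨?_, fun s => ?_⟩
      · have : ∑ j, (φ + δ) j = ∑ j, φ j + ∑ j, δ j := by simp [sum_add_distrib]
        rw [this, h1, add_zero, hφ.1]
      · rw [phy_add_left, h2, add_zero, hφ.2]
    · intro φ _; exact sub_add_cancel _ _
    · intro φ _; exact add_sub_cancel_right _ _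
    · intro φ _
      rw [sub_add_cancel]
  have h5 : ∀ φ, chi (∑ p : Pr t, W p * dot (phy (φ + δ) (fun j => Y p.1.1 j * Y p.1.2 j)) n) =
      -chi (∑ p : Pr t, W p * dot (phy φ (fun j => Y p.1.1 j * Y p.1.2 j)) n) := by
    intro φ
    simp only [phy_add_left, dot_add_left, mul_add, sum_add_distrib]
    rw [chi_add, h3, chi_one]
    ring
  simp only [h5, sum_neg_distrib] at h4
  linarith

/-! ### The classes orthogonal to `d` -/

/-- the classes orthogonal to the class of `d` -/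
def Ep (Q : Frm f) (ψ w : Vv f) (E : Finset (Vv f × Vv f)) : Finset (Vv f × Vv f) :=
  E.filter (fun p => Q.B p (ψ, w + Q.n) = 0)

theorem mem_Ep {Q : Frm f} {ψ w : Vv f} {E : Finset (Vv f × Vv f)} {p : Vv f × Vv f} :
    p ∈ Ep Q ψ w E ↔ p ∈ E ∧ Q.B p (ψ, w + Q.n) = 0 := mem_filter

open Classical in
/-- the moments -/
noncomputable def Th (Q : Frm f) (E : Finset (Vv f × Vv f)) (t : ℕ) : ℝ :=
  ∑ e ∈ Fintype.piFinset (fun _ : Fin t => E), ∑ W : Pr t → ZMod 2,
    if Q.n = 0 ∨ W = 0 then chi (∑ p, W p * Q.B (e p.1.1) (e p.1.2)) else 0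

open Classical in
theorem sum_pairs_classes (Y : Fin t → Fin k → ZMod 2) (ψ : Vv f) (E : Finset (Vv f × Vv f))
    (G : (Fin k → Vv f) → (Fin t → Vv f × Vv f) → ℝ) :
    ∑ φ ∈ univ.filter (fun φ : Fin k → Vv f => ∑ j, φ j = ψ), ∑ C : Fin t → Vv f,
      (if ∀ s, (phy φ (Y s), C s) ∈ E then G φ (fun s => (phy φ (Y s), C s)) else 0) =
    ∑ e ∈ Fintype.piFinset (fun _ : Fin t => E), ∑ φ ∈ Phi Y ψ (fun s => (e s).1), G φ e := by
  have h1 : ∀ e : Fin t → Vv f × Vv f, ∑ φ ∈ Phi Y ψ (fun s => (e s).1), G φ e =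
      ∑ φ ∈ univ.filter (fun φ : Fin k → Vv f => ∑ j, φ j = ψ),
        if ∀ s, phy φ (Y s) = (e s).1 then G φ e else 0 := by
    intro e
    rw [← sum_filter, filter_filter]
    rfl
  simp only [h1]
  conv_rhs => rw [sum_comm]
  refine sum_congr rfl fun φ _ => ?_
  rw [← sum_filter, ← sum_filter]
  refine Finset.sum_bij' (fun C _ => fun s => (phy φ (Y s), C s)) (fun e _ => fun s => (e s).2)
    ?_ ?_ ?_ ?_ ?_
  · intro C hC
    rw [mem_filter] at hC
    rw [mem_filter, Fintype.mem_piFinset]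
    exact ⟨hC.2, fun s => rfl⟩
  · intro e he
    rw [mem_filter, Fintype.mem_piFinset] at he
    rw [mem_filter]
    refine ⟨mem_univ _, fun s => ?_⟩
    rw [he.2 s]
    exact he.1 s
  · intro C _; rfl
  · intro e he
    rw [mem_filter, Fintype.mem_piFinset] at he
    funext s
    exact Prod.ext (he.2 s) rfl
  · intro C _; rfl

open Classical in
/-- the exact mean number of the solutions with surjective families `Y` -/
theorem moment (Q : Frm f) (w ψ : Vv f) (E : Finset (Vv f × Vv f)) (Y : Fin t → Fin k → ZMod 2)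
    (hY : Sj Y) :
    (∑ φ ∈ univ.filter (fun φ : Fin k → Vv f => ∑ j, φ j = ψ), ∑ C : Fin t → Vv f,
      (if ∀ s, (phy φ (Y s), C s) ∈ E then cntm Q w φ C Y else 0)) *
        2 ^ (t * k) * 2 ^ (f * (t + 1)) =
      2 ^ Fintype.card (Pr k) * 2 ^ t * 2 ^ (f * k) * Th Q (Ep Q ψ w E) t := by
  have h1 : (∑ φ ∈ univ.filter (fun φ : Fin k → Vv f => ∑ j, φ j = ψ), ∑ C : Fin t → Vv f,
      (if ∀ s, (phy φ (Y s), C s) ∈ E then cntm Q w φ C Y else 0)) * 2 ^ (t * k) =
      2 ^ Fintype.card (Pr k) * 2 ^ t *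
        ∑ φ ∈ univ.filter (fun φ : Fin k → Vv f => ∑ j, φ j = ψ), ∑ C : Fin t → Vv f,
          (if ∀ s, (phy φ (Y s), C s) ∈ Ep Q ψ w E then
            ∑ W : Pr t → ZMod 2, chi (∑ p, W p *
              (Q.B (phy φ (Y p.1.1), C p.1.1) (phy φ (Y p.1.2), C p.1.2) +
                dot (phy φ (fun j => Y p.1.1 j * Y p.1.2 j)) Q.n)) else 0) := by
    rw [sum_mul, mul_sum]
    refine sum_congr rfl fun φ hφ => ?_
    rw [mem_filter] at hφ
    rw [sum_mul, mul_sum]
    refine sum_congr rfl fun C _ => ?_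
    by_cases h2 : ∀ s, (phy φ (Y s), C s) ∈ E
    · rw [if_pos h2, cntm_eq, sum_KY Q w (φ, 0) C Y hY]
      simp only [hφ.2]
      by_cases h3 : ∀ s, Q.B (phy φ (Y s), C s) (ψ, w + Q.n) = 0
      · rw [if_pos h3, if_pos (fun s => mem_Ep.2 ⟨h2 s, h3 s⟩)]
        ring
      · rw [if_neg h3, if_neg (fun h4 => h3 fun s => (mem_Ep.1 (h4 s)).2)]
        ring
    · rw [if_neg h2, if_neg (fun h4 => h2 fun s => (mem_Ep.1 (h4 s)).1)]
      ring
  rw [h1, sum_pairs_classes Y ψ (Ep Q ψ w E) (fun φ e => ∑ W : Pr t → ZMod 2, chi (∑ p, W p *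
    (Q.B (e p.1.1) (e p.1.2) + dot (phy φ (fun j => Y p.1.1 j * Y p.1.2 j)) Q.n)))]
  unfold Th
  rw [mul_assoc, mul_assoc (2 ^ Fintype.card (Pr k) * 2 ^ t)]
  congr 1
  rw [sum_mul, mul_sum]
  refine sum_congr rfl fun e _ => ?_
  rw [sum_comm, sum_mul, mul_sum]
  refine sum_congr rfl fun W _ => ?_
  have h5 : ∀ φ : Fin k → Vv f, chi (∑ p : Pr t, W p * (Q.B (e p.1.1) (e p.1.2) +
      dot (phy φ (fun j => Y p.1.1 j * Y p.1.2 j)) Q.n)) =
      chi (∑ p, W p * Q.B (e p.1.1) (e p.1.2)) *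
        chi (∑ p : Pr t, W p * dot (phy φ (fun j => Y p.1.1 j * Y p.1.2 j)) Q.n) := by
    intro φ
    rw [← chi_add, ← sum_add_distrib]
    congr 1
    exact sum_congr rfl fun p _ => by ring
  simp only [h5]
  rw [← mul_sum]
  by_cases h6 : Q.n = 0 ∨ W = 0
  · rw [if_pos h6]
    have h7 : ∀ φ : Fin k → Vv f,
        chi (∑ p : Pr t, W p * dot (phy φ (fun j => Y p.1.1 j * Y p.1.2 j)) Q.n) = 1 := by
      intro φ
      rcases h6 with h6 | h6
      · rw [h6]
        simp [dot_zero_right]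
      · rw [h6]
        simp
    simp only [h7, sum_const, nsmul_eq_mul, mul_one]
    have h8 := card_Phi Y hY ψ (fun s => (e s).1)
    rw [mul_assoc, h8]
    ring
  · rw [if_neg h6]
    push Not at h6
    rw [sum_Phi_zero Y hY Q.n h6.1 W h6.2]
    ring

end Pool.Agent.Q7.LM
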