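import Pool.Agent.Q7.LM.Crd

/-!
# Three moments for tables of residue symbols: the pointwise inequality
-/

set_option autoImplicit false

namespace Pool.Agent.Q7.LM

open Finset Pool.Agent.Q283.LQ

section Grp

variable {A : Type*} [AddCommGroup A] [DecidableEq A]

open Classical in
theorem bound1 (S : Finset A) (D : A) (P : A → Prop) (h : ∀ a ∈ S, a ≠ 0 → a ≠ D → P a) :
    (S.card : ℝ) - 2 ≤ ∑ a ∈ S, if P a then (1 : ℝ) else 0 := by
  have h1 : ∑ a ∈ S \ {0, D}, (1 : ℝ) ≤ ∑ a ∈ S, if P a then (1 : ℝ) else 0 := by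
    calc ∑ a ∈ S \ {0, D}, (1 : ℝ) = ∑ a ∈ S \ {0, D}, if P a then (1 : ℝ) else 0 := by
          refine sum_congr rfl fun a ha => ?_
          rw [mem_sdiff, mem_insert, mem_singleton, not_or] at ha
          rw [if_pos (h a ha.1 ha.2.1 ha.2.2)]
      _ ≤ ∑ a ∈ S, if P a then (1 : ℝ) else 0 :=
          sum_le_sum_of_subset_of_nonneg sdiff_subset fun a _ _ => by split_ifs <;> norm_num
  refine le_trans ?_ h1
  rw [sum_const, nsmul_eq_mul, mul_one]
  have h2 := Finset.le_card_sdiff {0, D} S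
  have h3 : ({0, D} : Finset A).card ≤ 2 := Finset.card_le_two
  have h4 : S.card ≤ (S \ {0, D}).card + 2 := by omega
  have : (S.card : ℝ) ≤ ((S \ {0, D}).card : ℝ) + 2 := by exact_mod_cast h4
  linarith

open Classical in
theorem bound2 (S : Finset A) (D : A) (h2 : ∀ x : A, x + x = 0) (h0 : 0 ∈ S) (hD : D ∈ S) (hD0 : D ≠ 0)
    (hadd : ∀ a ∈ S, ∀ b ∈ S, a + b ∈ S) (P : A → A → Prop)
    (h : ∀ a ∈ S, ∀ b ∈ S, P a b → a ≠ 0 ∧ a ≠ D ∧ b ≠ 0 ∧ b ≠ D ∧ b ≠ a ∧ b ≠ a + D) :
    ∑ a ∈ S, ∑ b ∈ S, (if P a b then (1 : ℝ) else 0) ≤ ((S.card : ℝ) - 2) * ((S.card : ℝ) - 4) := by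
  have e1 : ∀ a ∈ S, a ≠ 0 → a ≠ D → (({0, D, a, a + D} : Finset A).card = 4 ∧
      ({0, D, a, a + D} : Finset A) ⊆ S) := by
    intro a ha ha0 haD
    refine ⟨?_, ?_⟩
    · have c1 : a + D ≠ 0 := fun h3 => haD (by
        have := h2 D
        exact add_right_cancel (h3.trans this.symm))
      rw [card_insert_of_notMem, card_insert_of_notMem, card_insert_of_notMem, card_singleton]
      · rw [mem_singleton]
        intro h3
        exact hD0 (left_eq_add.1 h3)
      · rw [mem_insert, mem_singleton, not_or]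
        exact ⟨haD.symm, fun h3 => ha0 (right_eq_add.1 h3)⟩
      · rw [mem_insert, mem_insert, mem_singleton, not_or, not_or]
        exact ⟨hD0.symm, ha0.symm, c1.symm⟩
    · intro x hx
      rw [mem_insert, mem_insert, mem_insert, mem_singleton] at hx
      rcases hx with rfl | rfl | rfl | rfl
      · exact h0
      · exact hD
      · exact ha
      · exact hadd _ ha _ hD
  have e2 : ∀ a ∈ S, ∑ b ∈ S, (if P a b then (1 : ℝ) else 0) ≤
      if a ∈ S \ {0, D} then ((S.card : ℝ) - 4) else 0 := by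
    intro a ha
    by_cases ha2 : a ∈ S \ {0, D}
    · rw [if_pos ha2]
      rw [mem_sdiff, mem_insert, mem_singleton, not_or] at ha2
      obtain ⟨h3, h4⟩ := e1 a ha ha2.2.1 ha2.2.2
      have h5 : ∑ b ∈ S, (if P a b then (1 : ℝ) else 0) ≤
          ∑ b ∈ S, if b ∈ S \ {0, D, a, a + D} then (1 : ℝ) else 0 := by
        refine sum_le_sum fun b hb => ?_
        by_cases hp : P a b
        · obtain ⟨_, _, q1, q2, q3, q4⟩ := h a ha b hb hp
          rw [if_pos hp, if_pos]
          rw [mem_sdiff, mem_insert, mem_insert, mem_insert, mem_singleton]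
          exact ⟨hb, by tauto⟩
        · rw [if_neg hp]; split_ifs <;> norm_num
      refine h5.trans ?_
      rw [← sum_filter]
      have h6 : S.filter (fun b => b ∈ S \ {0, D, a, a + D}) = S \ {0, D, a, a + D} := by
        ext b
        simp only [mem_filter, mem_sdiff]
        tauto
      rw [h6, sum_const, nsmul_eq_mul, mul_one, card_sdiff_of_subset h4, h3, Nat.cast_sub]
      · norm_num
      · rw [← h3]; exact card_le_card h4
    · rw [if_neg ha2]
      refine le_of_eq (sum_eq_zero fun b hb => if_neg fun hp => ha2 ?_)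
      obtain ⟨q1, q2, _⟩ := h a ha b hb hp
      rw [mem_sdiff, mem_insert, mem_singleton, not_or]
      exact ⟨ha, q1, q2⟩
  refine (sum_le_sum e2).trans ?_
  rw [← sum_filter]
  have h6 : S.filter (fun b => b ∈ S \ {0, D}) = S \ {0, D} := by
    ext b
    simp only [mem_filter, mem_sdiff]
    tauto
  have h7 : ({0, D} : Finset A) ⊆ S := by
    intro x hx
    rw [mem_insert, mem_singleton] at hx
    rcases hx with rfl | rfl
    · exact h0
    · exact hD
  have h8 : ({0, D} : Finset A).card = 2 := Finset.card_pair hD0.symm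
  rw [h6, sum_const, nsmul_eq_mul, card_sdiff_of_subset h7, h8, Nat.cast_sub]
  · norm_num
  · rw [← h8]; exact card_le_card h7

open Classical in
theorem bound3 (S : Finset A) (D : A) (hS : 8 ≤ S.card) (P : A → A → A → Prop)
    (h : ∀ a ∈ S, ∀ b ∈ S, ∀ c ∈ S, a ∉ ({0, D} : Finset A) → b ∉ ({0, D, a, a + D} : Finset A) →
      c ∉ ({0, D, a, a + D, b, b + D, a + b, a + b + D} : Finset A) → P a b c) :
    ((S.card : ℝ) - 2) * ((S.card : ℝ) - 4) * ((S.card : ℝ) - 8) ≤
      ∑ a ∈ S, ∑ b ∈ S, ∑ c ∈ S, (if P a b c then (1 : ℝ) else 0) := by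
  have hS' : (8 : ℝ) ≤ S.card := by exact_mod_cast hS
  have key : ∀ (T : Finset A) (n : ℕ) (F : A → ℝ) (x : ℝ), T.card ≤ n → (n : ℝ) ≤ S.card → 0 ≤ x →
      (∀ a ∈ S, 0 ≤ F a) → (∀ a ∈ S, a ∉ T → x ≤ F a) → ((S.card : ℝ) - n) * x ≤ ∑ a ∈ S, F a := by
    intro T n F x hT hn hx hF hF2
    have h1 : ∑ a ∈ S \ T, x ≤ ∑ a ∈ S, F a := by
      calc ∑ a ∈ S \ T, x ≤ ∑ a ∈ S \ T, F a := sum_le_sum fun a ha => by
            rw [mem_sdiff] at ha
            exact hF2 a ha.1 ha.2
        _ ≤ ∑ a ∈ S, F a := sum_le_sum_of_subset_of_nonneg sdiff_subset fun a ha _ => hF a ha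
    refine le_trans ?_ h1
    rw [sum_const, nsmul_eq_mul]
    refine mul_le_mul_of_nonneg_right ?_ hx
    have h3 := Finset.le_card_sdiff T S
    have h4 : S.card ≤ (S \ T).card + n := by omega
    have : (S.card : ℝ) ≤ ((S \ T).card : ℝ) + n := by exact_mod_cast h4
    linarith
  have c2 : ({0, D} : Finset A).card ≤ 2 := Finset.card_le_two
  have c4 : ∀ a : A, ({0, D, a, a + D} : Finset A).card ≤ 4 := fun a => Finset.card_le_four
  have c8 : ∀ a b : A, ({0, D, a, a + D, b, b + D, a + b, a + b + D} : Finset A).card ≤ 8 := by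
    intro a b
    refine (card_insert_le _ _).trans ?_
    refine Nat.succ_le_succ ((card_insert_le _ _).trans ?_)
    refine Nat.succ_le_succ ((card_insert_le _ _).trans ?_)
    refine Nat.succ_le_succ ((card_insert_le _ _).trans ?_)
    exact Nat.succ_le_succ Finset.card_le_four
  rw [mul_assoc]
  refine key {0, D} 2 _ _ c2 (by push_cast; linarith) (mul_nonneg (by linarith) (by linarith))
    (fun a _ => sum_nonneg fun b _ => sum_nonneg fun c _ => by split_ifs <;> norm_num) ?_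
  intro a ha ha2
  refine key {0, D, a, a + D} 4 _ _ (c4 a) (by push_cast; linarith) (by linarith)
    (fun b _ => sum_nonneg fun c _ => by split_ifs <;> norm_num) ?_
  intro b hb hb2
  have := key {0, D, a, a + D, b, b + D, a + b, a + b + D} 8 (fun c => if P a b c then (1 : ℝ) else 0) 1
    (c8 a b) (by push_cast; linarith) zero_le_one (fun c _ => by split_ifs <;> norm_num)
    (fun c hc hc2 => by rw [if_pos (h a ha b hb c hc ha2 hb2 hc2)])
  rw [mul_one] at this
  exact this

end Grp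

variable {f k t : ℕ}

open Classical in
/-- the solutions -/
noncomputable def SolS (Q : Frm f) (w : Vv f) (E : Finset (Vv f × Vv f)) (τ : Tab f k) :
    Finset (Vv f × (Fin k → ZMod 2)) :=
  univ.filter (fun p => (phy τ.1 p.2, p.1) ∈ E ∧ ∀ j, cnd Q.g w τ p.1 p.2 j = 0)

theorem mem_SolS {Q : Frm f} {w : Vv f} {E : Finset (Vv f × Vv f)} {τ : Tab f k}
    {p : Vv f × (Fin k → ZMod 2)} :
    p ∈ SolS Q w E τ ↔ (phy τ.1 p.2, p.1) ∈ E ∧ ∀ j, cnd Q.g w τ p.1 p.2 j = 0 := by
  simp [SolS]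

/-- a class group: `E` is a group which contains the class of `D` -/
structure IsGrp (E : Finset (Vv f × Vv f)) (ψ w : Vv f) : Prop where
  add : ∀ p ∈ E, ∀ q ∈ E, p + q ∈ E
  D : (ψ, w) ∈ E

theorem IsGrp.zero {E : Finset (Vv f × Vv f)} {ψ w : Vv f} (h : IsGrp E ψ w) :
    (0 : Vv f × Vv f) ∈ E := by
  have h1 := h.add _ h.D _ h.D
  have h2 : ((ψ, w) : Vv f × Vv f) + (ψ, w) = 0 :=
    Prod.ext (funext fun i => add_self _) (funext fun i => add_self _)
  rwa [h2] at h1

/-- some unit is a square at all primes -/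
def Exc (φ : Fin k → Vv f) : Prop := ∃ c : Vv f, c ≠ 0 ∧ ∀ j, dot (φ j) c = 0

theorem SolS_add {Q : Frm f} {ψ w : Vv f} {E : Finset (Vv f × Vv f)} {τ : Tab f k} (hE : IsGrp E ψ w)
    {p q : Vv f × (Fin k → ZMod 2)} (hp : p ∈ SolS Q w E τ) (hq : q ∈ SolS Q w E τ) :
    p + q ∈ SolS Q w E τ := by
  rw [mem_SolS] at hp hq ⊢
  refine ⟨?_, fun j => ?_⟩
  · have h := hE.add _ hp.1 _ hq.1
    rwa [Prod.mk_add_mk, ← phy_add] at h
  · rw [Prod.fst_add, Prod.snd_add, cnd_add, hp.2, hq.2, add_zero]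

theorem SolS_zero {Q : Frm f} {ψ w : Vv f} {E : Finset (Vv f × Vv f)} (τ : Tab f k) (hE : IsGrp E ψ w) :
    0 ∈ SolS Q w E τ := by
  rw [mem_SolS]
  refine ⟨?_, fun j => ?_⟩
  · have : ((phy τ.1 (0 : Vv f × (Fin k → ZMod 2)).2, (0 : Vv f × (Fin k → ZMod 2)).1) : Vv f × Vv f) = 0 := by
      rw [Prod.snd_zero, Prod.fst_zero, phy_zero]
      rfl
    rw [this]
    exact hE.zero
  · exact cnd_zero Q.g w τ j

theorem SolS_D {Q : Frm f} {ψ w : Vv f} {E : Finset (Vv f × Vv f)} {τ : Tab f k} (hE : IsGrp E ψ w)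
    (hτ : ∑ j, τ.1 j = ψ) : ((w, fun _ => 1) : Vv f × (Fin k → ZMod 2)) ∈ SolS Q w E τ := by
  rw [mem_SolS]
  refine ⟨?_, fun j => cnd_one Q.g w τ j⟩
  rw [phy_one, hτ]
  exact hE.D

theorem SolS_card {Q : Frm f} {ψ w : Vv f} {E : Finset (Vv f × Vv f)} (τ : Tab f k) (hE : IsGrp E ψ w) :
    ∃ n : ℕ, (SolS Q w E τ).card = 2 ^ n := by
  classical
  let H : Submodule (ZMod 2) (Vv f × (Fin k → ZMod 2)) :=
    { carrier := {p | p ∈ SolS Q w E τ}
      add_mem' := fun {p q} hp hq => SolS_add hE hp hq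
      zero_mem' := SolS_zero τ hE
      smul_mem' := by
        intro c p hp
        rcases z2 c with rfl | rfl
        · rw [zero_smul]; exact SolS_zero τ hE
        · rw [one_smul]; exact hp }
  have h1 := Module.natCard_eq_pow_finrank (K := ZMod 2) (V := H)
  rw [Nat.card_zmod] at h1
  refine ⟨Module.finrank (ZMod 2) H, ?_⟩
  rw [← h1]
  have h2 : Nat.card (SolS Q w E τ) = Nat.card H := rfl
  rw [← h2, Nat.card_eq_fintype_card, Fintype.card_coe]

theorem snd_inj {Q : Frm f} {ψ w : Vv f} {E : Finset (Vv f × Vv f)} {τ : Tab f k} (hE : IsGrp E ψ w)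
    (hx : ¬ Exc τ.1) {p q : Vv f × (Fin k → ZMod 2)} (hp : p ∈ SolS Q w E τ) (hq : q ∈ SolS Q w E τ)
    (h : p.2 = q.2) : p = q := by
  refine Prod.ext ?_ h
  by_contra hne
  apply hx
  refine ⟨p.1 + q.1, fun h1 => hne ?_, fun j => ?_⟩
  · funext l
    exact CharTwo.add_eq_zero.1 (congrFun h1 l)
  · have h2 := (mem_SolS.1 (SolS_add hE hp hq)).2 j
    have h3 : (p + q).2 = 0 := by
      rw [Prod.snd_add, h]
      funext i
      exact add_self _
    rw [h3, Prod.fst_add] at h2
    simpa [cnd] using h2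

/-- the combination of a tuple of solutions -/
theorem SolS_comb {Q : Frm f} {ψ w : Vv f} {E : Finset (Vv f × Vv f)} {τ : Tab f k} (hE : IsGrp E ψ w)
    (v : Fin t → ZMod 2) (a : Fin t → Vv f × (Fin k → ZMod 2)) (ha : ∀ s, a s ∈ SolS Q w E τ) :
    ∑ s, v s • a s ∈ SolS Q w E τ := by
  classical
  refine Finset.sum_induction _ (fun p => p ∈ SolS Q w E τ) (fun p q => SolS_add hE)
    (SolS_zero τ hE) fun s _ => ?_
  rcases z2 (v s) with h | h
  · rw [h, zero_smul]; exact SolS_zero τ hE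
  · rw [h, one_smul]; exact ha s

theorem nd_of {Q : Frm f} {ψ w : Vv f} {E : Finset (Vv f × Vv f)} {τ : Tab f k} (hE : IsGrp E ψ w)
    (hτ : ∑ j, τ.1 j = ψ) (hx : ¬ Exc τ.1) (a : Fin t → Vv f × (Fin k → ZMod 2))
    (ha : ∀ s, a s ∈ SolS Q w E τ)
    (h : ∀ v : Fin t → ZMod 2, v ≠ 0 → ∑ s, v s • a s ≠ 0 ∧ ∑ s, v s • a s ≠ (w, fun _ => 1)) :
    Nd (fun s => (a s).2) := by
  intro v hv
  by_contra hcon
  push Not at hcon
  obtain ⟨h1, h2⟩ := h v hv
  have hp := SolS_comb (Q := Q) hE v a ha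
  have h3 : ∀ i, (∑ s, v s • a s).2 i = ∑ s, v s * (a s).2 i := by
    intro i
    rw [Prod.snd_sum, Finset.sum_apply]
    rfl
  have h4 : ∀ i j, (∑ s, v s • a s).2 i = (∑ s, v s • a s).2 j := by
    intro i j
    have h5 := hcon i j
    rw [h3, h3]
    simp only [mul_add, sum_add_distrib] at h5
    exact CharTwo.add_eq_zero.1 h5
  rcases Nat.eq_zero_or_pos k with rfl | hk
  · exact h1 (snd_inj hE hx hp (SolS_zero τ hE) (Subsingleton.elim _ _))
  · rcases z2 ((∑ s, v s • a s).2 ⟨0, hk⟩) with h5 | h5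
    · refine h1 (snd_inj hE hx hp (SolS_zero τ hE) (funext fun i => ?_))
      rw [h4 i ⟨0, hk⟩, h5]
      rfl
    · refine h2 (snd_inj hE hx hp (SolS_D hE hτ) (funext fun i => ?_))
      rw [h4 i ⟨0, hk⟩, h5]

/-- the number of the tuples of solutions with a property -/
noncomputable def Nt (Q : Frm f) (w : Vv f) (E : Finset (Vv f × Vv f))
    (P : (Fin t → Fin k → ZMod 2) → Prop) (τ : Tab f k) : ℝ :=
  open Classical in
  ∑ a ∈ Fintype.piFinset (fun _ : Fin t => SolS Q w E τ), if P (fun s => (a s).2) then 1 else 0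

theorem Nt_nonneg (Q : Frm f) (w : Vv f) (E : Finset (Vv f × Vv f))
    (P : (Fin t → Fin k → ZMod 2) → Prop) (τ : Tab f k) : 0 ≤ Nt Q w E P τ := by
  unfold Nt
  refine sum_nonneg fun a _ => ?_
  split_ifs <;> norm_num

theorem v_ne {v : Fin t → ZMod 2} (hv : v ≠ 0) : ∃ s, v s = 1 := by
  by_contra h
  push Not at h
  exact hv (funext fun p => (z2 (v p)).resolve_right (h p))

/-- the second count -/
theorem Nt_two_le {Q : Frm f} {ψ w : Vv f} {E : Finset (Vv f × Vv f)} {τ : Tab f k} (hk : 0 < k)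
    (hE : IsGrp E ψ w) (hτ : ∑ j, τ.1 j = ψ) :
    Nt Q w E (t := 2) Sj τ ≤ (((SolS Q w E τ).card : ℝ) - 2) * (((SolS Q w E τ).card : ℝ) - 4) := by
  classical
  set S := SolS Q w E τ with hSdef
  set D : Vv f × (Fin k → ZMod 2) := (w, fun _ => 1) with hDdef
  have hD0 : D ≠ 0 := by
    intro h
    have h1 := congrFun (congrArg Prod.snd h) ⟨0, hk⟩
    exact one_ne_zero h1
  have hDS : D ∈ S := SolS_D hE hτ
  have h0S : (0 : Vv f × (Fin k → ZMod 2)) ∈ S := SolS_zero τ hE
  have hadd : ∀ a ∈ S, ∀ b ∈ S, a + b ∈ S := fun a ha b hb => SolS_add hE ha hb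
  have h2 : ∀ x : Vv f × (Fin k → ZMod 2), x + x = 0 := fun x =>
    Prod.ext (funext fun i => add_self _) (funext fun i => add_self _)
  have n2 : Nt Q w E (t := 2) Sj τ = ∑ a ∈ S, ∑ b ∈ S,
      if Sj (fun s : Fin 2 => ((Fin.cons a (Fin.cons b Fin.elim0 : Fin 1 → _) : Fin 2 → _) s).2)
      then (1 : ℝ) else 0 := by
    unfold Nt
    rw [sum_pi_succ]
    refine sum_congr rfl fun a _ => ?_
    rw [sum_pi_succ]
    refine sum_congr rfl fun b _ => ?_
    rw [sum_pi_zero]
  have b2 := bound2 S D h2 h0S hDS hD0 hadd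
    (fun a b => Sj (fun s : Fin 2 => ((Fin.cons a (Fin.cons b Fin.elim0 : Fin 1 → _) : Fin 2 → _) s).2)) (by
    intro a ha b hb hP
    have hN := Sj.nd hP
    have e : ∀ v : Fin 2 → ZMod 2, v ≠ 0 →
        (v 0 • a + v 1 • b) ≠ 0 ∧ (v 0 • a + v 1 • b) ≠ D := by
      intro v hv
      obtain ⟨i, j, hij⟩ := hN v hv
      rw [Fin.sum_univ_two] at hij
      have e1 : ∀ i, (v 0 • a + v 1 • b).2 i = v 0 * a.2 i + v 1 * b.2 i := fun i => rfl
      refine ⟨fun h => hij ?_, fun h => hij ?_⟩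
      · have c1 := e1 i
        have c2 := e1 j
        rw [h] at c1 c2
        change (0 : ZMod 2) = _ at c1
        change (0 : ZMod 2) = _ at c2
        change v 0 * (a.2 i + a.2 j) + v 1 * (b.2 i + b.2 j) = 0
        linear_combination -c1 - c2
      · have c1 := e1 i
        have c2 := e1 j
        rw [h] at c1 c2
        change (1 : ZMod 2) = _ at c1
        change (1 : ZMod 2) = _ at c2
        change v 0 * (a.2 i + a.2 j) + v 1 * (b.2 i + b.2 j) = 0
        have := add_self (1 : ZMod 2)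
        linear_combination this - c1 - c2
    have e10 := e ![1, 0] (by decide)
    have e01 := e ![0, 1] (by decide)
    have e11 := e ![1, 1] (by decide)
    simp only [Matrix.cons_val_zero, Matrix.cons_val_one, one_smul, zero_smul, add_zero, zero_add] at e10 e01 e11
    refine ⟨e10.1, e10.2, e01.1, e01.2, fun h => ?_, fun h => ?_⟩
    · rw [h] at e11
      exact e11.1 (h2 a)
    · rw [h] at e11
      apply e11.2
      rw [← add_assoc, h2, zero_add])
  rw [← n2] at b2
  exact b2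

/-- the pointwise inequality -/
theorem pointwise {Q : Frm f} {ψ w : Vv f} {E : Finset (Vv f × Vv f)} {τ : Tab f k} (hk : 0 < k)
    (hE : IsGrp E ψ w) (hτ : ∑ j, τ.1 j = ψ) (hx : ¬ Exc τ.1) (hM : (SolS Q w E τ).card ≠ 2) :
    1 - Nt Q w E (t := 1) Nd τ / 2 + Nt Q w E (t := 2) Sj τ / 12 - Nt Q w E (t := 3) Nd τ / 168 ≤ 0 := by
  classical
  set S := SolS Q w E τ with hSdef
  set D : Vv f × (Fin k → ZMod 2) := (w, fun _ => 1) with hDdef
  have hD0 : D ≠ 0 := by
    intro h
    have h1 := congrFun (congrArg Prod.snd h) ⟨0, hk⟩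
    exact one_ne_zero h1
  have hDS : D ∈ S := SolS_D hE hτ
  have h0S : (0 : Vv f × (Fin k → ZMod 2)) ∈ S := SolS_zero τ hE
  have hadd : ∀ a ∈ S, ∀ b ∈ S, a + b ∈ S := fun a ha b hb => SolS_add hE ha hb
  have h2 : ∀ x : Vv f × (Fin k → ZMod 2), x + x = 0 := fun x =>
    Prod.ext (funext fun i => add_self _) (funext fun i => add_self _)
  -- the three counts as iterated sums
  have n1 : Nt Q w E (t := 1) Nd τ = ∑ a ∈ S, if Nd (fun s : Fin 1 => ((Fin.cons a Fin.elim0 : Fin 1 → _) s).2)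
      then (1 : ℝ) else 0 := by
    unfold Nt
    rw [sum_pi_succ]
    refine sum_congr rfl fun a _ => ?_
    rw [sum_pi_zero]
  have n3 : Nt Q w E (t := 3) Nd τ = ∑ a ∈ S, ∑ b ∈ S, ∑ c ∈ S,
      if Nd (fun s : Fin 3 =>
        ((Fin.cons a (Fin.cons b (Fin.cons c Fin.elim0 : Fin 1 → _) : Fin 2 → _) : Fin 3 → _) s).2)
      then (1 : ℝ) else 0 := by
    unfold Nt
    rw [sum_pi_succ]
    refine sum_congr rfl fun a _ => ?_
    rw [sum_pi_succ]
    refine sum_congr rfl fun b _ => ?_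
    rw [sum_pi_succ]
    refine sum_congr rfl fun c _ => ?_
    rw [sum_pi_zero]
  have b1 := bound1 S D (fun a => Nd (fun s : Fin 1 => ((Fin.cons a Fin.elim0 : Fin 1 → _) s).2)) (by
    intro a ha ha0 haD
    refine nd_of (Q := Q) hE hτ hx (Fin.cons a Fin.elim0) (fun s => ?_) fun v hv => ?_
    · rw [Fin.eq_zero s]; exact ha
    · obtain ⟨s, hs⟩ := v_ne hv
      rw [Fin.eq_zero s] at hs
      rw [Fin.sum_univ_one, hs, one_smul]
      exact ⟨ha0, haD⟩)
  rw [← n1] at b1
  have b2 : Nt Q w E (t := 2) Sj τ ≤ ((S.card : ℝ) - 2) * ((S.card : ℝ) - 4) := Nt_two_le hk hE hτ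
  have p1 := Nt_nonneg Q w E (t := 1) Nd τ
  have p3 := Nt_nonneg Q w E (t := 3) Nd τ
  obtain ⟨n, hn⟩ := SolS_card (Q := Q) τ hE
  have hSn : (S.card : ℝ) = 2 ^ n := by rw [hSdef, hn]; push_cast; rfl
  have hS2 : 2 ≤ S.card := by
    have : ({0, D} : Finset _) ⊆ S := by
      intro x hx'
      rw [mem_insert, mem_singleton] at hx'
      rcases hx' with rfl | rfl
      · exact h0S
      · exact hDS
    have h3 := card_le_card this
    rwa [Finset.card_pair hD0.symm] at h3
  have hn0 : n ≠ 0 := by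
    rintro rfl
    rw [← hSdef] at hn
    omega
  have hn1 : n ≠ 1 := by
    rintro rfl
    exact hM hn
  rcases Nat.lt_or_ge n 3 with hn3 | hn3
  · have : n = 2 := by omega
    subst this
    have h4 : (S.card : ℝ) = 4 := by rw [hSn]; norm_num
    rw [h4] at b1 b2
    linarith
  · have h8 : 8 ≤ S.card := by
      rw [hSdef, hn]
      calc 8 = 2 ^ 3 := rfl
        _ ≤ 2 ^ n := Nat.pow_le_pow_right (by norm_num) hn3
    have b3 := bound3 S D h8
      (fun a b c => Nd (fun s : Fin 3 =>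
        ((Fin.cons a (Fin.cons b (Fin.cons c Fin.elim0 : Fin 1 → _) : Fin 2 → _) : Fin 3 → _) s).2)) (by
      intro a ha b hb c hc ha2 hb2 hc2
      refine nd_of (Q := Q) hE hτ hx
        (Fin.cons a (Fin.cons b (Fin.cons c Fin.elim0 : Fin 1 → _) : Fin 2 → _) : Fin 3 → _)
        (fun s => ?_) fun v hv => ?_
      · refine Fin.cases ?_ (fun s => ?_) s
        · exact ha
        · refine Fin.cases ?_ (fun s => ?_) s
          · exact hb
          · rw [Fin.eq_zero s]; exact hc
      · rw [Fin.sum_univ_three]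
        change (v 0 • a + v 1 • b + v 2 • c) ≠ 0 ∧ (v 0 • a + v 1 • b + v 2 • c) ≠ D
        simp only [mem_insert, mem_singleton, not_or] at ha2 hb2 hc2
        obtain ⟨a1, a2⟩ := ha2
        obtain ⟨b1, b2, b3, b4⟩ := hb2
        obtain ⟨c1, c2, c3, c4, c5, c6, c7, c8⟩ := hc2
        have m1 : ∀ x y z : Vv f × (Fin k → ZMod 2), x + y = z → y = x + z := by
          intro x y z h
          rw [← h, ← add_assoc, h2, zero_add]
        rcases z2 (v 2) with r2 | r2
        · rcases z2 (v 1) with r1 | r1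
          · have r0 : v 0 = 1 := by
              obtain ⟨s, hs⟩ := v_ne hv
              fin_cases s
              · exact hs
              · exact absurd (hs.symm.trans r1) one_ne_zero
              · exact absurd (hs.symm.trans r2) one_ne_zero
            simp only [r0, r1, r2, one_smul, zero_smul, add_zero]
            exact ⟨a1, a2⟩
          · rcases z2 (v 0) with r0 | r0
            · simp only [r0, r1, r2, one_smul, zero_smul, add_zero, zero_add]
              exact ⟨b1, b2⟩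
            · simp only [r0, r1, r2, one_smul, zero_smul, add_zero]
              refine ⟨fun h => b3 ?_, fun h => b4 ?_⟩
              · rw [m1 _ _ _ h, add_zero]
              · exact m1 _ _ _ h
        · rcases z2 (v 1) with r1 | r1
          · rcases z2 (v 0) with r0 | r0
            · simp only [r0, r1, r2, one_smul, zero_smul, zero_add]
              exact ⟨c1, c2⟩
            · simp only [r0, r1, r2, one_smul, zero_smul, add_zero]
              refine ⟨fun h => c3 ?_, fun h => c4 ?_⟩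
              · rw [m1 _ _ _ h, add_zero]
              · exact m1 _ _ _ h
          · rcases z2 (v 0) with r0 | r0
            · simp only [r0, r1, r2, one_smul, zero_smul, zero_add]
              refine ⟨fun h => c5 ?_, fun h => c6 ?_⟩
              · rw [m1 _ _ _ h, add_zero]
              · exact m1 _ _ _ h
            · simp only [r0, r1, r2, one_smul]
              refine ⟨fun h => c7 ?_, fun h => c8 ?_⟩
              · rw [m1 _ _ _ h, add_zero]
              · exact m1 _ _ _ h)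
    rw [← n3] at b3
    rcases Nat.lt_or_ge n 4 with hn4 | hn4
    · have : n = 3 := by omega
      subst this
      have h4 : (S.card : ℝ) = 8 := by rw [hSn]; norm_num
      rw [h4] at b1 b2
      linarith
    · have h16 : (16 : ℝ) ≤ S.card := by
        rw [hSn]
        calc (16 : ℝ) = 2 ^ 4 := by norm_num
          _ ≤ 2 ^ n := pow_le_pow_right₀ (by norm_num) hn4
      set M : ℝ := (S.card : ℝ)
      have h5 : 0 ≤ (M - 4) * (M - 8) * (M - 16) :=
        mul_nonneg (mul_nonneg (by linarith) (by linarith)) (by linarith)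
      nlinarith [h5]

end Pool.Agent.Q7.LM
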